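import Mathlib

/-!
Vector matroids with unimodular representations are Rayleigh (Cauchy-Binet and the matrix
determinant lemma), and incidence matrices are unimodular.
-/

set_option autoImplicit false

open Matrix Finset

namespace Pool.Agent.Lib.MP_c72610_co.Gr

variable {ι : Type} [Fintype ι] [DecidableEq ι] {r : ℕ}

/-- The weighted Gram matrix of a family of vectors. -/
noncomputable def gram (v : ι → Fin r → ℝ) (z : ι → ℝ) : Matrix (Fin r) (Fin r) ℝ :=
  Matrix.of fun i j => ∑ g, z g * v g i * v g j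

theorem exists_coef (v : ι → Fin r → ℝ) : ∃ c : Finset ι → ℝ, (∀ S, S.card ≠ r → c S = 0) ∧
    ∀ z, (gram v z).det = ∑ S, c S * ∏ g ∈ S, z g := by
  let K : (Fin r → ι) → ℝ := fun f => (∏ i, v (f i) i) * (Matrix.of fun i => v (f i)).det
  have hK : ∀ f, ¬ Function.Injective f → K f = 0 := by
    intro f hf
    simp only [Function.Injective, not_forall] at hf
    obtain ⟨i, j, h, hij⟩ := hf
    have : (Matrix.of fun i => v (f i)).det = 0 :=
      Matrix.det_zero_of_row_eq hij (by ext k; simp [h])
    simp only [K, this, mul_zero]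
  refine ⟨fun S => ∑ f with univ.image f = S, K f, fun S hS => ?_, fun z => ?_⟩
  · refine sum_eq_zero fun f hf => hK f fun hi => hS ?_
    rw [← (mem_filter.1 hf).2, card_image_of_injective _ hi, card_univ, Fintype.card_fin]
  · have h1 : gram v z = fun i => ∑ g, (z g * v g i) • v g := by
      ext i j; simp [gram, Finset.sum_apply]
    have h2 : (gram v z).det = ∑ f : Fin r → ι, (∏ i, z (f i)) * K f := by
      rw [h1]
      refine ((Matrix.detRowAlternating (n := Fin r) (R := ℝ)).toMultilinearMap.map_sum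
        (fun i g => (z g * v g i) • v g)).trans ?_
      refine sum_congr rfl fun f _ => ?_
      rw [MultilinearMap.map_smul_univ, prod_mul_distrib, smul_eq_mul, mul_assoc]
      rfl
    rw [h2, ← sum_fiberwise univ (fun f : Fin r → ι => univ.image f)]
    refine sum_congr rfl fun S _ => ?_
    rw [sum_mul]
    refine sum_congr rfl fun f hf => ?_
    by_cases hi : Function.Injective f
    · rw [← (mem_filter.1 hf).2, prod_image fun a _ b _ h => hi h, mul_comm]
    · rw [hK f hi, mul_zero, zero_mul]

theorem coef_eq (v : ι → Fin r → ℝ) {c : Finset ι → ℝ} (h0 : ∀ S, S.card ≠ r → c S = 0)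
    (hc : ∀ z, (gram v z).det = ∑ S, c S * ∏ g ∈ S, z g) (e : Fin r → ι)
    (he : Function.Injective e) :
    c (univ.image e) = (Matrix.of fun i => v (e i)).det ^ 2 := by
  have hcard : (univ.image e).card = r := by
    rw [card_image_of_injective _ he, card_univ, Fintype.card_fin]
  have h1 := hc fun g => if g ∈ univ.image e then 1 else 0
  rw [sum_eq_single (univ.image e)] at h1
  · rw [prod_eq_one fun g hg => if_pos hg, mul_one] at h1
    have h2 : gram v (fun g => if g ∈ univ.image e then 1 else 0) =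
        (Matrix.of fun i => v (e i))ᵀ * Matrix.of fun i => v (e i) := by
      ext i j
      simp only [gram, of_apply, Matrix.mul_apply, transpose_apply, ite_mul, one_mul, zero_mul]
      rw [← sum_filter, filter_mem_eq_inter, univ_inter, sum_image fun a _ b _ h => he h]
    rw [← h1, h2, det_mul, det_transpose, sq]
  · intro S _ hS
    by_cases hr : S.card = r
    · have : ¬ S ⊆ univ.image e := fun h => hS (eq_of_subset_of_card_le h (by omega))
      obtain ⟨g, hg, hg'⟩ := not_subset.1 this
      rw [prod_eq_zero hg (if_neg hg'), mul_zero]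
    · rw [h0 S hr, zero_mul]
  · intro h; exact absurd (mem_univ _) h

/-- Incidence matrices are totally unimodular. -/
theorem det_incidence {α : Type} [DecidableEq α] (n : ℕ) (col a b : Fin n → α)
    (hcol : Function.Injective col) :
    (Matrix.of fun i j => (if a i = col j then (1 : ℝ) else 0) -
      (if b i = col j then 1 else 0)).det ^ 2 ∈ ({0, 1} : Set ℝ) := by
  induction n with
  | zero => simp
  | succ n ih =>
    set A : Matrix (Fin (n + 1)) (Fin (n + 1)) ℝ := Matrix.of fun i j =>
      (if a i = col j then (1 : ℝ) else 0) - (if b i = col j then 1 else 0) with hA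
    have key : ∀ (i : Fin (n + 1)) (x : α) (ε : ℝ), ε ^ 2 = 1 →
        (∀ j, A i j = if x = col j then ε else 0) → A.det ^ 2 ∈ ({0, 1} : Set ℝ) := by
      intro i x ε hε hrow
      rw [Matrix.det_succ_row A i]
      by_cases hx : ∃ j, x = col j
      · obtain ⟨j, rfl⟩ := hx
        rw [sum_eq_single j (fun k _ hk => by
          rw [hrow, if_neg fun h => hk (hcol h).symm, mul_zero, zero_mul])
          (fun h => absurd (mem_univ _) h), hrow, if_pos rfl, mul_pow, mul_pow, hε,
          ← pow_mul, mul_comm (_ + _), pow_mul, neg_one_sq, one_pow, one_mul, one_mul]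
        exact ih (col ∘ j.succAbove) (a ∘ i.succAbove) (b ∘ i.succAbove)
          (hcol.comp Fin.succAbove_right_injective)
      · rw [sum_eq_zero fun k _ => by rw [hrow, if_neg fun h => hx ⟨k, h⟩, mul_zero, zero_mul]]
        simp
    by_cases h1 : ∃ i, ∀ j, b i ≠ col j
    · obtain ⟨i, hi⟩ := h1
      exact key i (a i) 1 (by norm_num) fun j => by simp [hA, hi j]
    by_cases h2 : ∃ i, ∀ j, a i ≠ col j
    · obtain ⟨i, hi⟩ := h2
      exact key i (b i) (-1) (by norm_num) fun j => by
        by_cases h : b i = col j <;> simp [hA, hi j, h]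
    push Not at h1 h2
    have h0 : A.det = 0 := by
      refine Matrix.exists_mulVec_eq_zero_iff.1 ⟨fun _ => 1, fun h => ?_, ?_⟩
      · exact one_ne_zero (congrFun h 0)
      · ext i
        obtain ⟨j, hj⟩ := h1 i
        obtain ⟨k, hk⟩ := h2 i
        simp [hA, mulVec, dotProduct, sum_sub_distrib, hj, hk, hcol.eq_iff]
    simp [h0]

/-- The Rayleigh inequality for a determinantal weight. -/
theorem rayleigh_of_det (v : ι → Fin r → ℝ) {c : Finset ι → ℝ}
    (hc : ∀ z, (gram v z).det = ∑ S, c S * ∏ g ∈ S, z g) (z : ι → ℝ) {e f : ι} (hef : e ≠ f)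
    (hz : (gram v z).det ≠ 0) :
    (∑ S, if e ∈ S ∧ f ∈ S then c S * ∏ g ∈ S, z g else 0) * (∑ S, c S * ∏ g ∈ S, z g) +
      (z e * z f) * ((gram v z).det * (v e ⬝ᵥ (gram v z)⁻¹ *ᵥ v f)) ^ 2 =
    (∑ S, if e ∈ S then c S * ∏ g ∈ S, z g else 0) *
      (∑ S, if f ∈ S then c S * ∏ g ∈ S, z g else 0) := by
  set L := gram v z with hL
  set Bef := ∑ S, if e ∈ S ∧ f ∈ S then c S * ∏ g ∈ S, z g else 0
  set Be := ∑ S, if e ∈ S then c S * ∏ g ∈ S, z g else 0
  set Bf := ∑ S, if f ∈ S then c S * ∏ g ∈ S, z g else 0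
  have hB := hc z
  rw [← hL] at hB
  rw [← hB]
  have hsymm : Lᵀ = L := by
    ext i j; simp only [hL, gram, transpose_apply, of_apply]
    exact sum_congr rfl fun g _ => by ring
  have hR : v f ⬝ᵥ L⁻¹ *ᵥ v e = v e ⬝ᵥ L⁻¹ *ᵥ v f := by
    rw [dotProduct_mulVec, ← mulVec_transpose, transpose_nonsing_inv, hsymm, dotProduct_comm]
  have key : ∀ s t : ℝ, L.det + s * Be + t * Bf + s * t * Bef =
      L.det * ((1 + s * z e * (v e ⬝ᵥ L⁻¹ *ᵥ v e)) * (1 + t * z f * (v f ⬝ᵥ L⁻¹ *ᵥ v f)) -
        s * t * (z e * z f) * (v e ⬝ᵥ L⁻¹ *ᵥ v f) ^ 2) := by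
    intro s t
    have h1 := hc fun g => z g * ((if g = e then 1 + s else 1) * if g = f then 1 + t else 1)
    let U : Matrix (Fin r) (Fin 2) ℝ := Matrix.of fun i k => ![s * z e * v e i, t * z f * v f i] k
    let W : Matrix (Fin 2) (Fin r) ℝ := Matrix.of fun k j => ![v e j, v f j] k
    have h2 : gram v (fun g => z g * ((if g = e then 1 + s else 1) *
        if g = f then 1 + t else 1)) = L + U * W := by
      ext i j
      have : ∀ g, z g * ((if g = e then 1 + s else 1) * if g = f then 1 + t else 1) * v g i * v g j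
          = z g * v g i * v g j + ((if g = e then s * z e * v e i * v e j else 0) +
            if g = f then t * z f * v f i * v f j else 0) := by
        intro g
        by_cases h : g = e
        · subst h; simp only [if_true, if_neg hef]; ring
        · by_cases h' : g = f
          · subst h'; simp only [if_true, if_neg h]; ring
          · simp only [if_neg h, if_neg h']; ring
      simp only [gram, of_apply, this, sum_add_distrib, sum_ite_eq', mem_univ, if_true, hL,
        Matrix.add_apply, Matrix.mul_apply, Fin.sum_univ_two, U, W, cons_val_zero, cons_val_one]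
    rw [h2, Matrix.det_add_mul _ _ (isUnit_iff_ne_zero.2 hz), Matrix.det_fin_two] at h1
    have h3 : ∀ (k l : Fin 2), (W * L⁻¹ * U) k l =
        ![s * z e, t * z f] l * (![v e, v f] k ⬝ᵥ L⁻¹ *ᵥ ![v e, v f] l) := by
      intro k l
      rw [dotProduct_mulVec]
      simp only [Matrix.mul_apply, dotProduct, vecMul, mul_sum, U, W, of_apply]
      refine sum_congr rfl fun j _ => ?_
      fin_cases k <;> fin_cases l <;> simp [sum_mul, mul_sum] <;>
        exact sum_congr rfl fun _ _ => by ring
    simp only [Matrix.add_apply, h3, one_apply_eq, one_apply_ne (show (0 : Fin 2) ≠ 1 by decide),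
      one_apply_ne (show (1 : Fin 2) ≠ 0 by decide), cons_val_zero, cons_val_one, hR] at h1
    have h4 : ∑ S, c S * ∏ g ∈ S, (z g * ((if g = e then 1 + s else 1) *
        if g = f then 1 + t else 1)) = L.det + s * Be + t * Bf + s * t * Bef := by
      rw [hB]
      simp only [Be, Bf, Bef, mul_sum, ← sum_add_distrib]
      refine sum_congr rfl fun S _ => ?_
      rw [prod_mul_distrib, prod_mul_distrib, prod_ite_eq', prod_ite_eq']
      by_cases h : e ∈ S <;> by_cases h' : f ∈ S <;> simp [h, h'] <;> ring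
    rw [← h4, ← h1]; ring
  have k1 := key 1 0
  have k2 := key 0 1
  have k3 := key 1 1
  have e1 : Be = L.det * (z e * (v e ⬝ᵥ L⁻¹ *ᵥ v e)) := by linear_combination k1
  have e2 : Bf = L.det * (z f * (v f ⬝ᵥ L⁻¹ *ᵥ v f)) := by linear_combination k2
  have e3 : Bef = L.det * (z e * z f * ((v e ⬝ᵥ L⁻¹ *ᵥ v e) * (v f ⬝ᵥ L⁻¹ *ᵥ v f) -
      (v e ⬝ᵥ L⁻¹ *ᵥ v f) ^ 2)) := by linear_combination k3 - e1 - e2
  rw [e1, e2, e3]; ring

end Pool.Agent.Lib.MP_c72610_co.Gr
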