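import Mathlib

set_option autoImplicit false

namespace Pool.Agent.Lib.MP_c72610_co

open Finset Classical

section
variable {ι A B : Type*}

/-- all elements of X carry the same label -/
def Same (r : ι → A) (X : Finset ι) : Prop := ∀ x ∈ X, ∀ y ∈ X, r x = r y
/-- X is a pair with different row labels and different column labels -/
def Dg (r : ι → A) (c : ι → B) (X : Finset ι) : Prop :=
  ∃ x y, r x ≠ r y ∧ c x ≠ c y ∧ X = {x, y}
/-- V contains the four corners of a rectangle -/
def C4 (r : ι → A) (c : ι → B) (V : Finset ι) : Prop :=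
  ∃ p ∈ V, ∃ q ∈ V, ∃ p' ∈ V, ∃ q' ∈ V, r p = r q ∧ r p' = r q' ∧ c p = c p' ∧ c q = c q' ∧
    r p ≠ r p' ∧ c p ≠ c q

noncomputable def sp (r : ι → A) (c : ι → B) (V : Finset ι) : ℕ :=
  (V.powerset.filter fun T => (T.Nonempty ∧ Same r T) ∧ ((V \ T).Nonempty ∧ Same c (V \ T))).card
noncomputable def nd (r : ι → A) (c : ι → B) (V : Finset ι) : ℕ :=
  (V.powerset.filter (Dg r c)).card
noncomputable def dg (r : ι → A) (c : ι → B) (x y : ι) : ℕ :=
  if r x ≠ r y ∧ c x ≠ c y then 1 else 0
noncomputable def nd2 (r : ι → A) (c : ι → B) (V : Finset ι) : ℕ :=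
  ∑ x ∈ V, ∑ y ∈ V, dg r c x y

lemma dg_comm (r : ι → A) (c : ι → B) (x y : ι) : dg r c x y = dg r c y x := by
  simp only [dg, ne_comm]

lemma dg_swap (r : ι → A) (c : ι → B) (x y : ι) : dg c r x y = dg r c x y := by
  simp only [dg, and_comm]

lemma nd2_swap (r : ι → A) (c : ι → B) (V : Finset ι) : nd2 c r V = nd2 r c V := by
  simp only [nd2, dg_swap r c]

lemma C4_swap (r : ι → A) (c : ι → B) (V : Finset ι) (h : C4 c r V) : C4 r c V := by
  obtain ⟨p, hp, q, hq, p', hp', q', hq', h1, h2, h3, h4, h5, h6⟩ := h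
  exact ⟨p, hp, p', hp', q, hq, q', hq', h3, h4, h1, h2, h6, h5⟩

lemma sp_swap (r : ι → A) (c : ι → B) (V : Finset ι) : sp c r V ≤ sp r c V := by
  unfold sp
  refine card_le_card_of_injOn (fun T => V \ T) ?_ ?_
  · intro T hT
    simp only [coe_filter, mem_powerset, Set.mem_ofPred_eq] at hT ⊢
    rw [Finset.sdiff_sdiff_eq_self hT.1]
    exact ⟨sdiff_subset, hT.2.2, hT.2.1⟩
  · intro T hT T' hT' h
    simp only [coe_filter, mem_powerset, Set.mem_ofPred_eq] at hT hT'
    have := congrArg (fun S => V \ S) h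
    simpa [Finset.sdiff_sdiff_eq_self hT.1, Finset.sdiff_sdiff_eq_self hT'.1] using this

lemma nd2_le (r : ι → A) (c : ι → B) (V : Finset ι) : nd2 r c V ≤ 2 * nd r c V := by
  have e : nd2 r c V = ((V ×ˢ V).filter fun p => r p.1 ≠ r p.2 ∧ c p.1 ≠ c p.2).card := by
    rw [card_filter, sum_product]; rfl
  rw [e, nd]
  refine card_le_mul_card_image_of_maps_to (f := fun p : ι × ι => ({p.1, p.2} : Finset ι)) ?_ 2 ?_
  · intro p hp
    simp only [mem_filter, mem_product, mem_powerset] at hp ⊢
    refine ⟨?_, p.1, p.2, hp.2.1, hp.2.2, rfl⟩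
    intro z hz
    simp only [mem_insert, mem_singleton] at hz
    rcases hz with rfl | rfl
    · exact hp.1.1
    · exact hp.1.2
  · intro T hT
    simp only [mem_filter] at hT
    obtain ⟨_, x, y, hr, hc, rfl⟩ := hT
    refine le_trans (card_le_card (t := {(x, y), (y, x)}) ?_) card_le_two
    intro p hp
    simp only [mem_filter, mem_product] at hp
    obtain ⟨⟨_, h1, h2⟩, h3⟩ := hp
    have a1 : p.1 ∈ ({x, y} : Finset ι) := by rw [← h3]; simp
    have a2 : p.2 ∈ ({x, y} : Finset ι) := by rw [← h3]; simp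
    simp only [mem_insert, mem_singleton] at a1 a2 ⊢
    obtain ⟨p1, p2⟩ := p
    simp only at a1 a2 h1 h2
    rcases a1 with rfl | rfl <;> rcases a2 with rfl | rfl <;> simp_all

lemma line_case (r : ι → A) (c : ι → B) (hinj : ∀ x y, r x = r y → c x = c y → x = y)
    (V : Finset ι) (hV : 5 ≤ V.card) (a : A) (hd : 3 ≤ (V.filter fun y => r y = a).card) :
    2 * V.card ≤ 2 * sp r c V + nd2 r c V ∨ (V.card = 5 ∧ C4 r c V ∧ 8 ≤ nd2 r c V) := by
  set L := V.filter fun y => r y = a with hL
  set J := V.filter fun y => ¬ r y = a with hJ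
  have hLJ : L.card + J.card = V.card := card_filter_add_card_filter_not _
  have hLm : ∀ y, y ∈ L ↔ y ∈ V ∧ r y = a := fun y => by simp [hL]
  have hJm : ∀ y, y ∈ J ↔ y ∈ V ∧ ¬ r y = a := fun y => by simp [hJ]
  have hVL : V \ L = J := by ext y; simp only [mem_sdiff, hLm, hJm]; tauto
  have hLV : L ⊆ V := filter_subset _ _
  have hLs : Same r L := fun x hx y hy => by rw [((hLm x).1 hx).2, ((hLm y).1 hy).2]
  set δ : ι → ℕ := fun p => ∑ y ∈ L, dg r c p y with hδ
  have hsplit : 2 * ∑ p ∈ J, δ p + nd2 r c J ≤ nd2 r c V := by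
    have e : ∀ g : ι → ℕ, ∑ y ∈ V, g y = ∑ y ∈ L, g y + ∑ y ∈ J, g y := fun g =>
      (sum_filter_add_sum_filter_not V _ g).symm
    unfold nd2
    rw [e]
    simp only [e, sum_add_distrib]
    have : ∑ x ∈ L, ∑ y ∈ J, dg r c x y = ∑ p ∈ J, δ p := by
      rw [sum_comm]; exact sum_congr rfl fun p _ => sum_congr rfl fun y _ => dg_comm _ _ _ _
    have h2 : ∑ x ∈ J, ∑ y ∈ L, dg r c x y = ∑ p ∈ J, δ p := rfl
    omega
  have hδ1 : ∀ p ∈ J, δ p + (L.filter fun y => c y = c p).card = L.card := by
    intro p hp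
    have : δ p = (L.filter fun y => ¬ c y = c p).card := by
      rw [card_filter]
      refine sum_congr rfl fun y hy => ?_
      have h1 : r p ≠ r y := by rw [((hLm y).1 hy).2]; exact ((hJm p).1 hp).2
      simp only [dg, h1, ne_eq, not_false_eq_true, true_and, eq_comm]
    rw [this, add_comm]; exact card_filter_add_card_filter_not _
  have hδ2 : ∀ p, (L.filter fun y => c y = c p).card ≤ 1 := by
    intro p
    rw [card_le_one]
    intro x hx y hy
    rw [mem_filter] at hx hy
    exact hinj x y (hLs x hx.1 y hy.1) (by rw [hx.2, hy.2])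
  have hδ3 : ∀ p ∈ J, δ p = L.card ∨ (δ p + 1 = L.card ∧ ∃ y ∈ L, c y = c p) := by
    intro p hp
    have h1 := hδ1 p hp
    have h2 := hδ2 p
    by_cases h : (L.filter fun y => c y = c p).card = 0
    · left; omega
    · right
      obtain ⟨y, hy⟩ := card_pos.1 (Nat.pos_of_ne_zero h)
      rw [mem_filter] at hy
      exact ⟨by omega, y, hy.1, hy.2⟩
  have hsum : J.card * (L.card - 1) ≤ ∑ p ∈ J, δ p := by
    have := card_nsmul_le_sum J δ (L.card - 1) (fun p hp => by rcases hδ3 p hp with h | h <;> omega)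
    simpa using this
  have hLne : L.Nonempty := card_pos.1 (by omega)
  have hsp1 : J.Nonempty → Same c J → L ∈ V.powerset.filter fun T =>
      (T.Nonempty ∧ Same r T) ∧ ((V \ T).Nonempty ∧ Same c (V \ T)) := by
    intro h1 h2
    rw [mem_filter, mem_powerset, hVL]
    exact ⟨hLV, ⟨hLne, hLs⟩, h1, h2⟩
  rcases Nat.lt_or_ge J.card 2 with hj | hj
  · left
    rcases Nat.eq_zero_or_pos J.card with hj0 | hj1
    · have hLeq : L = V := eq_of_subset_of_card_le hLV (by omega)
      have : V.card ≤ sp r c V := by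
        unfold sp
        refine card_le_card_of_injOn (fun y => V.erase y) ?_ ?_
        · intro y hy
          simp only [coe_filter, mem_powerset, Set.mem_ofPred_eq]
          have hy' : y ∈ V := hy
          have e : V \ V.erase y = {y} := by
            ext z; simp only [mem_sdiff, mem_erase, mem_singleton]
            constructor
            · rintro ⟨h1, h2⟩; by_contra h; exact h2 ⟨h, h1⟩
            · rintro rfl; exact ⟨hy', fun h => h.1 rfl⟩
          rw [e]
          refine ⟨erase_subset _ _, ⟨card_pos.1 (by rw [card_erase_of_mem hy']; omega), ?_⟩,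
            singleton_nonempty _, ?_⟩
          · intro x hx z hz
            exact hLs x (hLeq ▸ mem_of_mem_erase hx) z (hLeq ▸ mem_of_mem_erase hz)
          · intro x hx z hz
            rw [mem_singleton] at hx hz; rw [hx, hz]
        · intro y hy z _ h
          exact erase_injOn V hy ‹_› h
      omega
    · obtain ⟨p, hp⟩ := card_eq_one.1 (by omega : J.card = 1)
      have hpJ : p ∈ J := by rw [hp]; simp
      have hs1 := hsp1 ⟨p, hpJ⟩ (by
        rw [hp]; intro x hx z hz; rw [mem_singleton] at hx hz; rw [hx, hz])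
      have hsd : ∑ p ∈ J, δ p = δ p := by rw [hp]; simp
      rcases hδ3 p hpJ with h | ⟨h, y, hy, hc⟩
      · have : 1 ≤ sp r c V := card_pos.2 ⟨L, hs1⟩
        omega
      · have hs2 : L.erase y ∈ V.powerset.filter fun T =>
            (T.Nonempty ∧ Same r T) ∧ ((V \ T).Nonempty ∧ Same c (V \ T)) := by
          rw [mem_filter, mem_powerset]
          refine ⟨(erase_subset _ _).trans hLV,
            ⟨card_pos.1 (by rw [card_erase_of_mem hy]; omega), fun x hx z hz =>
              hLs x (mem_of_mem_erase hx) z (mem_of_mem_erase hz)⟩,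
            ⟨y, by simp [hLV hy]⟩, ?_⟩
          have e : ∀ x ∈ V \ L.erase y, c x = c p := by
            intro x hx
            rw [mem_sdiff, mem_erase] at hx
            by_cases h1 : x = y
            · rw [h1, hc]
            · have : x ∈ J := by rw [← hVL, mem_sdiff]; exact ⟨hx.1, fun h => hx.2 ⟨h1, h⟩⟩
              rw [hp, mem_singleton] at this; rw [this]
          intro x hx z hz
          rw [e x hx, e z hz]
        have : 1 < sp r c V := one_lt_card.2 ⟨L, hs1, L.erase y, hs2, fun h => by
          have := congrArg (fun S => y ∈ S) h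
          simp [hy] at this⟩
        omega
  · by_cases h23 : J.card = 2 ∧ L.card = 3
    · obtain ⟨p, q, hpq, hp⟩ := card_eq_two.1 h23.1
      have hpJ : p ∈ J := by rw [hp]; simp
      have hqJ : q ∈ J := by rw [hp]; simp
      have hsd : ∑ p ∈ J, δ p = δ p + δ q := by rw [hp, sum_pair hpq]
      by_cases hc : c p = c q
      · left
        have hs1 := hsp1 ⟨p, hpJ⟩ (by
          rw [hp]; intro x hx z hz
          simp only [mem_insert, mem_singleton] at hx hz
          rcases hx with rfl | rfl <;> rcases hz with rfl | rfl <;> simp [hc])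
        have : 1 ≤ sp r c V := card_pos.2 ⟨L, hs1⟩
        rcases hδ3 p hpJ with h | h <;> rcases hδ3 q hqJ with h' | h' <;> omega
      · by_cases hr : r p = r q
        · rcases hδ3 p hpJ with h | ⟨h, y, hy, hcy⟩
          · left; rcases hδ3 q hqJ with h' | h' <;> omega
          · rcases hδ3 q hqJ with h' | ⟨h', z, hz, hcz⟩
            · left; omega
            · right
              refine ⟨by omega, ⟨y, hLV hy, z, hLV hz, p, ((hJm p).1 hpJ).1, q, ((hJm q).1 hqJ).1,
                hLs y hy z hz, hr, hcy, hcz, ?_, by rw [hcy, hcz]; exact hc⟩, by omega⟩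
              rw [((hLm y).1 hy).2]; exact fun h => ((hJm p).1 hpJ).2 h.symm
        · left
          have : 2 ≤ nd2 r c J := by
            unfold nd2
            rw [hp, sum_pair hpq, sum_pair hpq, sum_pair hpq, dg_comm r c q p]
            have : dg r c p q = 1 := by simp [dg, hr, hc]
            omega
          rcases hδ3 p hpJ with h | h <;> rcases hδ3 q hqJ with h' | h' <;> omega
    · left
      have : J.card + L.card ≤ J.card * (L.card - 1) := by
        obtain ⟨j, hj'⟩ := Nat.exists_eq_add_of_le hj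
        obtain ⟨d, hd'⟩ := Nat.exists_eq_add_of_le hd
        rw [hj', hd'] at h23 ⊢
        have e : 3 + d - 1 = 2 + d := by omega
        rw [e]
        have : 1 ≤ j + d := by omega
        nlinarith [Nat.zero_le (j * d)]
      omega

lemma main0 (r : ι → A) (c : ι → B) (hinj : ∀ x y, r x = r y → c x = c y → x = y)
    (V : Finset ι) (hV : 5 ≤ V.card) :
    V.card ≤ sp r c V + nd r c V + (if V.card = 5 ∧ C4 r c V then 1 else 0) := by
  have hnd := nd2_le r c V
  by_cases h : ∀ x ∈ V, 2 ≤ ∑ y ∈ V, dg r c x y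
  · have := card_nsmul_le_sum V _ 2 h
    simp only [smul_eq_mul] at this
    unfold nd2 at hnd
    omega
  · push Not at h
    obtain ⟨x, hx, hlt⟩ := h
    have e : ∑ y ∈ V, dg r c x y = (V.filter fun y => r x ≠ r y ∧ c x ≠ c y).card := by
      rw [card_filter]; rfl
    have hcov : V.card + 1 ≤ (V.filter fun y => r y = r x).card + (V.filter fun y => c y = c x).card
        + (V.filter fun y => r x ≠ r y ∧ c x ≠ c y).card := by
      have h1 := card_union_add_card_inter (V.filter fun y => r y = r x) (V.filter fun y => c y = c x)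
      have h2 : 1 ≤ ((V.filter fun y => r y = r x) ∩ (V.filter fun y => c y = c x)).card :=
        card_pos.2 ⟨x, by simp [hx]⟩
      have h3 : V.card ≤ ((V.filter fun y => r y = r x) ∪ (V.filter fun y => c y = c x)).card
          + (V.filter fun y => r x ≠ r y ∧ c x ≠ c y).card := by
        refine le_trans (card_le_card ?_) (card_union_le _ _)
        intro y hy
        simp only [mem_union, mem_filter, hy, true_and, ne_eq, eq_comm (a := r x), eq_comm (a := c x)]
        tauto
      omega
    by_cases h3 : 3 ≤ (V.filter fun y => r y = r x).card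
    · rcases line_case r c hinj V hV _ h3 with h | ⟨h1, h2, h4⟩
      · omega
      · rw [if_pos ⟨h1, h2⟩]; omega
    · have h3' : 3 ≤ (V.filter fun y => c y = c x).card := by omega
      have hs := sp_swap r c V
      have hn := nd2_swap r c V
      rcases line_case c r (fun x y h1 h2 => hinj x y h2 h1) V hV _ h3' with h | ⟨h1, h2, h4⟩
      · omega
      · rw [if_pos ⟨h1, C4_swap r c V h2⟩]; omega

end

end Pool.Agent.Lib.MP_c72610_co
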