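import Mathlib

set_option autoImplicit false

namespace Pool.Agent.Lib.MP_c72610_co

open Finset

/-- integer indicator -/
def ind (p : Prop) [Decidable p] : ℤ := if p then 1 else 0

section sym
variable {ι : Type*}

def sym2 (κ : ι → ι → ι → ι → ℤ) : ι → ι → ι → ι → ℤ :=
  fun x y z u => κ x y z u + κ y x z u
def sym3 (κ : ι → ι → ι → ι → ℤ) : ι → ι → ι → ι → ℤ :=
  fun x y z u => sym2 κ x y z u + sym2 κ x z y u + sym2 κ z y x u
def sym4 (κ : ι → ι → ι → ι → ℤ) : ι → ι → ι → ι → ℤ :=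
  fun x y z u => sym3 κ x y z u + sym3 κ x y u z + sym3 κ x u z y + sym3 κ u y z x

variable [Fintype ι]

/-- the quartic form with kernel κ -/
def Q4 (w : ι → ℝ) (κ : ι → ι → ι → ι → ℤ) : ℝ :=
  ∑ x, ∑ y, ∑ z, ∑ u, (κ x y z u : ℝ) * (w x * w y * w z * w u)

lemma Q4_add (w : ι → ℝ) (κ μ : ι → ι → ι → ι → ℤ) :
    Q4 w (fun x y z u => κ x y z u + μ x y z u) = Q4 w κ + Q4 w μ := by
  simp only [Q4, Int.cast_add, add_mul, Finset.sum_add_distrib]

lemma Q4_s12 (w : ι → ℝ) (κ : ι → ι → ι → ι → ℤ) :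
    Q4 w (fun x y z u => κ y x z u) = Q4 w κ := by
  unfold Q4
  rw [Finset.sum_comm]
  refine sum_congr rfl fun x _ => sum_congr rfl fun y _ => sum_congr rfl fun z _ =>
    sum_congr rfl fun u _ => by ring

lemma Q4_s23 (w : ι → ℝ) (κ : ι → ι → ι → ι → ℤ) :
    Q4 w (fun x y z u => κ x z y u) = Q4 w κ := by
  unfold Q4
  refine sum_congr rfl fun x _ => ?_
  rw [Finset.sum_comm]
  refine sum_congr rfl fun y _ => sum_congr rfl fun z _ =>
    sum_congr rfl fun u _ => by ring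

lemma Q4_s34 (w : ι → ℝ) (κ : ι → ι → ι → ι → ℤ) :
    Q4 w (fun x y z u => κ x y u z) = Q4 w κ := by
  unfold Q4
  refine sum_congr rfl fun x _ => sum_congr rfl fun y _ => ?_
  rw [Finset.sum_comm]
  refine sum_congr rfl fun z _ =>
    sum_congr rfl fun u _ => by ring

lemma Q4_s13 (w : ι → ℝ) (κ : ι → ι → ι → ι → ℤ) :
    Q4 w (fun x y z u => κ z y x u) = Q4 w κ := by
  have h1 := Q4_s12 w (fun x y z u => κ z x y u)
  have h2 := Q4_s23 w (fun x y z u => κ y x z u)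
  have h3 := Q4_s12 w κ
  linarith

lemma Q4_s24 (w : ι → ℝ) (κ : ι → ι → ι → ι → ℤ) :
    Q4 w (fun x y z u => κ x u z y) = Q4 w κ := by
  have h1 := Q4_s23 w (fun x y z u => κ x u y z)
  have h2 := Q4_s34 w (fun x y z u => κ x z y u)
  have h3 := Q4_s23 w κ
  linarith

lemma Q4_s14 (w : ι → ℝ) (κ : ι → ι → ι → ι → ℤ) :
    Q4 w (fun x y z u => κ u y z x) = Q4 w κ := by
  have h1 := Q4_s12 w (fun x y z u => κ u x z y)
  have h2 := Q4_s24 w (fun x y z u => κ y x z u)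
  have h3 := Q4_s12 w κ
  linarith

lemma Q4_sym2 (w : ι → ℝ) (κ : ι → ι → ι → ι → ℤ) : Q4 w (sym2 κ) = 2 * Q4 w κ := by
  have h := Q4_add w κ (fun x y z u => κ y x z u)
  have e1 := Q4_s12 w κ
  unfold sym2; linarith

lemma Q4_sym3 (w : ι → ℝ) (κ : ι → ι → ι → ι → ℤ) : Q4 w (sym3 κ) = 6 * Q4 w κ := by
  have h := Q4_add w (fun x y z u => sym2 κ x y z u + sym2 κ x z y u)
    (fun x y z u => sym2 κ z y x u)
  have h' := Q4_add w (sym2 κ) (fun x y z u => sym2 κ x z y u)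
  have e1 := Q4_s13 w (sym2 κ)
  have e2 := Q4_s23 w (sym2 κ)
  have e3 := Q4_sym2 w κ
  unfold sym3; linarith

lemma Q4_sym4 (w : ι → ℝ) (κ : ι → ι → ι → ι → ℤ) : Q4 w (sym4 κ) = 24 * Q4 w κ := by
  have h := Q4_add w (fun x y z u => sym3 κ x y z u + sym3 κ x y u z + sym3 κ x u z y)
    (fun x y z u => sym3 κ u y z x)
  have h' := Q4_add w (fun x y z u => sym3 κ x y z u + sym3 κ x y u z)
    (fun x y z u => sym3 κ x u z y)
  have h'' := Q4_add w (sym3 κ) (fun x y z u => sym3 κ x y u z)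
  have e1 := Q4_s14 w (sym3 κ)
  have e2 := Q4_s24 w (sym3 κ)
  have e3 := Q4_s34 w (sym3 κ)
  have e4 := Q4_sym3 w κ
  unfold sym4; linarith

lemma Q4_nonneg (w : ι → ℝ) (hw : ∀ x, 0 ≤ w x) (κ : ι → ι → ι → ι → ℤ)
    (h : ∀ x y z u, 0 ≤ sym4 κ x y z u) : 0 ≤ Q4 w κ := by
  have h1 : 0 ≤ Q4 w (sym4 κ) := by
    unfold Q4
    refine sum_nonneg fun x _ => sum_nonneg fun y _ => sum_nonneg fun z _ =>
      sum_nonneg fun u _ => mul_nonneg (by exact_mod_cast h x y z u) ?_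
    have := hw x; have := hw y; have := hw z; have := hw u
    positivity
  rw [Q4_sym4] at h1
  linarith

end sym

section kernel
variable {A B : Type*} [DecidableEq A] [DecidableEq B]

/-- same row, same column, same cell indicators -/
def iR (x y : A × B) : ℤ := ind (x.1 = y.1)
def iC (x y : A × B) : ℤ := ind (x.2 = y.2)
def iE (x y : A × B) : ℤ := iR x y * iC x y
def dist3 (y z u : A × B) : ℤ := (1 - iE y z) * (1 - iE y u) * (1 - iE z u)

/-- kernel of twelve times the degree four part -/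
def kF (x y z u : A × B) : ℤ :=
  2 * (dist3 y z u * iR y z * iR y u) + 2 * (dist3 y z u * iC y z * iC y u) - 2 * dist3 y z u
    + 3 * ((1 - iE x y) * iR x y * ((1 - iE z u) * iC z u))
    + 3 * ((1 - iR x y) * (1 - iC x y) * (1 - iE z u))

/-- kernel of the sum of squares part, rows: x, y in one row, z, u in another -/
def kR (x y z u : A × B) : ℤ :=
  iR x y * iR z u * (iC x y + iC z u - 2 * iC x z - iC x y * iC z u + iC x z * iC y u)
def kC (x y z u : A × B) : ℤ :=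
  iC x y * iC z u * (iR x y + iR z u - 2 * iR x z - iR x y * iR z u + iR x z * iR y u)

def kD (x y z u : A × B) : ℤ := kF x y z u - 3 * kR x y z u - 3 * kC x y z u

end kernel

lemma kD_check : ∀ a1 : Fin 2, ∀ a2 : Fin 3, ∀ a3 : Fin 4, ∀ b1 : Fin 2, ∀ b2 : Fin 3, ∀ b3 : Fin 4,
    0 ≤ sym4 (kD (A := ℕ) (B := ℕ)) (0, 0) (a1.1, b1.1) (a2.1, b2.1) (a3.1, b3.1) := by
  decide +kernel

lemma exists_label {A : Type*} [DecidableEq A] (a0 a1 a2 a3 : A) :
    ∃ φ : A → ℕ, φ a0 = 0 ∧ φ a1 < 2 ∧ φ a2 < 3 ∧ φ a3 < 4 ∧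
      ∀ p ∈ [a0, a1, a2, a3], ∀ q ∈ [a0, a1, a2, a3], (p = q ↔ φ p = φ q) := by
  refine ⟨fun a => if a = a0 then 0 else if a = a1 then 1 else if a = a2 then 2 else 3,
    by simp, ?_, ?_, ?_, ?_⟩
  · dsimp only; split_ifs <;> simp_all
  · dsimp only; split_ifs <;> simp_all
  · dsimp only; split_ifs <;> simp_all
  · intro p hp q hq
    refine ⟨fun h => by rw [h], fun h => ?_⟩
    simp only [List.mem_cons, List.not_mem_nil, or_false] at hp hq
    dsimp only at h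
    split_ifs at h <;> first | omega | grind

lemma kD_sym_nonneg {A B : Type*} [DecidableEq A] [DecidableEq B] (x y z u : A × B) :
    0 ≤ sym4 kD x y z u := by
  obtain ⟨φ, h0, h1, h2, h3, hφ⟩ := exists_label x.1 y.1 z.1 u.1
  obtain ⟨ψ, g0, g1, g2, g3, hψ⟩ := exists_label x.2 y.2 z.2 u.2
  have key := kD_check ⟨φ y.1, h1⟩ ⟨φ z.1, h2⟩ ⟨φ u.1, h3⟩ ⟨ψ y.2, g1⟩ ⟨ψ z.2, g2⟩ ⟨ψ u.2, g3⟩
  set f : A × B → ℕ × ℕ := fun p => (φ p.1, ψ p.2) with hf
  have hx : ((0, 0) : ℕ × ℕ) = f x := by simp [hf, h0, g0]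
  change 0 ≤ sym4 kD (0, 0) (f y) (f z) (f u) at key
  rw [hx] at key
  have eR : ∀ p ∈ [x, y, z, u], ∀ q ∈ [x, y, z, u], iR p q = iR (f p) (f q) := by
    intro p hp q hq
    have hp' : p.1 ∈ [x.1, y.1, z.1, u.1] := by
      simp only [List.mem_cons, List.not_mem_nil, or_false] at hp ⊢
      rcases hp with rfl | rfl | rfl | rfl <;> simp
    have hq' : q.1 ∈ [x.1, y.1, z.1, u.1] := by
      simp only [List.mem_cons, List.not_mem_nil, or_false] at hq ⊢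
      rcases hq with rfl | rfl | rfl | rfl <;> simp
    have := hφ _ hp' _ hq'
    simp only [iR, ind, hf, this]
  have eC : ∀ p ∈ [x, y, z, u], ∀ q ∈ [x, y, z, u], iC p q = iC (f p) (f q) := by
    intro p hp q hq
    have hp' : p.2 ∈ [x.2, y.2, z.2, u.2] := by
      simp only [List.mem_cons, List.not_mem_nil, or_false] at hp ⊢
      rcases hp with rfl | rfl | rfl | rfl <;> simp
    have hq' : q.2 ∈ [x.2, y.2, z.2, u.2] := by
      simp only [List.mem_cons, List.not_mem_nil, or_false] at hq ⊢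
      rcases hq with rfl | rfl | rfl | rfl <;> simp
    have := hψ _ hp' _ hq'
    simp only [iC, ind, hf, this]
  have eK : ∀ p ∈ [x, y, z, u], ∀ q ∈ [x, y, z, u], ∀ r ∈ [x, y, z, u], ∀ s ∈ [x, y, z, u],
      kD p q r s = kD (f p) (f q) (f r) (f s) := by
    intro p hp q hq r hr s hs
    simp only [kD, kF, kR, kC, dist3, iE]
    rw [eR p hp q hq, eR p hp r hr, eR q hq r hr, eR q hq s hs, eR r hr s hs,
      eC p hp q hq, eC p hp r hr, eC q hq r hr, eC q hq s hs, eC r hr s hs]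
  have mx : x ∈ [x, y, z, u] := by simp
  have my : y ∈ [x, y, z, u] := by simp
  have mz : z ∈ [x, y, z, u] := by simp
  have mu : u ∈ [x, y, z, u] := by simp
  simp only [sym4, sym3, sym2] at key ⊢
  simp only [eK, mx, my, mz, mu]
  exact key

lemma psi_nonneg {B : Type*} [Fintype B] (a c : B → ℝ) (ha : ∀ b, 0 ≤ a b) :
    0 ≤ (∑ b, c b) ^ 2 * (∑ b, a b * a b) + (∑ b, a b) ^ 2 * (∑ b, c b * c b)
      - 2 * (∑ b, a b) * (∑ b, c b) * (∑ b, a b * c b)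
      - (∑ b, a b * a b) * (∑ b, c b * c b) + (∑ b, a b * c b) ^ 2 := by
  set sA := ∑ b, a b with hA
  set sC := ∑ b, c b with hC
  set α := ∑ b, a b * a b with hα
  set β := ∑ b, a b * c b with hβ
  set γ := ∑ b, c b * c b with hγ
  have hW : 0 ≤ sC ^ 2 * α + sA ^ 2 * γ - 2 * sA * sC * β := by
    have : sC ^ 2 * α + sA ^ 2 * γ - 2 * sA * sC * β = ∑ b, (sC * a b - sA * c b) ^ 2 := by
      rw [hα, hβ, hγ, Finset.mul_sum, Finset.mul_sum, Finset.mul_sum, ← Finset.sum_add_distrib,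
        ← Finset.sum_sub_distrib]
      exact sum_congr rfl fun b _ => by ring
    rw [this]; positivity
  have hA0 : 0 ≤ sA := sum_nonneg fun b _ => ha b
  have hαA : α ≤ sA ^ 2 := by
    calc α ≤ ∑ b, a b * sA := sum_le_sum fun b _ =>
          mul_le_mul_of_nonneg_left (single_le_sum (f := a) (fun b _ => ha b) (mem_univ b)) (ha b)
      _ = sA ^ 2 := by rw [← Finset.sum_mul]; ring
  rcases hA0.eq_or_lt with h | h
  · have hz : ∀ b, a b = 0 := fun b =>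
      (Finset.sum_eq_zero_iff_of_nonneg (fun b _ => ha b)).1 h.symm b (mem_univ b)
    have h1 : α = 0 := by simp [hα, hz]
    have h2 : β = 0 := by simp [hβ, hz]
    rw [h1, h2, ← h]; simp
  · have h2 : 0 < sA ^ 2 := by positivity
    have key : sA ^ 2 * (α * γ - β ^ 2) ≤ sA ^ 2 * (sC ^ 2 * α + sA ^ 2 * γ - 2 * sA * sC * β) := by
      have e : sA ^ 2 * (α * γ - β ^ 2)
          = α * (sC ^ 2 * α + sA ^ 2 * γ - 2 * sA * sC * β) - (sC * α - sA * β) ^ 2 := by ring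
      rw [e]
      have := mul_le_mul_of_nonneg_right hαA hW
      nlinarith [sq_nonneg (sC * α - sA * β)]
    have := le_of_mul_le_mul_left key h2
    linarith

lemma quad1 {B : Type*} [Fintype B] (F G : B → B → ℝ) :
    ∑ b1, ∑ b2, ∑ b3, ∑ b4, F b1 b2 * G b3 b4 = (∑ b1, ∑ b2, F b1 b2) * (∑ b3, ∑ b4, G b3 b4) := by
  rw [Finset.sum_mul]
  refine sum_congr rfl fun b1 _ => ?_
  rw [Finset.sum_mul]
  refine sum_congr rfl fun b2 _ => ?_
  rw [Finset.mul_sum]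
  refine sum_congr rfl fun b3 _ => ?_
  rw [Finset.mul_sum]

lemma quad2 {B : Type*} [Fintype B] (F G : B → B → ℝ) :
    ∑ b1, ∑ b2, ∑ b3, ∑ b4, F b1 b3 * G b2 b4 = (∑ b1, ∑ b2, F b1 b2) * (∑ b3, ∑ b4, G b3 b4) := by
  rw [← quad1]
  refine sum_congr rfl fun b1 _ => ?_
  rw [Finset.sum_comm]

lemma diag2 {B : Type*} [Fintype B] [DecidableEq B] (f g : B → ℝ) :
    ∑ b, ∑ b', ((ind (b = b') : ℤ) : ℝ) * (f b * g b') = ∑ b, f b * g b := by
  simp [ind]

lemma full2 {B : Type*} [Fintype B] (f g : B → ℝ) :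
    ∑ b, ∑ b', (f b * g b') = (∑ b, f b) * ∑ b, g b := by
  rw [Finset.sum_mul_sum]

lemma inner_nonneg {B : Type*} [Fintype B] [DecidableEq B] (a c : B → ℝ) (ha : ∀ b, 0 ≤ a b) :
    0 ≤ ∑ b1, ∑ b2, ∑ b3, ∑ b4,
      ((ind (b1 = b2) + ind (b3 = b4) - 2 * ind (b1 = b3) - ind (b1 = b2) * ind (b3 = b4)
        + ind (b1 = b3) * ind (b2 = b4) : ℤ) : ℝ) * (a b1 * a b2 * c b3 * c b4) := by
  have h := psi_nonneg a c ha
  have e1 := quad1 (fun b b' => ((ind (b = b') : ℤ) : ℝ) * (a b * a b')) (fun b b' => c b * c b')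
  have e2 := quad1 (fun b b' => a b * a b') (fun b b' => ((ind (b = b') : ℤ) : ℝ) * (c b * c b'))
  have e3 := quad2 (fun b b' => ((ind (b = b') : ℤ) : ℝ) * (a b * c b')) (fun b b' => a b * c b')
  have e4 := quad1 (fun b b' => ((ind (b = b') : ℤ) : ℝ) * (a b * a b'))
    (fun b b' => ((ind (b = b') : ℤ) : ℝ) * (c b * c b'))
  have e5 := quad2 (fun b b' => ((ind (b = b') : ℤ) : ℝ) * (a b * c b'))
    (fun b b' => ((ind (b = b') : ℤ) : ℝ) * (a b * c b'))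
  rw [diag2, full2] at e1
  rw [full2, diag2] at e2
  rw [diag2, full2] at e3
  rw [diag2, diag2] at e4
  rw [diag2] at e5
  have e : ∑ b1, ∑ b2, ∑ b3, ∑ b4,
      ((ind (b1 = b2) + ind (b3 = b4) - 2 * ind (b1 = b3) - ind (b1 = b2) * ind (b3 = b4)
        + ind (b1 = b3) * ind (b2 = b4) : ℤ) : ℝ) * (a b1 * a b2 * c b3 * c b4)
      = (∑ b1, ∑ b2, ∑ b3, ∑ b4, ((ind (b1 = b2) : ℤ) : ℝ) * (a b1 * a b2) * (c b3 * c b4))
      + (∑ b1, ∑ b2, ∑ b3, ∑ b4, a b1 * a b2 * (((ind (b3 = b4) : ℤ) : ℝ) * (c b3 * c b4)))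
      - 2 * (∑ b1, ∑ b2, ∑ b3, ∑ b4, ((ind (b1 = b3) : ℤ) : ℝ) * (a b1 * c b3) * (a b2 * c b4))
      - (∑ b1, ∑ b2, ∑ b3, ∑ b4, ((ind (b1 = b2) : ℤ) : ℝ) * (a b1 * a b2) *
          (((ind (b3 = b4) : ℤ) : ℝ) * (c b3 * c b4)))
      + (∑ b1, ∑ b2, ∑ b3, ∑ b4, ((ind (b1 = b3) : ℤ) : ℝ) * (a b1 * c b3) *
          (((ind (b2 = b4) : ℤ) : ℝ) * (a b2 * c b4))) := by
    simp only [Finset.mul_sum, ← Finset.sum_add_distrib, ← Finset.sum_sub_distrib]
    refine sum_congr rfl fun b1 _ => sum_congr rfl fun b2 _ => sum_congr rfl fun b3 _ =>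
      sum_congr rfl fun b4 _ => ?_
    push_cast; ring
  rw [e, e1, e2, e3, e4, e5]
  nlinarith [h]

lemma sum_iR {A B : Type*} [Fintype A] [Fintype B] [DecidableEq A] [DecidableEq B]
    (x : A × B) (g : A × B → ℝ) : ∑ y, ((iR x y : ℤ) : ℝ) * g y = ∑ b, g (x.1, b) := by
  rw [Fintype.sum_prod_type, Finset.sum_comm]
  simp [iR, ind]

lemma Q4_kR_nonneg {A B : Type*} [Fintype A] [Fintype B] [DecidableEq A] [DecidableEq B]
    (w : A × B → ℝ) (hw : ∀ x, 0 ≤ w x) : 0 ≤ Q4 w kR := by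
  have e : Q4 w kR = ∑ x : A × B, ∑ b2, ∑ z : A × B, ∑ b4,
      ((ind (x.2 = b2) + ind (z.2 = b4) - 2 * ind (x.2 = z.2) - ind (x.2 = b2) * ind (z.2 = b4)
        + ind (x.2 = z.2) * ind (b2 = b4) : ℤ) : ℝ) *
        (w x * w (x.1, b2) * w z * w (z.1, b4)) := by
    unfold Q4
    refine sum_congr rfl fun x _ => ?_
    rw [← sum_iR x (fun y => ∑ z : A × B, ∑ b4,
      ((ind (x.2 = y.2) + ind (z.2 = b4) - 2 * ind (x.2 = z.2) - ind (x.2 = y.2) * ind (z.2 = b4)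
        + ind (x.2 = z.2) * ind (y.2 = b4) : ℤ) : ℝ) *
        (w x * w y * w z * w (z.1, b4)))]
    refine sum_congr rfl fun y _ => ?_
    rw [Finset.mul_sum]
    refine sum_congr rfl fun z _ => ?_
    rw [← sum_iR z (fun u =>
      ((ind (x.2 = y.2) + ind (z.2 = u.2) - 2 * ind (x.2 = z.2) - ind (x.2 = y.2) * ind (z.2 = u.2)
        + ind (x.2 = z.2) * ind (y.2 = u.2) : ℤ) : ℝ) *
        (w x * w y * w z * w u)), Finset.mul_sum]
    refine sum_congr rfl fun u _ => ?_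
    simp only [kR, iC]
    push_cast; ring
  rw [e]
  simp only [Fintype.sum_prod_type]
  refine sum_nonneg fun a _ => ?_
  have e2 : ∀ F : B → B → A → ℝ, ∑ b1, ∑ b2, ∑ a', F b1 b2 a' = ∑ a', ∑ b1, ∑ b2, F b1 b2 a' := by
    intro F
    rw [Finset.sum_comm (s := (univ : Finset A))]
    refine sum_congr rfl fun b1 _ => ?_
    rw [Finset.sum_comm]
  rw [e2]
  exact sum_nonneg fun a' _ => inner_nonneg (fun b => w (a, b)) (fun b => w (a', b)) (fun b => hw _)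

lemma Q4_kC_nonneg {A B : Type*} [Fintype A] [Fintype B] [DecidableEq A] [DecidableEq B]
    (w : A × B → ℝ) (hw : ∀ x, 0 ≤ w x) : 0 ≤ Q4 w kC := by
  have h := Q4_kR_nonneg (fun p : B × A => w p.swap) (fun p => hw _)
  have e : ∀ F : A × B → ℝ, ∑ x, F x = ∑ p : B × A, F p.swap := fun F =>
    (Equiv.sum_comp (Equiv.prodComm B A) F).symm
  unfold Q4 at h ⊢
  simp only [e]
  exact h

lemma Q4_kF_nonneg {A B : Type*} [Fintype A] [Fintype B] [DecidableEq A] [DecidableEq B]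
    (w : A × B → ℝ) (hw : ∀ x, 0 ≤ w x) : 0 ≤ Q4 w kF := by
  have h1 := Q4_nonneg w hw kD kD_sym_nonneg
  have h2 := Q4_kR_nonneg w hw
  have h3 := Q4_kC_nonneg w hw
  have e : Q4 w kF = Q4 w kD + 3 * Q4 w kR + 3 * Q4 w kC := by
    unfold Q4
    simp only [Finset.mul_sum, ← Finset.sum_add_distrib]
    refine sum_congr rfl fun b1 _ => sum_congr rfl fun b2 _ => sum_congr rfl fun b3 _ =>
      sum_congr rfl fun b4 _ => ?_
    simp only [kD]
    push_cast; ring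
  linarith

end Pool.Agent.Lib.MP_c72610_co
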