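import Pool.Agent.Lib.MP_c72610_co.High
import Pool.Agent.Lib.MP_c72610_co.Four

set_option autoImplicit false

namespace Pool.Agent.Lib.MP_c72610_co

open Finset Classical

section
variable {ι : Type*} [Fintype ι]

/-- generating sum of a set function -/
noncomputable def gf (w : ι → ℝ) (g : Finset ι → ℝ) : ℝ := ∑ X : Finset ι, g X * ∏ x ∈ X, w x

lemma gf_mul (w : ι → ℝ) (g h : Finset ι → ℝ) :
    gf w g * gf w h = ∑ X : Finset ι, ∑ Y : Finset ι, (g X * h Y) *
      ((∏ x ∈ X, w x) * ∏ x ∈ Y, w x) := by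
  unfold gf
  rw [sum_mul_sum]
  exact sum_congr rfl fun X _ => sum_congr rfl fun Y _ => by ring

lemma gf_mono (w : ι → ℝ) (hw : ∀ x, 0 ≤ w x) {g h : Finset ι → ℝ} (hgh : ∀ X, g X ≤ h X) :
    gf w g ≤ gf w h :=
  sum_le_sum fun X _ => mul_le_mul_of_nonneg_right (hgh X) (prod_nonneg fun x _ => hw x)

lemma gf_nonneg (w : ι → ℝ) (hw : ∀ x, 0 ≤ w x) {g : Finset ι → ℝ} (hg : ∀ X, 0 ≤ g X) :
    0 ≤ gf w g :=
  sum_nonneg fun X _ => mul_nonneg (hg X) (prod_nonneg fun x _ => hw x)

lemma gf_add (w : ι → ℝ) (g h : Finset ι → ℝ) :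
    gf w (fun X => g X + h X) = gf w g + gf w h := by
  simp only [gf, add_mul, sum_add_distrib]

lemma gf_sub (w : ι → ℝ) (g h : Finset ι → ℝ) :
    gf w (fun X => g X - h X) = gf w g - gf w h := by
  simp only [gf, sub_mul, sum_sub_distrib]

variable [DecidableEq ι]

lemma sum_mem_insert (x : ι) (F : Finset ι → ℝ) :
    ∑ Y : Finset ι, rind (x ∈ Y) * F Y = ∑ Y : Finset ι, rind (x ∉ Y) * F (insert x Y) := by
  simp only [rind, ite_mul, one_mul, zero_mul]
  rw [← sum_filter, ← sum_filter]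
  refine sum_nbij' (fun Y => Y.erase x) (fun Y => insert x Y) ?_ ?_ ?_ ?_ ?_
  · intro Y _; simp
  · intro Y _; simp
  · intro Y hY; simp only [mem_filter, mem_univ, true_and] at hY; exact insert_erase hY
  · intro Y hY; simp only [mem_filter, mem_univ, true_and] at hY; exact erase_insert hY
  · intro Y hY; simp only [mem_filter, mem_univ, true_and] at hY; rw [insert_erase hY]

lemma gf_step (w : ι → ℝ) (k : ℕ) (g : Finset ι → ℝ) :
    (k + 1 : ℝ) * gf w (fun Y => rind (Y.card = k + 1) * g Y) =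
      ∑ x, w x * gf w (fun Y => rind (Y.card = k) * (rind (x ∉ Y) * g (insert x Y))) := by
  have e1 : (k + 1 : ℝ) * gf w (fun Y => rind (Y.card = k + 1) * g Y) =
      ∑ Y : Finset ι, ∑ x, rind (x ∈ Y) * (rind (Y.card = k + 1) * g Y * ∏ x ∈ Y, w x) := by
    unfold gf
    rw [mul_sum]
    refine sum_congr rfl fun Y _ => ?_
    rw [← sum_mul, sum_rind]
    by_cases h : Y.card = k + 1
    · simp [h]
    · simp [rind_neg h]
  rw [e1, sum_comm]
  refine sum_congr rfl fun x _ => ?_
  rw [sum_mem_insert, gf, mul_sum]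
  refine sum_congr rfl fun Y _ => ?_
  by_cases h : x ∈ Y
  · simp [rind_neg (not_not.2 h)]
  · rw [card_insert_of_notMem h, prod_insert h, rind_congr (Nat.add_right_cancel_iff)]
    ring

omit [DecidableEq ι] in
lemma gf_zero (w : ι → ℝ) (g : Finset ι → ℝ) :
    gf w (fun Y => rind (Y.card = 0) * g Y) = g ∅ := by
  unfold gf
  rw [sum_eq_single ∅]
  · simp [rind]
  · intro Y _ hY; simp [rind, hY]
  · simp

lemma gf_one (w : ι → ℝ) (g : Finset ι → ℝ) :
    gf w (fun Y => rind (Y.card = 1) * g Y) = ∑ x, w x * g {x} := by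
  have := gf_step w 0 g
  simp only [gf_zero] at this
  simpa [rind] using this

lemma gf_two (w : ι → ℝ) (g : Finset ι → ℝ) :
    2 * gf w (fun Y => rind (Y.card = 2) * g Y) =
      ∑ x, ∑ y, (rind (x ≠ y) * g {x, y}) * (w x * w y) := by
  have := gf_step w 1 g
  simp only [gf_one] at this
  norm_num at this
  rw [this]
  refine sum_congr rfl fun x _ => ?_
  rw [mul_sum]
  exact sum_congr rfl fun y _ => by ring

lemma gf_three (w : ι → ℝ) (g : Finset ι → ℝ) :
    6 * gf w (fun Y => rind (Y.card = 3) * g Y) =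
      ∑ x, ∑ y, ∑ z, (rind (y ≠ z) * (rind (x ∉ ({y, z} : Finset ι)) * g {x, y, z})) *
        (w x * w y * w z) := by
  have := gf_step w 2 g
  have e : (6 : ℝ) * gf w (fun Y => rind (Y.card = 3) * g Y) =
      2 * (((2 : ℕ) + 1 : ℝ) * gf w (fun Y => rind (Y.card = 2 + 1) * g Y)) := by
    push_cast; ring
  rw [e, this, mul_sum]
  refine sum_congr rfl fun x _ => ?_
  rw [mul_left_comm, gf_two, mul_sum]
  refine sum_congr rfl fun y _ => ?_
  rw [mul_sum]
  exact sum_congr rfl fun z _ => by ring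

omit [DecidableEq ι] in
lemma quad0 (w : ι → ℝ) (G : ι → ι → ι → ℝ) :
    ∑ x, ∑ y, ∑ z, ∑ u, w x * G y z u = (∑ x, w x) * ∑ y, ∑ z, ∑ u, G y z u := by
  rw [sum_mul]
  simp only [mul_sum]

end

section
variable {A B : Type*} [Fintype A] [Fintype B]

omit [Fintype A] [Fintype B] in
lemma ker3R (y z u : A × B) : ((dist3 y z u * iR y z * iR y u : ℤ) : ℝ) =
    rind (z ≠ u) * (rind (y ∉ ({z, u} : Finset (A × B))) * rind (Same Prod.fst {y, z, u})) := by
  obtain ⟨a, b⟩ := y; obtain ⟨a', b'⟩ := z; obtain ⟨a'', b''⟩ := u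
  simp only [dist3, iE, iR, iC, ind, rind, Same]
  by_cases h1 : a = a' <;> by_cases h2 : a = a'' <;> by_cases h3 : a' = a'' <;>
  by_cases h4 : b = b' <;> by_cases h5 : b = b'' <;> by_cases h6 : b' = b'' <;> simp_all

omit [Fintype A] [Fintype B] in
lemma ker3C (y z u : A × B) : ((dist3 y z u * iC y z * iC y u : ℤ) : ℝ) =
    rind (z ≠ u) * (rind (y ∉ ({z, u} : Finset (A × B))) * rind (Same Prod.snd {y, z, u})) := by
  obtain ⟨a, b⟩ := y; obtain ⟨a', b'⟩ := z; obtain ⟨a'', b''⟩ := u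
  simp only [dist3, iE, iR, iC, ind, rind, Same]
  by_cases h1 : a = a' <;> by_cases h2 : a = a'' <;> by_cases h3 : a' = a'' <;>
  by_cases h4 : b = b' <;> by_cases h5 : b = b'' <;> by_cases h6 : b' = b'' <;> simp_all

omit [Fintype A] [Fintype B] in
lemma ker3E (y z u : A × B) : ((dist3 y z u : ℤ) : ℝ) =
    rind (z ≠ u) * (rind (y ∉ ({z, u} : Finset (A × B))) * 1) := by
  obtain ⟨a, b⟩ := y; obtain ⟨a', b'⟩ := z; obtain ⟨a'', b''⟩ := u
  simp only [dist3, iE, iR, iC, ind, rind]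
  by_cases h1 : a = a' <;> by_cases h2 : a = a'' <;> by_cases h3 : a' = a'' <;>
  by_cases h4 : b = b' <;> by_cases h5 : b = b'' <;> by_cases h6 : b' = b'' <;> simp_all

omit [Fintype A] [Fintype B] in
lemma ker2R (y z : A × B) : (((1 - iE y z) * iR y z : ℤ) : ℝ) =
    rind (y ≠ z) * rind (Same Prod.fst {y, z}) := by
  obtain ⟨a, b⟩ := y; obtain ⟨a', b'⟩ := z
  simp only [iE, iR, iC, ind, rind, Same]
  by_cases h1 : a = a' <;> by_cases h4 : b = b' <;> simp_all

omit [Fintype A] [Fintype B] in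
lemma ker2C (y z : A × B) : (((1 - iE y z) * iC y z : ℤ) : ℝ) =
    rind (y ≠ z) * rind (Same Prod.snd {y, z}) := by
  obtain ⟨a, b⟩ := y; obtain ⟨a', b'⟩ := z
  simp only [iE, iR, iC, ind, rind, Same]
  by_cases h1 : a = a' <;> by_cases h4 : b = b' <;> simp_all

omit [Fintype A] [Fintype B] in
lemma ker2E (y z : A × B) : ((1 - iE y z : ℤ) : ℝ) = rind (y ≠ z) * 1 := by
  obtain ⟨a, b⟩ := y; obtain ⟨a', b'⟩ := z
  simp only [iE, iR, iC, ind, rind]
  by_cases h1 : a = a' <;> by_cases h4 : b = b' <;> simp_all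

omit [Fintype A] [Fintype B] in
lemma Dg_pair {ι : Type*} [DecidableEq ι] (r : ι → A) (c : ι → B) (y z : ι) :
    Dg r c {y, z} ↔ r y ≠ r z ∧ c y ≠ c z := by
  refine ⟨?_, fun h => ⟨y, z, h.1, h.2, by ext; simp⟩⟩
  rintro ⟨p, q, h1, h2, h3⟩
  have a1 : p ∈ ({y, z} : Finset ι) := by rw [h3]; simp
  have a2 : q ∈ ({y, z} : Finset ι) := by rw [h3]; simp
  simp only [mem_insert, mem_singleton] at a1 a2
  rcases a1 with rfl | rfl <;> rcases a2 with rfl | rfl
  · exact absurd rfl h1
  · exact ⟨h1, h2⟩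
  · exact ⟨h1.symm, h2.symm⟩
  · exact absurd rfl h1

omit [Fintype A] [Fintype B] in
lemma ker2D (y z : A × B) : (((1 - iR y z) * (1 - iC y z) : ℤ) : ℝ) =
    rind (y ≠ z) * rind (Dg Prod.fst Prod.snd {y, z}) := by
  rw [rind_congr (Dg_pair _ _ y z)]
  obtain ⟨a, b⟩ := y; obtain ⟨a', b'⟩ := z
  simp only [iR, iC, ind, rind]
  by_cases h1 : a = a' <;> by_cases h4 : b = b' <;> simp_all

lemma four_part (w : A × B → ℝ) (hw : ∀ x, 0 ≤ w x) :
    0 ≤ (∑ x, w x) * gf w (fun Y => rind (Y.card = 3) * rind (Same Prod.fst Y))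
      + (∑ x, w x) * gf w (fun Y => rind (Y.card = 3) * rind (Same Prod.snd Y))
      - (∑ x, w x) * gf w (fun Y => rind (Y.card = 3) * 1)
      + gf w (fun Y => rind (Y.card = 2) * rind (Same Prod.fst Y)) *
          gf w (fun Y => rind (Y.card = 2) * rind (Same Prod.snd Y))
      + gf w (fun Y => rind (Y.card = 2) * rind (Dg Prod.fst Prod.snd Y)) *
          gf w (fun Y => rind (Y.card = 2) * 1) := by
  have h := Q4_kF_nonneg w hw
  have a1 := gf_three w (fun Y => rind (Same Prod.fst Y))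
  have a2 := gf_three w (fun Y => rind (Same Prod.snd Y))
  have a3 := gf_three w (fun Y => 1)
  have a4 := gf_two w (fun Y => rind (Same Prod.fst Y))
  have a5 := gf_two w (fun Y => rind (Same Prod.snd Y))
  have a6 := gf_two w (fun Y => rind (Dg Prod.fst Prod.snd Y))
  have a7 := gf_two w (fun Y => 1)
  simp only [← ker3R] at a1
  simp only [← ker3C] at a2
  simp only [← ker3E] at a3
  simp only [← ker2R] at a4
  simp only [← ker2C] at a5
  simp only [← ker2D] at a6
  simp only [← ker2E] at a7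
  have b1 := quad0 w (fun y z u => ((dist3 y z u * iR y z * iR y u : ℤ) : ℝ) * (w y * w z * w u))
  have b2 := quad0 w (fun y z u => ((dist3 y z u * iC y z * iC y u : ℤ) : ℝ) * (w y * w z * w u))
  have b3 := quad0 w (fun y z u => ((dist3 y z u : ℤ) : ℝ) * (w y * w z * w u))
  have b4 := quad1 (fun y z => (((1 - iE y z) * iR y z : ℤ) : ℝ) * (w y * w z))
    (fun y z => (((1 - iE y z) * iC y z : ℤ) : ℝ) * (w y * w z))
  have b5 := quad1 (fun y z => (((1 - iR y z) * (1 - iC y z) : ℤ) : ℝ) * (w y * w z))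
    (fun y z => ((1 - iE y z : ℤ) : ℝ) * (w y * w z))
  rw [← a1] at b1
  rw [← a2] at b2
  rw [← a3] at b3
  rw [← a4, ← a5] at b4
  rw [← a6, ← a7] at b5
  have e : Q4 w kF =
      2 * (∑ x, ∑ y, ∑ z, ∑ u, w x * (((dist3 y z u * iR y z * iR y u : ℤ) : ℝ) * (w y * w z * w u)))
      + 2 * (∑ x, ∑ y, ∑ z, ∑ u, w x * (((dist3 y z u * iC y z * iC y u : ℤ) : ℝ) * (w y * w z * w u)))
      - 2 * (∑ x, ∑ y, ∑ z, ∑ u, w x * (((dist3 y z u : ℤ) : ℝ) * (w y * w z * w u)))
      + 3 * (∑ x, ∑ y, ∑ z, ∑ u, (((1 - iE x y) * iR x y : ℤ) : ℝ) * (w x * w y) *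
          ((((1 - iE z u) * iC z u : ℤ) : ℝ) * (w z * w u)))
      + 3 * (∑ x, ∑ y, ∑ z, ∑ u, (((1 - iR x y) * (1 - iC x y) : ℤ) : ℝ) * (w x * w y) *
          (((1 - iE z u : ℤ) : ℝ) * (w z * w u))) := by
    unfold Q4
    simp only [mul_sum, ← sum_add_distrib, ← sum_sub_distrib]
    refine sum_congr rfl fun x _ => sum_congr rfl fun y _ => sum_congr rfl fun z _ =>
      sum_congr rfl fun u _ => ?_
    simp only [kF]
    push_cast; ring
  rw [e, b1, b2, b3, b4, b5] at h
  linarith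

omit [Fintype A] [Fintype B] in
lemma low_point {ι : Type*} (r : ι → A) (c : ι → B) (X Y : Finset ι) :
    phi r c X Y = rind (5 ≤ X.card + Y.card) * phi r c X Y +
      ((rind (X.card = 1) * 1) * (rind (Y.card = 2) * rind (Same c Y))
      + (rind (X.card = 2) * rind (Same r X)) * (rind (Y.card = 1) * 1)
      - (rind (X.card = 1) * 1) * (rind (Y.card = 2) * 1)
      + (rind (X.card = 2) * rind (Dg r c X)) * (rind (Y.card = 1) * 1)
      + (rind (X.card = 1) * 1) * (rind (Y.card = 3) * rind (Same c Y))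
      + (rind (X.card = 3) * rind (Same r X)) * (rind (Y.card = 1) * 1)
      - (rind (X.card = 1) * 1) * (rind (Y.card = 3) * 1)
      + (rind (X.card = 2) * rind (Same r X)) * (rind (Y.card = 2) * rind (Same c Y))
      + (rind (X.card = 2) * rind (Dg r c X)) * (rind (Y.card = 2) * 1)) := by
  have h1 : X.card = 1 → rind (Same r X) = 1 := fun h => by
    obtain ⟨x, rfl⟩ := card_eq_one.1 h
    exact rind_pos (by simp [Same])
  have h2 : Y.card = 1 → rind (Same c Y) = 1 := fun h => by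
    obtain ⟨x, rfl⟩ := card_eq_one.1 h
    exact rind_pos (by simp [Same])
  have h3 : X.card ≠ 2 → rind (Dg r c X) = 0 := fun h => rind_neg (by
    rintro ⟨x, y, a, _, rfl⟩
    exact h (card_pair fun h => a (by rw [h])))
  simp only [phi, rind_and, ← card_pos]
  generalize rind (Same r X) = s1 at *
  generalize rind (Same c Y) = s2 at *
  generalize rind (Dg r c X) = s3 at *
  generalize X.card = m at *
  generalize Y.card = n at *
  by_cases h5 : 5 ≤ m + n
  · rw [rind_pos h5]
    have : ∀ i j : ℕ, i + j < 5 → rind (m = i) * rind (n = j) = 0 := fun i j hij => by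
      rw [← rind_and]; exact rind_neg (by omega)
    have a12 := this 1 2 (by omega)
    have a21 := this 2 1 (by omega)
    have a13 := this 1 3 (by omega)
    have a31 := this 3 1 (by omega)
    have a22 := this 2 2 (by omega)
    linear_combination -(s2 - 1) * a12 - (s1 + s3) * a21 - (s2 - 1) * a13 - s1 * a31
      - (s1 * s2 + s3) * a22
  · have hm : m ≤ 4 := by omega
    have hn : n ≤ 4 := by omega
    interval_cases m <;> interval_cases n <;> simp_all [rind]

theorem grid_ineq (w : A × B → ℝ) (hw : ∀ x, 0 ≤ w x) :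
    gf w (fun Y => rind Y.Nonempty) *
        (gf w (fun X => rind (X.card = 1)) - gf w (fun X => rind (Dg Prod.fst Prod.snd X))) ≤
      gf w (fun X => rind (X.Nonempty ∧ Same Prod.fst X)) *
        gf w (fun X => rind (X.Nonempty ∧ Same Prod.snd X)) := by
  have e : gf w (fun X => rind (X.Nonempty ∧ Same Prod.fst X)) *
        gf w (fun X => rind (X.Nonempty ∧ Same Prod.snd X)) -
        gf w (fun X => rind (X.card = 1)) * gf w (fun Y => rind Y.Nonempty) +
        gf w (fun X => rind (Dg Prod.fst Prod.snd X)) * gf w (fun Y => rind Y.Nonempty) =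
      ∑ X : Finset (A × B), ∑ Y : Finset (A × B), phi Prod.fst Prod.snd X Y *
        ((∏ x ∈ X, w x) * ∏ x ∈ Y, w x) := by
    simp only [gf_mul, ← sum_add_distrib, ← sum_sub_distrib]
    exact sum_congr rfl fun X _ => sum_congr rfl fun Y _ => by simp only [phi]; ring
  have hi := high_nonneg (ι := A × B) Prod.fst Prod.snd (fun x y h1 h2 => Prod.ext h1 h2) w hw
  have h4 := four_part w hw
  have h1 : gf w (fun Y => rind (Y.card = 1) * 1) = ∑ x, w x := by rw [gf_one]; simp
  have hs : 0 ≤ ∑ x, w x := sum_nonneg fun x _ => hw x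
  have h3 : gf w (fun Y => rind (Y.card = 2) * 1) ≤
      gf w (fun Y => rind (Y.card = 2) * rind (Same Prod.fst Y)) +
      gf w (fun Y => rind (Y.card = 2) * rind (Same Prod.snd Y)) +
      gf w (fun Y => rind (Y.card = 2) * rind (Dg Prod.fst Prod.snd Y)) := by
    rw [← gf_add, ← gf_add]
    refine gf_mono w hw fun X => ?_
    by_cases h : X.card = 2
    · obtain ⟨x, y, _, rfl⟩ := card_eq_two.1 h
      rw [rind_pos h, rind_congr (Dg_pair _ _ x y)]
      have n1 := rind_nonneg (Same Prod.fst ({x, y} : Finset (A × B)))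
      have n2 := rind_nonneg (Same Prod.snd ({x, y} : Finset (A × B)))
      have n3 := rind_nonneg (x.1 ≠ y.1 ∧ x.2 ≠ y.2)
      by_cases g1 : x.1 = y.1
      · rw [rind_pos (p := Same Prod.fst _) (by simp [Same, g1])]; linarith
      · by_cases g2 : x.2 = y.2
        · rw [rind_pos (p := Same Prod.snd _) (by simp [Same, g2])]; linarith
        · rw [rind_pos (p := x.1 ≠ y.1 ∧ x.2 ≠ y.2) ⟨g1, g2⟩]; linarith
    · rw [rind_neg h]; simp
  have e2 : ∑ X : Finset (A × B), ∑ Y : Finset (A × B), phi Prod.fst Prod.snd X Y *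
        ((∏ x ∈ X, w x) * ∏ x ∈ Y, w x) =
      ∑ X : Finset (A × B), ∑ Y : Finset (A × B),
        (rind (5 ≤ X.card + Y.card) * phi Prod.fst Prod.snd X Y) *
        ((∏ x ∈ X, w x) * ∏ x ∈ Y, w x) +
      (gf w (fun X => rind (X.card = 1) * 1) * gf w (fun Y => rind (Y.card = 2) * rind (Same Prod.snd Y))
      + gf w (fun X => rind (X.card = 2) * rind (Same Prod.fst X)) * gf w (fun Y => rind (Y.card = 1) * 1)
      - gf w (fun X => rind (X.card = 1) * 1) * gf w (fun Y => rind (Y.card = 2) * 1)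
      + gf w (fun X => rind (X.card = 2) * rind (Dg Prod.fst Prod.snd X)) *
          gf w (fun Y => rind (Y.card = 1) * 1)
      + gf w (fun X => rind (X.card = 1) * 1) * gf w (fun Y => rind (Y.card = 3) * rind (Same Prod.snd Y))
      + gf w (fun X => rind (X.card = 3) * rind (Same Prod.fst X)) * gf w (fun Y => rind (Y.card = 1) * 1)
      - gf w (fun X => rind (X.card = 1) * 1) * gf w (fun Y => rind (Y.card = 3) * 1)
      + gf w (fun X => rind (X.card = 2) * rind (Same Prod.fst X)) *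
          gf w (fun Y => rind (Y.card = 2) * rind (Same Prod.snd Y))
      + gf w (fun X => rind (X.card = 2) * rind (Dg Prod.fst Prod.snd X)) *
          gf w (fun Y => rind (Y.card = 2) * 1)) := by
    simp only [gf_mul, ← sum_add_distrib, ← sum_sub_distrib]
    refine sum_congr rfl fun X _ => sum_congr rfl fun Y _ => ?_
    have := low_point (ι := A × B) Prod.fst Prod.snd X Y
    linear_combination ((∏ x ∈ X, w x) * ∏ x ∈ Y, w x) * this
  rw [e2, h1] at e
  have := mul_le_mul_of_nonneg_left h3 hs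
  nlinarith

end

end Pool.Agent.Lib.MP_c72610_co
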