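import Pool.Agent.Lib.MP_c72610_co.Graphic

/-!
A verified deletion-contraction count of weighted connected spanning subgraphs.
-/

set_option autoImplicit false

open Finset

namespace Pool.Agent.Lib.MP_c72610_co.Gr

/-- Merge the classes of `u` and `v`. -/
def merge (lab : List ℕ) (u v : ℕ) : List ℕ :=
  lab.map fun c => if c = lab.getD u 0 then lab.getD v 0 else c

/-- Strict evaluation of a number. -/
def forceNat (n : ℕ) (k : ℕ → ℕ) : ℕ :=
  match n with
  | 0 => k 0
  | m + 1 => k (m + 1)

/-- Strict evaluation of a list. -/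
def forceList : List ℕ → (List ℕ → ℕ) → ℕ
  | [], k => k []
  | x :: xs, k => forceNat x fun y => forceList xs fun ys => k (y :: ys)

theorem forceList_eq (l : List ℕ) (k : List ℕ → ℕ) : forceList l k = k l := by
  induction l generalizing k with
  | nil => rfl
  | cons x xs ih => cases x <;> simp only [forceList, forceNat, ih]

/-- Deletion-contraction; an edge is (end, end, weight if present, weight if absent). -/
def cnt (n : ℕ) : List (ℕ × ℕ × ℕ × ℕ) → List ℕ → ℕ
  | [], lab => if (List.range n).all (fun i => lab.getD i 0 == lab.getD 0 0) then 1 else 0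
  | (u, v, a, b) :: l, lab =>
    if lab.getD u 0 = lab.getD v 0 then (a + b) * cnt n l lab
    else a * forceList (merge lab u v) (fun lab' => cnt n l lab') + if b = 0 then 0 else b * cnt n l lab

variable {ι : Type} [DecidableEq ι] {r : ℕ}

/-- The potential is constant on the classes of the labelling. -/
def Comp (lab : List ℕ) (φ : Fin (r + 1) → ℝ) : Prop :=
  ∀ x y : Fin (r + 1), lab.getD x 0 = lab.getD y 0 → φ x = φ y

/-- Connectivity after the identifications given by the labelling. -/
def ConnL (s t : ι → Fin (r + 1)) (lab : List ℕ) (A : Finset ι) : Prop :=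
  ∀ φ : Fin (r + 1) → ℝ, Comp lab φ → (∀ g ∈ A, φ (s g) = φ (t g)) → ∀ x, φ x = φ 0

theorem getD_merge {lab : List ℕ} (h : lab.length = r + 1) (u v : ℕ) (x : Fin (r + 1)) :
    (merge lab u v).getD x 0 =
      if lab.getD x 0 = lab.getD u 0 then lab.getD v 0 else lab.getD x 0 := by
  have hx : (x : ℕ) < lab.length := by rw [h]; exact x.2
  rw [List.getD_eq_getElem _ _ (by simpa [merge] using hx), List.getD_eq_getElem _ _ hx]
  simp only [merge, List.getElem_map]

theorem comp_merge {lab : List ℕ} (h : lab.length = r + 1) (u v : Fin (r + 1))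
    (φ : Fin (r + 1) → ℝ) : Comp (merge lab u v) φ ↔ Comp lab φ ∧ φ u = φ v := by
  simp only [Comp, getD_merge h]
  constructor
  · intro H
    exact ⟨fun x y hxy => H x y (by rw [hxy]), H u v (by simp)⟩
  · rintro ⟨H, huv⟩ x y hxy
    split_ifs at hxy with h1 h2 h2
    · exact H x y (h1.trans h2.symm)
    · rw [H x u h1, huv, H v y hxy]
    · rw [H y u h2, huv, H x v hxy]
    · exact H x y hxy

theorem connL_insert (s t : ι → Fin (r + 1)) {lab : List ℕ} (h : lab.length = r + 1) (g : ι)
    (A : Finset ι) : ConnL s t lab (insert g A) ↔ ConnL s t (merge lab (s g) (t g)) A := by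
  simp only [ConnL, comp_merge h, forall_mem_insert, and_imp]

open Classical in
theorem cnt_eq (s t : ι → Fin (r + 1)) (a b : ι → ℕ) (l : List ι) (hl : l.Nodup) (lab : List ℕ)
    (h : lab.length = r + 1) :
    (cnt (r + 1) (l.map fun g => ((s g : ℕ), (t g : ℕ), a g, b g)) lab : ℝ) =
      ∑ A ∈ l.toFinset.powerset, if ConnL s t lab A then
        ∏ g ∈ l.toFinset, (if g ∈ A then (a g : ℝ) else b g) else 0 := by
  induction l generalizing lab with
  | nil =>
    have : ConnL s t lab ∅ ↔
        (List.range (r + 1)).all (fun i => lab.getD i 0 == lab.getD 0 0) = true := by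
      simp only [List.all_eq_true, List.mem_range, beq_iff_eq]
      constructor
      · intro H i hi
        have := H (fun x => (lab.getD x 0 : ℝ)) (fun x y hxy => by simp only [hxy])
          (fun g hg => absurd hg (notMem_empty g)) ⟨i, hi⟩
        exact_mod_cast this
      · intro H φ hφ _ x
        exact hφ x 0 (H x x.2)
    simp only [List.map_nil, cnt, List.toFinset_nil, powerset_empty, sum_singleton, prod_empty,
      this]
    split_ifs <;> simp
  | cons g l ih =>
    obtain ⟨hg, hl⟩ := List.nodup_cons.1 hl
    have hg' : g ∉ l.toFinset := by simpa using hg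
    have e1 : ∑ A ∈ l.toFinset.powerset, (if ConnL s t lab A then
        ∏ x ∈ insert g l.toFinset, (if x ∈ A then (a x : ℝ) else b x) else 0) =
        b g * cnt (r + 1) (l.map fun g => ((s g : ℕ), (t g : ℕ), a g, b g)) lab := by
      rw [ih hl lab h, mul_sum]
      refine sum_congr rfl fun A hA => ?_
      rw [prod_insert hg', if_neg fun hgA => hg' (mem_powerset.1 hA hgA), mul_ite, mul_zero]
    have e2 : ∀ lab' : List ℕ, lab'.length = r + 1 →
        (∀ A, ConnL s t lab (insert g A) ↔ ConnL s t lab' A) →
        ∑ A ∈ l.toFinset.powerset, (if ConnL s t lab (insert g A) then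
        ∏ x ∈ insert g l.toFinset, (if x ∈ insert g A then (a x : ℝ) else b x) else 0) =
        a g * cnt (r + 1) (l.map fun g => ((s g : ℕ), (t g : ℕ), a g, b g)) lab' := by
      intro lab' h' H
      rw [ih hl lab' h', mul_sum]
      refine sum_congr rfl fun A _ => ?_
      rw [prod_insert hg', if_pos (mem_insert_self _ _), mul_ite, mul_zero]
      refine if_congr (H A) (congrArg _ (prod_congr rfl fun x hx => ?_)) rfl
      have : x ≠ g := fun e => hg' (e ▸ hx)
      simp only [mem_insert, this, false_or]
    rw [List.toFinset_cons, sum_powerset_insert hg', e1, List.map_cons, cnt, forceList_eq]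
    split_ifs with h1 h2
    · rw [e2 lab h fun A => ?_]
      · push_cast; ring
      · simp only [ConnL, forall_mem_insert, and_imp]
        exact ⟨fun H φ hφ => H φ hφ (hφ _ _ h1), fun H φ hφ _ => H φ hφ⟩
    · rw [e2 _ (by simpa [merge] using h) (connL_insert s t h g), h2]
      push_cast; ring
    · rw [e2 _ (by simpa [merge] using h) (connL_insert s t h g)]
      push_cast; ring

open Classical in
theorem cnt_univ {m : ℕ} (s t : Fin m → Fin (r + 1)) (a : Fin m → ℕ) {T : ℕ} (hT : T ≠ 0)
    (U : Finset (Fin m)) :
    (cnt (r + 1) ((List.finRange m).map fun g =>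
      ((s g : ℕ), (t g : ℕ), a g, if g ∈ U then 0 else T)) (List.range (r + 1)) : ℝ) =
      T ^ m * ∑ A : Finset (Fin m), if Conn s t A ∧ U ⊆ A then ∏ g ∈ A, ((a g : ℝ) / T) else 0 := by
  have hT' : (T : ℝ) ≠ 0 := by exact_mod_cast hT
  rw [cnt_eq s t a _ _ (List.nodup_finRange m) _ List.length_range, List.toFinset_finRange,
    powerset_univ, mul_sum]
  refine sum_congr rfl fun A _ => ?_
  have h1 : ConnL s t (List.range (r + 1)) A ↔ Conn s t A := by
    have : ∀ φ : Fin (r + 1) → ℝ, Comp (List.range (r + 1)) φ := by
      intro φ x y hxy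
      rw [List.getD_eq_getElem _ _ (by simpa using x.2),
        List.getD_eq_getElem _ _ (by simpa using y.2), List.getElem_range,
        List.getElem_range] at hxy
      rw [Fin.ext hxy]
    simp only [ConnL, Conn, this, forall_const, mem_coe]
  by_cases hc : Conn s t A
  · rw [if_pos (h1.2 hc)]
    by_cases hU : U ⊆ A
    · rw [if_pos ⟨hc, hU⟩, ← prod_mul_prod_compl A,
        prod_congr rfl fun g hg => if_pos hg, prod_congr (s₁ := Aᶜ) rfl
          (g := fun _ => (T : ℝ)) fun g hg => by
            rw [if_neg (mem_compl.1 hg), if_neg fun h => mem_compl.1 hg (hU h)],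
        prod_div_distrib, prod_const, prod_const]
      have : m = A.card + Aᶜ.card := by rw [card_add_card_compl, Fintype.card_fin]
      rw [show (T : ℝ) ^ m = T ^ A.card * T ^ Aᶜ.card by rw [← pow_add, ← this]]
      field_simp
    · obtain ⟨g, hg, hg'⟩ := not_subset.1 hU
      rw [if_neg fun h => hU h.2, mul_zero]
      exact prod_eq_zero (mem_univ g) (by simp [hg, hg'])
  · rw [if_neg fun h => hc (h1.1 h), if_neg fun h => hc h.1, mul_zero]

end Pool.Agent.Lib.MP_c72610_co.Gr
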