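import Pool.Agent.Lib.MP_c72610_co.FrameMatroid

set_option autoImplicit false

namespace Pool.Agent.Lib.MP_c72610_co.Poly

open Classical Set SimpleGraph

variable {V : Type*}

/-- number of connected components of the spanning subgraph with edge set A -/
noncomputable def kc (A : Set (Sym2 V)) : ℕ := Nat.card (fromEdgeSet A).ConnectedComponent

/-- functions constant on components -/
def Wsp (A : Set (Sym2 V)) : Submodule ℝ (V → ℝ) where
  carrier := {φ | ∀ i j, (fromEdgeSet A).Adj i j → φ i = φ j}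
  add_mem' ha hb i j h := by simp [ha i j h, hb i j h]
  zero_mem' _ _ _ := rfl
  smul_mem' c _ hx i j h := by simp [hx i j h]

lemma Wsp_reach {A : Set (Sym2 V)} {φ : V → ℝ} (h : φ ∈ Wsp A) {i j : V}
    (hr : (fromEdgeSet A).Reachable i j) : φ i = φ j := by
  obtain ⟨w⟩ := hr
  induction w with
  | nil => rfl
  | cons hA _ h' => exact (h _ _ hA).trans h'

lemma fromEdgeSet_insert' (A : Set (Sym2 V)) (u v : V) :
    fromEdgeSet (insert s(u, v) A) = fromEdgeSet A ⊔ edge u v := by
  rw [insert_eq, union_comm, fromEdgeSet_union, edge]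

lemma Wsp_insert (A : Set (Sym2 V)) (u v : V) (φ : V → ℝ) :
    φ ∈ Wsp (insert s(u, v) A) ↔ φ ∈ Wsp A ∧ φ u = φ v := by
  constructor
  · intro h
    refine ⟨fun i j hij => h i j (fromEdgeSet_mono (subset_insert _ _) hij), ?_⟩
    by_cases huv : u = v
    · rw [huv]
    · exact h u v ⟨mem_insert _ _, huv⟩
  · rintro ⟨h1, h2⟩ i j ⟨hij | hij, hne⟩
    · rcases Sym2.eq_iff.1 hij with ⟨rfl, rfl⟩ | ⟨rfl, rfl⟩
      exacts [h2, h2.symm]
    · exact h1 i j ⟨hij, hne⟩

variable [Fintype V]

lemma kc_eq (A : Set (Sym2 V)) : kc A = Module.finrank ℝ (Wsp A) := by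
  have : (Matrix.toLin' (lapMatrix ℝ (fromEdgeSet A))).ker = Wsp A := by
    ext φ
    rw [LinearMap.mem_ker, Matrix.toLin'_apply, lapMatrix_mulVec_eq_zero_iff_forall_adj]
    rfl
  rw [kc, Nat.card_eq_fintype_card, card_connectedComponent_eq_finrank_ker_toLin'_lapMatrix, this]

lemma kc_le {I J : Set (Sym2 V)} (h : ∀ u v, s(u, v) ∈ J → (fromEdgeSet I).Reachable u v ∨ u = v) :
    kc I ≤ kc J := by
  rw [kc_eq, kc_eq]
  exact Submodule.finrank_mono fun φ hφ i j hij =>
    (h i j hij.1).elim (Wsp_reach hφ) fun h => by rw [h]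

lemma kc_anti {I J : Set (Sym2 V)} (h : J ⊆ I) : kc I ≤ kc J :=
  kc_le fun u v huv => by
    by_cases h' : u = v
    · exact Or.inr h'
    · exact Or.inl (Adj.reachable ⟨h huv, h'⟩)

lemma kc_insert_reach {A : Set (Sym2 V)} {u v : V} (h : (fromEdgeSet A).Reachable u v) :
    kc (insert s(u, v) A) = kc A := by
  have : Wsp (insert s(u, v) A) = Wsp A := by
    ext φ
    rw [Wsp_insert]
    exact and_iff_left_of_imp fun hφ => Wsp_reach hφ h
  rw [kc_eq, kc_eq, this]

lemma kc_insert_not {A : Set (Sym2 V)} {u v : V} (h : ¬ (fromEdgeSet A).Reachable u v) :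
    kc (insert s(u, v) A) + 1 = kc A := by
  rw [kc_eq, kc_eq]
  set l : (V → ℝ) →ₗ[ℝ] ℝ := LinearMap.proj (R := ℝ) (φ := fun _ => ℝ) u -
    LinearMap.proj (R := ℝ) (φ := fun _ => ℝ) v with hl
  have h1 := LinearMap.finrank_range_add_finrank_ker (l.domRestrict (Wsp A))
  have h2 : LinearMap.range (l.domRestrict (Wsp A)) = ⊤ := by
    rw [eq_top_iff]
    rintro c -
    refine ⟨⟨fun x => if (fromEdgeSet A).Reachable u x then c else 0, fun i j hij => ?_⟩, ?_⟩
    · have : (fromEdgeSet A).Reachable u i ↔ (fromEdgeSet A).Reachable u j :=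
        ⟨fun h => h.trans hij.reachable, fun h => h.trans hij.symm.reachable⟩
      simp only [this]
    · simp [hl, h]
  have h3 : (LinearMap.ker (l.domRestrict (Wsp A))).map (Wsp A).subtype = Wsp (insert s(u, v) A) := by
    ext φ
    rw [Wsp_insert]
    simp [hl, sub_eq_zero, and_comm]
  rw [h2, finrank_top, Module.finrank_self, ← Submodule.finrank_map_subtype_eq, h3] at h1
  omega

lemma kc_empty : kc (∅ : Set (Sym2 V)) = Fintype.card V := by
  have : Wsp (∅ : Set (Sym2 V)) = ⊤ := by
    rw [eq_top_iff]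
    rintro φ - i j hij
    simp at hij
  rw [kc_eq, this, finrank_top, Module.finrank_fintype_fun_eq_card]

lemma acyc_card (A : Set (Sym2 V)) : A ⊆ (⊤ : SimpleGraph V).edgeSet → (fromEdgeSet A).IsAcyclic →
    A.ncard + kc A = Fintype.card V := by
  induction A, A.toFinite using Set.Finite.induction_on with
  | empty => intro _ _; simp [kc_empty]
  | @insert g A hg hA ih =>
    induction g using Sym2.ind with
    | h u v =>
      intro h1 h2
      rw [fromEdgeSet_insert', isAcyclic_sup_fromEdgeSet_iff] at h2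
      have huv : u ≠ v := h1 (mem_insert _ _)
      have hr : ¬ (fromEdgeSet A).Reachable u v := fun h => (h2.2 h).elim huv fun h => hg h.1
      have := ih ((subset_insert _ _).trans h1) h2.1
      rw [ncard_insert_of_notMem hg, ← this, ← kc_insert_not hr]
      ring

/-- the cycle matroid of the complete graph -/
noncomputable def cyc (V : Type*) [Fintype V] : Matroid (Sym2 V) :=
  (IndepMatroid.ofFinite (E := (⊤ : SimpleGraph V).edgeSet) (Set.toFinite _)
    (fun A => A ⊆ (⊤ : SimpleGraph V).edgeSet ∧ (fromEdgeSet A).IsAcyclic)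
    ⟨empty_subset _, by simp⟩
    (fun _ _ h1 h2 => ⟨h2.trans h1.1, h1.2.anti (fromEdgeSet_mono h2)⟩)
    (fun I J h1 h2 h3 => by
      have a1 := acyc_card I h1.1 h1.2
      have a2 := acyc_card J h2.1 h2.2
      by_contra hc
      have : kc I ≤ kc J := kc_le fun u v huv => Or.inl (by
        by_contra hr
        refine hc ⟨s(u, v), huv, fun h => hr (Adj.reachable ⟨h, h2.1 huv⟩),
          insert_subset (h2.1 huv) h1.1, ?_⟩
        rw [fromEdgeSet_insert']
        exact h1.2.sup_edge_of_not_reachable hr)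
      omega)
    (fun _ h => h.1)).matroid

lemma cyc_E : (cyc V).E = (⊤ : SimpleGraph V).edgeSet := rfl

lemma cyc_indep (A : Set (Sym2 V)) :
    (cyc V).Indep A ↔ A ⊆ (⊤ : SimpleGraph V).edgeSet ∧ (fromEdgeSet A).IsAcyclic := by
  simp [cyc]

lemma cyc_rk {A : Set (Sym2 V)} (hA : A ⊆ (⊤ : SimpleGraph V).edgeSet) :
    rk (cyc V) A + kc A = Fintype.card V := by
  obtain ⟨I, hI⟩ := (cyc V).exists_isBasis A hA
  have h1 := (cyc_indep I).1 hI.indep
  have h2 : rk (cyc V) A = I.ncard := by
    rw [← Nat.cast_inj (R := ℕ∞), rk_coe, hI.eRk_eq_encard, (Set.toFinite I).cast_ncard_eq]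
  have h3 : kc I ≤ kc A := kc_le fun u v huv => Or.inl (by
    by_contra hr
    refine hr (Adj.reachable ⟨hI.mem_of_insert_indep huv ((cyc_indep _).2
      ⟨insert_subset (hA huv) h1.1, ?_⟩), hA huv⟩)
    rw [fromEdgeSet_insert']
    exact h1.2.sup_edge_of_not_reachable hr)
  have h4 := kc_anti hI.subset
  have h5 := acyc_card I h1.1 h1.2
  omega

lemma cyc_closure {A : Set (Sym2 V)} (hA : A ⊆ (⊤ : SimpleGraph V).edgeSet) {u v : V} (huv : u ≠ v)
    (h : (fromEdgeSet A).Reachable u v) : s(u, v) ∈ (cyc V).closure A := by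
  by_contra hc
  have h1 := rk_insert_eq (cyc V) (e := s(u, v)) huv hc
  have h2 := cyc_rk hA
  have h3 := cyc_rk (insert_subset (a := s(u, v)) huv hA)
  rw [kc_insert_reach h] at h3
  omega

omit [Fintype V] in
lemma kc_eq_one [Nonempty V] (A : Set (Sym2 V)) : kc A = 1 ↔ (fromEdgeSet A).Connected := by
  rw [kc, Nat.card_eq_one_iff_unique]
  constructor
  · rintro ⟨h, -⟩
    exact ⟨fun u v => ConnectedComponent.exact (Subsingleton.elim _ _)⟩
  · intro h
    exact ⟨h.preconnected.subsingleton_connectedComponent, inferInstance⟩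

/-- the star at a -/
def star (a : V) : Set (Sym2 V) := (fun u => s(a, u)) '' {u | u ≠ a}

omit [Fintype V] in
lemma star_sub (a : V) : star a ⊆ (⊤ : SimpleGraph V).edgeSet := by
  rintro _ ⟨u, hu, rfl⟩
  exact Ne.symm hu

lemma star_frame (a : V) {g : Sym2 V} (hg : g ∈ (⊤ : SimpleGraph V).edgeSet) :
    ∃ x ∈ star a, ∃ y ∈ star a, g ∈ (cyc V).closure {x, y} := by
  induction g using Sym2.ind with
  | h u v =>
    have huv : u ≠ v := hg
    have k : ∀ w, w ≠ a → s(a, w) ∈ star a := fun w hw => ⟨w, hw, rfl⟩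
    by_cases hu : u = a
    · subst hu
      exact ⟨_, k v huv.symm, _, k v huv.symm, (cyc V).mem_closure_of_mem' (by simp) hg⟩
    by_cases hv : v = a
    · subst hv
      exact ⟨_, k u huv, _, k u huv, (cyc V).mem_closure_of_mem' (by simp [Sym2.eq_swap]) hg⟩
    refine ⟨_, k u hu, _, k v hv, cyc_closure ?_ huv ?_⟩
    · exact insert_subset (star_sub a (k u hu)) (singleton_subset_iff.2 (star_sub a (k v hv)))
    · have h1 : (fromEdgeSet ({s(a, u), s(a, v)} : Set (Sym2 V))).Adj a u :=
        ⟨by simp, Ne.symm hu⟩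
      have h2 : (fromEdgeSet ({s(a, u), s(a, v)} : Set (Sym2 V))).Adj a v :=
        ⟨by simp, Ne.symm hv⟩
      exact h1.symm.reachable.trans h2.reachable

lemma star_base (a : V) : (cyc V).IsBase (star a) := by
  have : Nonempty V := ⟨a⟩
  have r : ∀ u, (fromEdgeSet (star a)).Reachable a u := fun u => by
    by_cases hu : u = a
    · rw [hu]
    · exact Adj.reachable ⟨⟨u, hu, rfl⟩, Ne.symm hu⟩
  have h1 : kc (star a) = 1 := (kc_eq_one _).2 ⟨fun u v => (r u).symm.trans (r v)⟩
  have h2 : (star a).ncard + 1 = Fintype.card V := by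
    rw [star, InjOn.ncard_image fun u _ v _ h => Sym2.congr_right.1 h,
      ← ncard_insert_of_notMem (a := a) (by simp), ← Nat.card_eq_fintype_card, ← ncard_univ]
    congr 1
    ext u
    by_cases hu : u = a <;> simp [hu]
  have h3 := cyc_rk (star_sub a)
  refine ((indep_iff_rk _ _).2 (by omega)).isBase_of_ground_subset_closure fun g hg => ?_
  obtain ⟨x, hx, y, hy, h⟩ := star_frame a hg
  exact (cyc V).closure_subset_closure (insert_subset hx (singleton_subset_iff.2 hy)) h

end Pool.Agent.Lib.MP_c72610_co.Poly
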