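import Pool.Agent.Lib.MP_c72610_co.Tree

set_option autoImplicit false

namespace Pool.Agent.Lib.MP_c72610_co

open Finset Classical

variable {α : Type} [Fintype α] [DecidableEq α]

/-- the weighted negative correlation inequality for the family q -/
def NC (z : α → ℝ) (e f : α) (q : Finset α → Prop) : Prop :=
  gs z univ (fun X => rind (q X ∧ e ∈ X ∧ f ∈ X)) * gs z univ (fun X => rind (q X)) ≤
    gs z univ (fun X => rind (q X ∧ e ∈ X)) * gs z univ (fun X => rind (q X ∧ f ∈ X))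

lemma down_nc (lo hi : Finset α → ℕ) (L : Finset (Finset α))
    (hL : ∀ A ∈ L, ∀ A' ∈ L, A ⊆ A' ∨ A' ⊆ A ∨ Disjoint A A') (B0 : Finset α)
    (hB0 : ∀ A ∈ L, lo A ≤ (B0 ∩ A).card ∧ (B0 ∩ A).card ≤ hi A) (P : Finset α)
    (z : α → ℝ) (hz : ∀ x, 0 ≤ z x) {e f : α} (hef : e ≠ f) :
    NC z e f fun X =>
      (∃ B, X ⊆ B ∧ ∀ A ∈ L, lo A ≤ (B ∩ A).card ∧ (B ∩ A).card ≤ hi A) ∧ P ⊆ X := by
  obtain ⟨T, h1, h2, h3⟩ := Tr.exists_tree lo hi L univ (fun _ _ => subset_univ _) hL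
  have hok : ∀ X, Tr.ok T X ↔
      ∃ B, X ⊆ B ∧ ∀ A ∈ L, lo A ≤ (B ∩ A).card ∧ (B ∩ A).card ≤ hi A := by
    intro X
    refine ⟨fun h => ?_, fun ⟨B, hB, h⟩ => (Tr.ok_of_sat T h1 ((h3 B).2 h) hB).1⟩
    obtain ⟨a1, a2⟩ := Tr.sat_of_ok T h1 ((h3 B0).2 hB0) h
    obtain ⟨B, -, c2, c3, -⟩ := a2 _ le_rfl a1
    exact ⟨B, fun x hx => c2 x (by simp [h2]) hx, (h3 B).1 c3⟩
  have H : HH fun _ => (1 : ℝ) :=
    ⟨fun _ => zero_le_one, fun _ _ _ => le_rfl, fun _ _ _ _ => le_rfl⟩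
  have := Tr.ex_corr z hz P hef T h1 H
  simp only [Tr.ex_eq z _ T h1, h2, mul_one, hok, mem_univ, true_imp_iff, forall_mem_insert]
    at this
  unfold NC
  simp only [and_assoc, and_comm (a := P ⊆ _)]
  exact this

lemma gs_compl (z : α → ℝ) (hz : ∀ x, 0 < z x) (g : Finset α → ℝ) :
    gs z univ (fun X => g Xᶜ) = (∏ x, z x) * gs (fun x => (z x)⁻¹) univ g := by
  unfold gs
  rw [mul_sum, powerset_univ]
  refine Fintype.sum_equiv ⟨compl, compl, compl_compl, compl_compl⟩ _ _ fun X => ?_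
  have h : (∏ x ∈ Xᶜ, z x) ≠ 0 := (prod_pos fun x _ => hz x).ne'
  simp only [Equiv.coe_fn_mk]
  rw [← prod_mul_prod_compl X z, prod_inv_distrib]
  field_simp

lemma NC.compl {z : α → ℝ} (hz : ∀ x, 0 < z x) {e f : α} {q : Finset α → Prop}
    (h : NC (fun x => (z x)⁻¹) e f q) : NC z e f fun X => q Xᶜ := by
  unfold NC at h ⊢
  have k : ∀ g g' : Finset α → ℝ, (∀ X, g X = g' Xᶜ) →
      gs z univ g = (∏ x, z x) * gs (fun x => (z x)⁻¹) univ g' := fun g g' hg => by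
    rw [← gs_compl z hz]; exact gs_congr z _ fun X _ => hg X
  rw [k _ (fun Y => rind (q Y) - rind (q Y ∧ e ∈ Y) - rind (q Y ∧ f ∈ Y) +
      rind (q Y ∧ e ∈ Y ∧ f ∈ Y)) (fun X => by
      by_cases h1 : q Xᶜ <;> by_cases h2 : e ∈ X <;> by_cases h3 : f ∈ X <;> simp [rind, *]),
    k _ (fun Y => rind (q Y)) (fun X => rfl),
    k _ (fun Y => rind (q Y) - rind (q Y ∧ e ∈ Y)) (fun X => by
      by_cases h1 : q Xᶜ <;> by_cases h2 : e ∈ X <;> simp [rind, *]),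
    k _ (fun Y => rind (q Y) - rind (q Y ∧ f ∈ Y)) (fun X => by
      by_cases h1 : q Xᶜ <;> by_cases h2 : f ∈ X <;> simp [rind, *])]
  simp only [gs_add, gs_sub]
  nlinarith [mul_le_mul_of_nonneg_left h (mul_self_nonneg (∏ x, z x))]

lemma up_nc (lo hi : Finset α → ℕ) (L : Finset (Finset α))
    (hL : ∀ A ∈ L, ∀ A' ∈ L, A ⊆ A' ∨ A' ⊆ A ∨ Disjoint A A') (B0 : Finset α)
    (hB0 : ∀ A ∈ L, lo A ≤ (B0 ∩ A).card ∧ (B0 ∩ A).card ≤ hi A) (E : Finset α)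
    (z : α → ℝ) (hz : ∀ x, 0 < z x) {e f : α} (hef : e ≠ f) :
    NC z e f fun X =>
      (∃ B, B ⊆ X ∧ ∀ A ∈ L, lo A ≤ (B ∩ A).card ∧ (B ∩ A).card ≤ hi A) ∧ X ⊆ E := by
  have c : ∀ B A : Finset α, (Bᶜ ∩ A).card + (B ∩ A).card = A.card := fun B A => by
    rw [inter_comm, ← sdiff_eq_inter_compl, inter_comm, card_sdiff_add_card_inter]
  have d : ∀ B : Finset α, (∀ A ∈ L, lo A ≤ (B ∩ A).card ∧ (B ∩ A).card ≤ hi A) ↔
      ∀ A ∈ L, A.card - hi A ≤ (Bᶜ ∩ A).card ∧ (Bᶜ ∩ A).card ≤ A.card - lo A := fun B => by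
    refine forall₂_congr fun A hA => ?_
    have := c B A
    have := c B0 A
    have := hB0 A hA
    omega
  have := (down_nc (fun A => A.card - hi A) (fun A => A.card - lo A) L hL B0ᶜ ((d B0).1 hB0) Eᶜ
    (fun x => (z x)⁻¹) (fun x => (inv_pos.2 (hz x)).le) hef).compl hz
  refine (congrArg (NC z e f) (funext fun X => propext ?_)).mp this
  rw [compl_subset_compl]
  refine and_congr_left fun _ => ⟨fun ⟨B, h1, h2⟩ => ⟨Bᶜ, ?_, (d _).2 (by rwa [compl_compl])⟩,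
    fun ⟨B, h1, h2⟩ => ⟨Bᶜ, compl_subset_compl.2 h1, (d B).1 h2⟩⟩
  rwa [← compl_subset_compl, compl_compl]

omit [DecidableEq α] in
lemma NC.out {z : α → ℝ} {e f : α} {q q' : Finset α → Prop} (h : NC z e f q)
    (hq : ∀ X, q' X ↔ q X) [DecidablePred q'] [∀ A, Decidable (q' A ∧ e ∈ A ∧ f ∈ A)]
    [∀ A, Decidable (q' A ∧ e ∈ A)] [∀ A, Decidable (q' A ∧ f ∈ A)] :
    (∑ A : Finset α, if q' A ∧ e ∈ A ∧ f ∈ A then ∏ x ∈ A, z x else 0) *
        (∑ A : Finset α, if q' A then ∏ x ∈ A, z x else 0) ≤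
      (∑ A : Finset α, if q' A ∧ e ∈ A then ∏ x ∈ A, z x else 0) *
        (∑ A : Finset α, if q' A ∧ f ∈ A then ∏ x ∈ A, z x else 0) := by
  have k : ∀ (p : Finset α → Prop) [DecidablePred p],
      (∑ A : Finset α, if p A then ∏ x ∈ A, z x else 0) = gs z univ fun X => rind (p X) := by
    intro p _
    rw [gs, powerset_univ]
    exact sum_congr rfl fun A _ => by by_cases h : p A <;> simp [rind, h]
  rw [k, k, k, k]
  simp only [hq]
  exact h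

end Pool.Agent.Lib.MP_c72610_co
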