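import Pool.Agent.Lib.MP_c72610_co.Count

/-!
A weighted graph on 8 vertices with 17 edges whose connected spanning subgraphs are positively
correlated for the edges `0` and `1`.
-/

set_option autoImplicit false

open Finset

namespace Pool.Agent.Lib.MP_c72610_co.Gr

/-- First end of each edge. -/
def exS : Fin 17 → Fin 8 := ![0, 6, 0, 0, 0, 1, 1, 1, 2, 2, 2, 6, 6, 6, 7, 7, 7]

/-- Second end of each edge. -/
def exT : Fin 17 → Fin 8 := ![1, 7, 2, 6, 7, 3, 4, 5, 3, 4, 5, 3, 4, 5, 3, 4, 5]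

/-- Weights in units of `1 / 10000`. -/
def exA : Fin 17 → ℕ :=
  ![100, 100, 20, 1, 1, 10, 10, 10, 100, 100, 100, 100, 100, 100, 100, 100, 100]

/-- The four weighted counts. -/
def exC (U : Finset (Fin 17)) : ℕ :=
  cnt 8 ((List.finRange 17).map fun g =>
    ((exS g : ℕ), (exT g : ℕ), exA g, if g ∈ U then 0 else 10000)) (List.range 8)

/-- The edges other than `0` and `1`. -/
def exL : List (ℕ × ℕ × ℕ × ℕ) :=
  [(0, 2, 20, 10000), (0, 6, 1, 10000), (0, 7, 1, 10000), (1, 3, 10, 10000), (1, 4, 10, 10000),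
   (1, 5, 10, 10000), (2, 3, 100, 10000), (2, 4, 100, 10000), (2, 5, 100, 10000), (6, 3, 100,
   10000), (6, 4, 100, 10000), (6, 5, 100, 10000), (7, 3, 100, 10000), (7, 4, 100, 10000), (7, 5,
   100, 10000)]

theorem exC_eq (U : Finset (Fin 17)) (b₀ b₁ : ℕ) (h : ((List.finRange 17).map fun g =>
    ((exS g : ℕ), (exT g : ℕ), exA g, if g ∈ U then 0 else 10000)) =
    (0, 1, 100, b₀) :: (6, 7, 100, b₁) :: exL) :
    exC U = cnt 8 ((0, 1, 100, b₀) :: (6, 7, 100, b₁) :: exL) [0, 1, 2, 3, 4, 5, 6, 7] := by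
  rw [exC, h]; rfl

theorem ex_ineq : exC {0} * exC {1} < exC {0, 1} * exC ∅ := by
  rw [exC_eq {0} 0 10000 (by decide), exC_eq {1} 10000 0 (by decide),
    exC_eq {0, 1} 0 0 (by decide), exC_eq ∅ 10000 10000 (by decide)]
  decide +kernel

theorem ex_conn : Conn exS exT Set.univ := by
  intro φ h
  have h0 := h 0 trivial
  have h2 := h 2 trivial
  have h3 := h 3 trivial
  have h4 := h 4 trivial
  have h5 := h 5 trivial
  have h6 := h 6 trivial
  have h7 := h 7 trivial
  change φ 0 = φ 1 at h0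
  change φ 0 = φ 2 at h2
  change φ 0 = φ 6 at h3
  change φ 0 = φ 7 at h4
  change φ 1 = φ 3 at h5
  change φ 1 = φ 4 at h6
  change φ 1 = φ 5 at h7
  intro x
  fin_cases x
  exacts [rfl, h0.symm, h2.symm, (h0.trans h5).symm, (h0.trans h6).symm, (h0.trans h7).symm,
    h3.symm, h4.symm]

open Classical in
theorem ex_pos :
    (∑ A : Finset (Fin 17), if Conn exS exT A ∧ 0 ∈ A then ∏ g ∈ A, ((exA g : ℝ) / 10000) else 0) *
    (∑ A : Finset (Fin 17), if Conn exS exT A ∧ 1 ∈ A then ∏ g ∈ A, ((exA g : ℝ) / 10000) else 0) <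
    (∑ A : Finset (Fin 17), if Conn exS exT A ∧ 0 ∈ A ∧ 1 ∈ A then
      ∏ g ∈ A, ((exA g : ℝ) / 10000) else 0) *
    (∑ A : Finset (Fin 17), if Conn exS exT A then ∏ g ∈ A, ((exA g : ℝ) / 10000) else 0) := by
  have h : (exC {0} : ℝ) * exC {1} < exC {0, 1} * exC ∅ := by exact_mod_cast ex_ineq
  have e := fun U => cnt_univ exS exT exA (T := 10000) (by norm_num) U
  unfold exC at h
  rw [e, e, e, e] at h
  simp only [singleton_subset_iff, insert_subset_iff, empty_subset, and_true, Nat.cast_ofNat] at h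
  rw [mul_mul_mul_comm, mul_mul_mul_comm _ _ ((10000 : ℝ) ^ 17)] at h
  convert lt_of_mul_lt_mul_left h (by positivity)

theorem ex_weight_pos (g : Fin 17) : (0 : ℝ) < (exA g : ℝ) / 10000 := by
  have : ∀ g, 0 < exA g := by decide
  have h : (0 : ℝ) < exA g := by exact_mod_cast this g
  positivity

end Pool.Agent.Lib.MP_c72610_co.Gr
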