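import Pool.Agent.Lib.MP_c72610_co.Polymer

set_option autoImplicit false

namespace Pool.Agent.Lib.MP_c72610_co.Poly

open Finset Classical

/-- Abstract wired cluster counts: d T A is the number of floating balanced clusters of the edge
set A inside the vertex set T. -/
structure Frame (V E : Type*) [DecidableEq V] [DecidableEq E] where
  supp : E → Finset V
  d : Finset V → Finset E → ℕ
  two : ∀ g u v x, u ∈ supp g → v ∈ supp g → u ≠ v → x ∈ supp g → x = u ∨ x = v
  d_empty : ∀ A, d ∅ A = 0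
  loc : ∀ T A A', (∀ g, (∃ u ∈ T, u ∈ supp g) → (g ∈ A ↔ g ∈ A')) → d T A = d T A'
  wire : ∀ T A g u x, g ∈ A → u ∈ supp g → x ∈ supp g → x ∉ insert u T → d (insert u T) A = d T A
  add : ∀ T1 T2 A, Disjoint T1 T2 →
    (∀ g ∈ A, ∀ u ∈ T1, ∀ v ∈ T2, u ∈ supp g → v ∉ supp g) → d (T1 ∪ T2) A = d T1 A + d T2 A
  step : ∀ T A u, d (insert u T) A = d T A ∨ d (insert u T) A = d T A + 1
  br1 : ∀ T A g u v, u ≠ v → u ∉ T → v ∉ T → u ∈ supp g → v ∈ supp g →
    d (insert u (insert v T)) A = d (insert v T) A →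
    d (insert u (insert v T)) (insert g A) = d T A
  estep : ∀ T A g, d T A ≤ d T (insert g A) + 1

namespace Frame

variable {V E : Type*} [DecidableEq V] [DecidableEq E] (P : Frame V E)

/-- Moebius transform of q ^ d -/
def gam (q : ℝ) (R : Finset V) (A : Finset E) : ℝ := dl R fun T => q ^ P.d T A

/-- S is connected by the edges of D -/
def conn (S : Finset V) (D : Finset E) : Prop :=
  ∀ T, T ⊆ S → T.Nonempty → T ≠ S → ∃ g ∈ D, ∃ u ∈ T, ∃ v ∈ S, v ∉ T ∧ u ∈ P.supp g ∧ v ∈ P.supp g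

/-- no edge of D joins S to the rest of R -/
def closed (R S : Finset V) (D : Finset E) : Prop :=
  ∀ g ∈ D, ∀ u ∈ S, ∀ v ∈ R \ S, u ∈ P.supp g → v ∉ P.supp g

lemma gam_loc (q : ℝ) (R : Finset V) {A A' : Finset E}
    (h : ∀ g, (∃ u ∈ R, u ∈ P.supp g) → (g ∈ A ↔ g ∈ A')) : P.gam q R A = P.gam q R A' :=
  dl_congr fun T hT => by
    rw [P.loc T A A' fun g ⟨u, hu, hg⟩ => h g ⟨u, hT hu, hg⟩]

lemma gam_zero (q : ℝ) {R : Finset V} {A : Finset E} {g : E} {u x : V} (hg : g ∈ A) (hu : u ∈ R)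
    (hx : x ∉ R) (h1 : u ∈ P.supp g) (h2 : x ∈ P.supp g) : P.gam q R A = 0 := by
  unfold gam
  rw [← insert_erase hu, dl_insert (notMem_erase u R)]
  refine dl_zero _ fun T hT => ?_
  rw [P.wire T A g u x hg h1 h2, sub_self]
  intro h
  exact hx (insert_subset hu (hT.trans (erase_subset _ _)) h)

lemma gam_mul (q : ℝ) {R S : Finset V} {A : Finset E} (hS : S ⊆ R) (h : P.closed R S A) :
    P.gam q R A = P.gam q S A * P.gam q (R \ S) A := by
  unfold gam
  conv_lhs => rw [← union_sdiff_of_subset hS]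
  refine dl_mul S (R \ S) disjoint_sdiff _ _ _ fun T1 h1 T2 h2 => ?_
  rw [P.add T1 T2 A (disjoint_of_subset_left h1 (disjoint_of_subset_right h2 disjoint_sdiff))
    fun g hg u hu v hv => h g hg u (h1 hu) v (h2 hv), pow_add]

lemma d_conn {S : Finset V} {A : Finset E} (h : P.conn S A) :
    ∀ T : Finset V, T ⊆ S → T ≠ S → P.d T A = 0 := by
  intro T
  induction T using Finset.strongInduction with
  | H T ih =>
    intro hT hne
    rcases T.eq_empty_or_nonempty with rfl | hne'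
    · exact P.d_empty A
    obtain ⟨g, hg, u, hu, v, hv, hvT, h1, h2⟩ := h T hT hne' hne
    rw [← insert_erase hu, P.wire _ A g u v hg h1 h2 (by rwa [insert_erase hu])]
    refine ih _ (erase_ssubset hu) ((erase_subset _ _).trans hT) fun h => ?_
    exact hvT (erase_subset _ _ (h ▸ hv))

lemma gam_conn {q : ℝ} (h0 : 0 ≤ q) (h1 : q ≤ 1) {S : Finset V} {A : Finset E} (hS : S.Nonempty)
    (h : P.conn S A) : P.gam q S A ≤ 0 := by
  obtain ⟨u, hu⟩ := hS
  unfold gam
  have hd := P.d_conn h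
  rw [← insert_erase hu, dl_insert (notMem_erase u S), dl_top]
  · rw [hd (S.erase u) (erase_subset _ _) (erase_ssubset hu).ne, pow_zero]
    exact sub_nonpos.2 (pow_le_one₀ h0 h1)
  · intro T hT hne
    have a : T ⊂ S := Finset.ssubset_of_subset_of_ssubset hT (erase_ssubset hu)
    rw [hd T a.subset a.ne, hd (insert u T) (insert_subset hu a.subset), sub_self]
    intro h
    apply hne
    rw [← h, erase_insert fun h => notMem_erase u S (hT h)]

lemma gam_bridge (q : ℝ) {S T : Finset V} {A : Finset E} {g : E} {u v : V} (hT : T ⊆ S)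
    (hc : P.closed S T A) (hu : u ∈ T) (hv : v ∈ S) (hvT : v ∉ T) (h1 : u ∈ P.supp g)
    (h2 : v ∈ P.supp g) : P.gam q S A = -(1 - q) * P.gam q S (insert g A) := by
  have huv : u ≠ v := fun h => hvT (h ▸ hu)
  have hS : S = insert u (insert v ((S.erase u).erase v)) := by
    rw [insert_erase (mem_erase.2 ⟨huv.symm, hv⟩), insert_erase (hT hu)]
  have n1 : v ∉ (S.erase u).erase v := notMem_erase _ _
  have n2 : u ∉ insert v ((S.erase u).erase v) := by simp [huv]
  unfold gam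
  rw [hS, dl_insert n2, dl_insert n2, dl_insert n1, dl_insert n1, ← dl_smul]
  refine dl_congr fun X hX => ?_
  have hXS : X ⊆ S := hX.trans ((erase_subset _ _).trans (erase_subset _ _))
  have hvX : v ∉ X := fun h => n1 (hX h)
  have huX : u ∉ X := fun h => n2 (mem_insert_of_mem (hX h))
  have split : ∀ Y : Finset V, Y ⊆ S → P.d Y A = P.d (Y ∩ T) A + P.d (Y \ T) A := fun Y hY => by
    rw [← P.add _ _ A (disjoint_of_subset_left inter_subset_right disjoint_sdiff)
      fun g hg a ha b hb => hc g hg a (mem_inter.1 ha).2 b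
        (mem_sdiff.2 ⟨hY (mem_sdiff.1 hb).1, (mem_sdiff.1 hb).2⟩)]
    congr 1
    ext x; simp only [mem_union, mem_inter, mem_sdiff]; tauto
  have s0 := split X hXS
  have s1 := split (insert u X) (insert_subset (hT hu) hXS)
  have s2 := split (insert v X) (insert_subset hv hXS)
  have s3 := split (insert u (insert v X)) (insert_subset (hT hu) (insert_subset hv hXS))
  rw [insert_inter_of_mem hu, insert_sdiff_of_mem _ hu] at s1
  rw [insert_inter_of_notMem hvT, insert_sdiff_of_notMem _ hvT] at s2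
  rw [insert_inter_of_mem hu, insert_sdiff_of_mem _ hu, insert_inter_of_notMem hvT,
    insert_sdiff_of_notMem _ hvT] at s3
  have l0 : P.d X (insert g A) = P.d X A := P.loc _ _ _ fun g' ⟨x, hx, hx'⟩ => by
    have : g' ≠ g := by
      rintro rfl
      rcases P.two g' u v x h1 h2 huv hx' with rfl | rfl
      exacts [huX hx, hvX hx]
    simp [this]
  have l1 : P.d (insert u X) (insert g A) = P.d X A := by
    rw [P.wire X _ g u v (mem_insert_self _ _) h1 h2 (by simp [huv.symm, hvX]), l0]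
  have l2 : P.d (insert v X) (insert g A) = P.d X A := by
    rw [P.wire X _ g v u (mem_insert_self _ _) h2 h1 (by simp [huv, huX]), l0]
  have b1 := P.br1 X A g u v huv huX hvX h1 h2
  have b2 := P.br1 X A g v u huv.symm hvX huX h2 h1
  rw [insert_comm v u] at b2
  have b3 := P.estep (insert u (insert v X)) A g
  have b4 := P.step (insert v X) (insert g A) u
  rw [l0, l1, l2]
  rcases P.step (X ∩ T) A u with t1 | t1 <;> rcases P.step (X \ T) A v with t2 | t2
  · rw [b1 (by omega), show P.d (insert u (insert v X)) A = P.d X A by omega,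
      show P.d (insert u X) A = P.d X A by omega, show P.d (insert v X) A = P.d X A by omega]
    ring
  · rw [b1 (by omega), show P.d (insert u (insert v X)) A = P.d X A + 1 by omega,
      show P.d (insert u X) A = P.d X A by omega, show P.d (insert v X) A = P.d X A + 1 by omega]
    ring
  · rw [b2 (by omega), show P.d (insert u (insert v X)) A = P.d X A + 1 by omega,
      show P.d (insert u X) A = P.d X A + 1 by omega, show P.d (insert v X) A = P.d X A by omega]
    ring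
  · rw [show P.d (insert u (insert v X)) (insert g A) = P.d X A + 1 by omega,
      show P.d (insert u (insert v X)) A = P.d X A + 2 by omega,
      show P.d (insert u X) A = P.d X A + 1 by omega,
      show P.d (insert v X) A = P.d X A + 1 by omega]
    ring

lemma tutte {q : ℝ} (h0 : 0 ≤ q) (h1 : q ≤ 1) (x : E → ℝ) (hx : ∀ g, 1 ≤ x g) {S : Finset V}
    (hS : S.Nonempty) (J : Finset E) : ∀ A0 : Finset E, P.conn S (A0 ∪ J) →
      ∑ A ∈ J.powerset, W x A * P.gam q S (A0 ∪ A) ≤ 0 := by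
  induction J using Finset.induction_on with
  | empty =>
    intro A0 h
    simpa [W] using P.gam_conn h0 h1 hS (by simpa using h)
  | insert g J hg ih =>
    intro A0 h
    have i2 := ih (insert g A0) (by rwa [insert_union, ← union_insert])
    have e2 : ∑ A ∈ J.powerset, W x (insert g A) * P.gam q S (A0 ∪ insert g A) =
        x g * ∑ A ∈ J.powerset, W x A * P.gam q S (insert g A0 ∪ A) := by
      rw [mul_sum]
      refine sum_congr rfl fun A hA => ?_
      rw [W_insert x (fun h => hg (mem_powerset.1 hA h)), union_insert, insert_union, mul_assoc]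
    rw [sum_powerset_insert hg, e2]
    by_cases hc : P.conn S (A0 ∪ J)
    · have := ih A0 hc
      nlinarith [hx g]
    · unfold conn at hc
      push Not at hc
      obtain ⟨T, hT, hne, hne', hc⟩ := hc
      obtain ⟨g', hg', u, hu, v, hv, hvT, a1, a2⟩ := h T hT hne hne'
      have : g' = g := by
        by_contra hgg
        refine hc g' ?_ u hu v hv hvT a1 a2
        simp only [mem_union, mem_insert, hgg, false_or] at hg' ⊢
        exact hg'
      subst this
      have e1 : ∑ A ∈ J.powerset, W x A * P.gam q S (A0 ∪ A) =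
          -(1 - q) * ∑ A ∈ J.powerset, W x A * P.gam q S (insert g' A0 ∪ A) := by
        rw [mul_sum]
        refine sum_congr rfl fun A hA => ?_
        rw [P.gam_bridge q hT (fun g hg a ha b hb => hc g
          (union_subset_union (Subset.refl _) (mem_powerset.1 hA) hg) a ha b (mem_sdiff.1 hb).1
          (mem_sdiff.1 hb).2) hu hv hvT a1 a2, insert_union]
        ring
      rw [e1]
      nlinarith [hx g']

lemma unique_comp (R : Finset V) (D : Finset E) {u : V} (hu : u ∈ R) :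
    ∑ S ∈ R.powerset with u ∈ S, (if P.conn S D ∧ P.closed R S D then (1 : ℝ) else 0) = 1 := by
  obtain ⟨S, hS, hmin⟩ := exists_minimal_of_wellFoundedLT
    (fun S : Finset V => S ⊆ R ∧ u ∈ S ∧ P.closed R S D)
    ⟨R, Subset.refl _, hu, fun g _ a _ b hb => by simp at hb⟩
  obtain ⟨a1, a2, a3⟩ := hS
  have hconn : P.conn S D := by
    intro T hT hne hne'
    by_contra hc
    push Not at hc
    by_cases huT : u ∈ T
    · refine hne' (hT.antisymm (hmin ⟨hT.trans a1, huT, fun g hg a ha b hb => ?_⟩ hT))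
      by_cases hbS : b ∈ S
      · exact hc g hg a ha b hbS (mem_sdiff.1 hb).2
      · exact a3 g hg a (hT ha) b (mem_sdiff.2 ⟨(mem_sdiff.1 hb).1, hbS⟩)
    · have := hmin (y := S \ T) ⟨sdiff_subset.trans a1, mem_sdiff.2 ⟨a2, huT⟩,
        fun g hg a ha b hb => ?_⟩ sdiff_subset
      · obtain ⟨t, ht⟩ := hne
        exact (mem_sdiff.1 (this (hT ht))).2 ht
      · by_cases hbS : b ∈ S
        · have hbT : b ∈ T := by
            by_contra hbT
            exact (mem_sdiff.1 hb).2 (mem_sdiff.2 ⟨hbS, hbT⟩)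
          exact fun h1 h2 => hc g hg b hbT a (mem_sdiff.1 ha).1 (mem_sdiff.1 ha).2 h2 h1
        · exact a3 g hg a (mem_sdiff.1 ha).1 b (mem_sdiff.2 ⟨(mem_sdiff.1 hb).1, hbS⟩)
  have sub : ∀ S1 S2 : Finset V, S1 ⊆ R → u ∈ S1 → u ∈ S2 → P.conn S1 D → P.closed R S2 D →
      S1 ⊆ S2 := fun S1 S2 b1 b2 b3 b4 b5 => by
    by_contra hc
    obtain ⟨g, hg, a, ha, b, hb, hb', c1, c2⟩ := b4 (S1 ∩ S2) inter_subset_left
      ⟨u, mem_inter.2 ⟨b2, b3⟩⟩ fun h => hc (h ▸ inter_subset_right)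
    exact b5 g hg a (mem_inter.1 ha).2 b
      (mem_sdiff.2 ⟨b1 hb, fun h => hb' (mem_inter.2 ⟨hb, h⟩)⟩) c1 c2
  rw [sum_eq_single S, if_pos ⟨hconn, a3⟩]
  · intro S' hS' hne
    rw [mem_filter, mem_powerset] at hS'
    exact if_neg fun h => hne ((sub S' S hS'.1 hS'.2 a2 h.1 a3).antisymm
      (sub S S' a1 a2 hS'.2 hconn h.2))
  · intro h
    exact absurd (mem_filter.2 ⟨mem_powerset.2 a1, a2⟩) h

lemma pointwise (q : ℝ) {R S : Finset V} (hS : S ⊆ R) {A B A' A1 B1 : Finset E}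
    (h1 : ∀ g, (∃ u ∈ S, u ∈ P.supp g) → (g ∈ A1 ↔ g ∈ A))
    (h2 : ∀ g, ¬ (∃ u ∈ S, u ∈ P.supp g) → (g ∈ A1 ↔ g ∈ A'))
    (h3 : ∀ g, ((∃ u ∈ S, u ∈ P.supp g) ∧ ∃ x, x ∉ S ∧ x ∈ P.supp g) → (g ∈ B1 ↔ g ∈ A'))
    (h4 : ∀ g, ¬ ((∃ u ∈ S, u ∈ P.supp g) ∧ ∃ x, x ∉ S ∧ x ∈ P.supp g) → (g ∈ B1 ↔ g ∈ B)) :
    P.gam q R A1 * (if P.conn S (A1 ∪ B1) ∧ P.closed R S (A1 ∪ B1) then 1 else 0) =
      P.gam q S A * (if P.conn S (A ∪ B) then 1 else 0) * P.gam q (R \ S) A' := by
  by_cases c1 : ∃ g ∈ A, ∃ u ∈ S, ∃ x, x ∉ S ∧ u ∈ P.supp g ∧ x ∈ P.supp g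
  · obtain ⟨g, hg, u, hu, x, hx, a1, a2⟩ := c1
    have hg1 : g ∈ A1 := (h1 g ⟨u, hu, a1⟩).2 hg
    rw [P.gam_zero q hg hu hx a1 a2, zero_mul, zero_mul]
    by_cases hxR : x ∈ R
    · rw [if_neg fun h => h.2 g (mem_union_left _ hg1) u hu x (mem_sdiff.2 ⟨hxR, hx⟩) a1 a2,
        mul_zero]
    · rw [P.gam_zero q hg1 (hS hu) hxR a1 a2, zero_mul]
  by_cases c2 : ∃ g ∈ A', ∃ y ∈ R \ S, ∃ x, x ∉ R \ S ∧ y ∈ P.supp g ∧ x ∈ P.supp g
  · obtain ⟨g, hg, y, hy, x, hx, a1, a2⟩ := c2
    rw [P.gam_zero q hg hy hx a1 a2, mul_zero]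
    by_cases hxS : x ∈ S
    · have hg1 : g ∈ B1 := (h3 g ⟨⟨x, hxS, a2⟩, y, (mem_sdiff.1 hy).2, a1⟩).2 hg
      rw [if_neg fun h => h.2 g (mem_union_right _ hg1) x hxS y hy a2 a1, mul_zero]
    · have hxR : x ∉ R := fun h => hx (mem_sdiff.2 ⟨h, hxS⟩)
      have hg1 : g ∈ A1 := by
        refine (h2 g ?_).2 hg
        rintro ⟨u, hu, a3⟩
        rcases P.two g y x u a1 a2 (fun h => hx (h ▸ hy)) a3 with rfl | rfl
        exacts [(mem_sdiff.1 hy).2 hu, hxS hu]
      rw [P.gam_zero q hg1 (mem_sdiff.1 hy).1 hxR a1 a2, zero_mul]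
  have cl : P.closed R S (A1 ∪ B1) := by
    intro g hg u hu v hv a1 a2
    rcases mem_union.1 hg with hg | hg
    · exact c1 ⟨g, (h1 g ⟨u, hu, a1⟩).1 hg, u, hu, v, (mem_sdiff.1 hv).2, a1, a2⟩
    · exact c2 ⟨g, (h3 g ⟨⟨u, hu, a1⟩, v, (mem_sdiff.1 hv).2, a2⟩).1 hg, v, hv, u,
        fun h => (mem_sdiff.1 h).2 hu, a2, a1⟩
  have hin : ∀ g u v, u ∈ S → v ∈ S → u ≠ v → u ∈ P.supp g → v ∈ P.supp g →
      (g ∈ A1 ∪ B1 ↔ g ∈ A ∪ B) := fun g u v hu hv huv a1 a2 => by
    rw [mem_union, mem_union, h1 g ⟨u, hu, a1⟩, h4 g]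
    rintro ⟨-, x, hx, a3⟩
    rcases P.two g u v x a1 a2 huv a3 with rfl | rfl
    exacts [hx hu, hx hv]
  have cn : P.conn S (A1 ∪ B1) ↔ P.conn S (A ∪ B) := by
    constructor <;> intro h T hT hne hne' <;>
      obtain ⟨g, hg, u, hu, v, hv, hvT, a1, a2⟩ := h T hT hne hne'
    · exact ⟨g, (hin g u v (hT hu) hv (fun h => hvT (h ▸ hu)) a1 a2).1 hg, u, hu, v, hv, hvT, a1, a2⟩
    · exact ⟨g, (hin g u v (hT hu) hv (fun h => hvT (h ▸ hu)) a1 a2).2 hg, u, hu, v, hv, hvT, a1, a2⟩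
  have e3 : P.gam q (R \ S) A1 = P.gam q (R \ S) A' := by
    refine P.gam_loc q _ fun g ⟨y, hy, a1⟩ => ?_
    by_cases ht : ∃ u ∈ S, u ∈ P.supp g
    · obtain ⟨u, hu, a2⟩ := ht
      exact iff_of_false
        (fun hg => c1 ⟨g, (h1 g ⟨u, hu, a2⟩).1 hg, u, hu, y, (mem_sdiff.1 hy).2, a2, a1⟩)
        (fun hg => c2 ⟨g, hg, y, hy, u, fun h => (mem_sdiff.1 h).2 hu, a1, a2⟩)
    · exact h2 g ht
  rw [P.gam_mul q hS fun g hg => cl g (mem_union_left _ hg), P.gam_loc q S h1, e3]
  simp only [cl, cn, and_true]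
  ring

variable [Fintype E]

/-- weighted sum of gam -/
def Gm (q : ℝ) (v : E → ℝ) (R : Finset V) : ℝ := ∑ A, W v A * P.gam q R A

/-- wired partition function -/
def Z (q : ℝ) (v : E → ℝ) (U : Finset V) : ℝ := ∑ A, W v A * q ^ P.d U A

/-- polymer weight -/
noncomputable def zeta (q : ℝ) (v : E → ℝ) (S : Finset V) : ℝ :=
  ∑ A, ∑ B, W v A * W v B * (P.gam q S A * if P.conn S (A ∪ B) then 1 else 0)

lemma Z_eq (q : ℝ) (v : E → ℝ) (U : Finset V) : P.Z q v U = ∑ R ∈ U.powerset, P.Gm q v R := by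
  unfold Z Gm gam
  rw [sum_comm]
  refine sum_congr rfl fun A _ => ?_
  rw [← mul_sum, sum_dl]

lemma zeta_nonpos {q : ℝ} (h0 : 0 ≤ q) (h1 : q ≤ 1) {v : E → ℝ} (hv : ∀ g, 0 ≤ v g) {S : Finset V}
    (hS : S.Nonempty) : P.zeta q v S ≤ 0 := by
  unfold zeta
  rw [← powerset_univ, regroup v univ fun A D => P.gam q S A * if P.conn S D then 1 else 0]
  refine sum_nonpos fun D _ => mul_nonpos_of_nonneg_of_nonpos (W_nonneg hv D) ?_
  by_cases h : P.conn S D
  · simpa [h] using P.tutte h0 h1 (fun g => 1 + v g) (fun g => by linarith [hv g]) hS D ∅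
      (by simpa using h)
  · simp [h]

lemma triple (q : ℝ) (v : E → ℝ) {R S : Finset V} (hS : S ⊆ R) :
    (∑ A, W v A) * ∑ A, ∑ B, W v A * W v B *
      (P.gam q R A * if P.conn S (A ∪ B) ∧ P.closed R S (A ∪ B) then 1 else 0) =
      P.zeta q v S * P.Gm q v (R \ S) := by
  set K1 : Finset E := univ.filter fun g => ∃ u ∈ S, u ∈ P.supp g with hK1
  set K2 : Finset E := univ.filter fun g =>
    ¬ ((∃ u ∈ S, u ∈ P.supp g) ∧ ∃ x, x ∉ S ∧ x ∈ P.supp g) with hK2
  set s : Finset E → Finset E → ℝ := fun A B =>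
    P.gam q R A * if P.conn S (A ∪ B) ∧ P.closed R S (A ∪ B) then 1 else 0 with hs
  calc (∑ A, W v A) * ∑ A, ∑ B, W v A * W v B * s A B
      = ∑ B, W v B * ∑ A, ∑ C, W v A * W v C * s A B := by
        rw [sum_comm, mul_sum]
        refine sum_congr rfl fun B _ => ?_
        rw [mul_sum, mul_sum]
        refine sum_congr rfl fun A _ => ?_
        rw [sum_mul, mul_sum]
        exact sum_congr rfl fun C _ => by ring
    _ = ∑ B, W v B * ∑ A, ∑ C, W v A * W v C * s (mix K1 A C) B :=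
        sum_congr rfl fun B _ => by rw [swap2 v K1 fun A _ => s A B]
    _ = ∑ A, W v A * ∑ B, ∑ C, W v B * W v C * s (mix K1 A C) B := by
        simp only [mul_sum]
        rw [sum_comm]
        refine sum_congr rfl fun A _ => sum_congr rfl fun B _ => sum_congr rfl fun C _ => by ring
    _ = ∑ A, W v A * ∑ B, ∑ C, W v B * W v C * s (mix K1 A (mix K2 C B)) (mix K2 B C) :=
        sum_congr rfl fun A _ => by rw [swap2 v K2 fun B C => s (mix K1 A C) B]
    _ = _ := by
        unfold zeta Gm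
        rw [sum_mul]
        refine sum_congr rfl fun A _ => ?_
        rw [sum_mul, mul_sum]
        refine sum_congr rfl fun B _ => ?_
        rw [mul_sum, mul_sum]
        refine sum_congr rfl fun C _ => ?_
        rw [hs]
        dsimp only
        rw [P.pointwise q hS (A := A) (B := B) (A' := C)]
        · ring
        all_goals
          intro g hg
          simp only [mem_mix, hK1, hK2, mem_filter, mem_univ, true_and]
          simp only [hg, true_and, false_and, not_true, not_false_iff, and_self, or_false, false_or]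

lemma Gm_rec (q : ℝ) (v : E → ℝ) {R : Finset V} {u : V} (hu : u ∈ R) :
    (∑ A, W v A) ^ 2 * P.Gm q v R =
      ∑ S ∈ R.powerset with u ∈ S, P.zeta q v S * P.Gm q v (R \ S) := by
  rw [← sum_congr rfl fun S hS => P.triple q v (mem_powerset.1 (mem_filter.1 hS).1), ← mul_sum,
    sq, mul_assoc]
  congr 1
  rw [sum_comm, Gm, mul_sum]
  refine sum_congr rfl fun A _ => ?_
  rw [sum_comm, sum_mul]
  refine sum_congr rfl fun B _ => ?_
  rw [← mul_sum, ← mul_sum, P.unique_comp R (A ∪ B) hu]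
  ring

lemma Z_rec (q : ℝ) (v : E → ℝ) (U : Finset V) (u : V) :
    (∑ A, W v A) ^ 2 * P.Z q v U = (∑ A, W v A) ^ 2 * P.Z q v (U.erase u) +
      ∑ S ∈ U.powerset with u ∈ S, P.zeta q v S * P.Z q v (U \ S) := by
  have h1 : P.Z q v U = P.Z q v (U.erase u) + ∑ R ∈ U.powerset with u ∈ R, P.Gm q v R := by
    rw [Z_eq, Z_eq, ← sum_filter_add_sum_filter_not U.powerset (fun R => u ∈ R), add_comm]
    congr 2
    ext R
    simp only [mem_filter, mem_powerset, subset_erase]
  rw [h1, mul_add, mul_sum,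
    sum_congr rfl fun R hR => P.Gm_rec q v (mem_filter.1 hR).2]
  congr 1
  simp only [Z_eq, mul_sum]
  rw [sum_sigma', sum_sigma']
  refine sum_bij' (fun p _ => ⟨p.2, p.1 \ p.2⟩) (fun p _ => ⟨p.1 ∪ p.2, p.1⟩) ?_ ?_ ?_ ?_ ?_
  · rintro ⟨R, S⟩ h
    simp only [mem_sigma, mem_filter, mem_powerset] at h ⊢
    exact ⟨⟨h.2.1.trans h.1.1, h.2.2⟩, sdiff_subset_sdiff h.1.1 (Subset.refl _)⟩
  · rintro ⟨S, T⟩ h
    simp only [mem_sigma, mem_filter, mem_powerset] at h ⊢
    exact ⟨⟨union_subset h.1.1 (h.2.trans sdiff_subset), mem_union_left _ h.1.2⟩,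
      subset_union_left, h.1.2⟩
  · rintro ⟨R, S⟩ h
    simp only [mem_sigma, mem_filter, mem_powerset] at h ⊢
    rw [union_sdiff_of_subset h.2.1]
  · rintro ⟨S, T⟩ h
    simp only [mem_sigma, mem_filter, mem_powerset] at h ⊢
    rw [union_sdiff_cancel_left (disjoint_of_subset_right h.2 disjoint_sdiff)]
  · intro p _
    rfl

lemma Z_pos {q : ℝ} (h0 : 0 < q) {v : E → ℝ} (hv : ∀ g, 0 ≤ v g) (U : Finset V) :
    0 < P.Z q v U :=
  sum_pos' (fun A _ => mul_nonneg (W_nonneg hv A) (pow_pos h0 _).le)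
    ⟨∅, mem_univ _, by simpa [W] using pow_pos h0 _⟩

/-- the wired partition function is log-submodular -/
theorem Z_submod {q : ℝ} (h0 : 0 < q) (h1 : q ≤ 1) {v : E → ℝ} (hv : ∀ g, 0 ≤ v g)
    (U U' S : Finset V) (hU : U ⊆ U') (hS : S ⊆ U) :
    P.Z q v (U \ S) / P.Z q v U ≤ P.Z q v (U' \ S) / P.Z q v U' := by
  have hc : 0 < ∑ A, W v A :=
    sum_pos' (fun A _ => W_nonneg hv A) ⟨∅, mem_univ _, by simp [W]⟩
  refine shearer (P.Z q v) (fun S => if S.Nonempty then P.zeta q v S else 0) _ (pow_pos hc 2)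
    (P.Z_pos h0 hv) (fun S => ?_) (fun U u _ => ?_) U' U S hU hS
  · split_ifs with h
    exacts [P.zeta_nonpos h0.le h1 hv h, le_rfl]
  · rw [P.Z_rec q v U u]
    congr 1
    exact sum_congr rfl fun S hS => by rw [if_pos ⟨u, (mem_filter.1 hS).2⟩]

end Frame

/-- negative correlation of e and f under the weights m -/
def NCor {E : Type*} [DecidableEq E] [Fintype E] (e f : E) (m : Finset E → ℝ) : Prop :=
  (∑ A, if e ∈ A ∧ f ∈ A then m A else 0) * (∑ A, m A) ≤
    (∑ A, if e ∈ A then m A else 0) * (∑ A, if f ∈ A then m A else 0)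

theorem Frame.ncor {V E : Type*} [DecidableEq V] [DecidableEq E] [Fintype E] (P : Frame V E)
    {q : ℝ} (h0 : 0 < q) (h1 : q ≤ 1) {v : E → ℝ} (hv : ∀ g, 0 ≤ v g) (U : Finset V) {b c : V}
    (hc : c ∈ U) (hbc : b ≠ c) {e f : E} (hef : e ≠ f)
    (he : ∀ T, T ⊆ U → ∀ A, P.d T (insert e A) = P.d (T.erase b) A)
    (hf : ∀ T, T ⊆ U → ∀ A, P.d T (insert f A) = P.d (T.erase c) A) :
    NCor e f fun A => W v A * q ^ P.d U A := by
  have one : ∀ (e : E) (b : V), (∀ T, T ⊆ U → ∀ A, P.d T (insert e A) = P.d (T.erase b) A) →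
      ∀ T, T ⊆ U → (1 + v e) * ∑ A, (if e ∈ A then W v A * q ^ P.d T A else 0) =
        v e * P.Z q v (T.erase b) := fun e b he T hT => by
    rw [Frame.Z, ← half v e (fun A => q ^ P.d (T.erase b) A) fun A => by
      rw [he _ ((erase_subset _ _).trans hT), erase_idem]]
    congr 1
    refine sum_congr rfl fun A _ => ?_
    split_ifs with h
    · rw [← he T hT, insert_eq_of_mem h]
    · rfl
  have e1 := one e b he U (Subset.refl _)
  have e2 := one f c hf U (Subset.refl _)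
  have e3 := one f c hf (U.erase b) (erase_subset _ _)
  have e4 : (1 + v e) * ∑ A, (if e ∈ A ∧ f ∈ A then W v A * q ^ P.d U A else 0) =
      v e * ∑ A, (if f ∈ A then W v A * q ^ P.d (U.erase b) A else 0) := by
    have := half v e (fun A => if f ∈ A then q ^ P.d (U.erase b) A else 0) fun A => by
      rw [he _ (erase_subset _ _), erase_idem]
      simp [hef.symm]
    simp only [mul_ite, mul_zero] at this
    rw [← this]
    congr 1
    refine sum_congr rfl fun A _ => ?_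
    by_cases h : e ∈ A
    · rw [← he U (Subset.refl _), insert_eq_of_mem h]; simp [h]
    · simp [h]
  have key := P.Z_submod h0 h1 hv (U.erase b) U {c} (erase_subset _ _)
    (singleton_subset_iff.2 (mem_erase.2 ⟨hbc.symm, hc⟩))
  rw [sdiff_singleton_eq_erase, sdiff_singleton_eq_erase,
    div_le_div_iff₀ (P.Z_pos h0 hv _) (P.Z_pos h0 hv _)] at key
  have p1 : 0 < 1 + v e := by linarith [hv e]
  have p2 : 0 < 1 + v f := by linarith [hv f]
  unfold NCor
  refine le_of_mul_le_mul_left ?_ (mul_pos p1 p2)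
  change _ * (_ * P.Z q v U) ≤ _
  calc _ = (1 + v f) * ((1 + v e) * ∑ A, (if e ∈ A ∧ f ∈ A then W v A * q ^ P.d U A else 0)) *
        P.Z q v U := by ring
    _ = v e * ((1 + v f) * ∑ A, (if f ∈ A then W v A * q ^ P.d (U.erase b) A else 0)) *
        P.Z q v U := by rw [e4]; ring
    _ = v e * v f * (P.Z q v ((U.erase b).erase c) * P.Z q v U) := by rw [e3]; ring
    _ ≤ v e * v f * (P.Z q v (U.erase c) * P.Z q v (U.erase b)) :=
        mul_le_mul_of_nonneg_left key (mul_nonneg (hv e) (hv f))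
    _ = (v e * P.Z q v (U.erase b)) * (v f * P.Z q v (U.erase c)) := by ring
    _ = _ := by rw [← e1, ← e2]; ring

lemma NCor.of_smul {E : Type*} [DecidableEq E] [Fintype E] {e f : E} {m m' : Finset E → ℝ} {c : ℝ}
    (hc : 0 < c) (h : NCor e f m) (hm : ∀ A, m A = c * m' A) : NCor e f m' := by
  unfold NCor at h ⊢
  have k : ∀ (p : Finset E → Prop) [DecidablePred p],
      (∑ A, if p A then m A else 0) = c * ∑ A, if p A then m' A else 0 := fun p _ => by
    rw [mul_sum]
    exact sum_congr rfl fun A _ => by split_ifs <;> simp [hm]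
  rw [k, k, k, sum_congr rfl fun A _ => hm A, ← mul_sum] at h
  refine le_of_mul_le_mul_left ?_ (mul_pos hc hc)
  linarith

lemma NCor.limit {E : Type*} [DecidableEq E] [Fintype E] {e f : E} (a : Finset E → ℝ)
    (k : Finset E → ℕ) (h : ∀ t : ℝ, 0 < t → t ≤ 1 → NCor e f fun A => a A * t ^ k A) :
    NCor e f fun A => if k A = 0 then a A else 0 := by
  have c : ∀ (p : Finset E → Prop) [DecidablePred p],
      Continuous fun t : ℝ => ∑ A, if p A then a A * t ^ k A else 0 := fun p _ =>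
    continuous_finsetSum _ fun A _ => by split_ifs <;> fun_prop
  have hcl : IsClosed {t : ℝ | NCor e f fun A => a A * t ^ k A} :=
    isClosed_le ((c _).mul (by fun_prop)) ((c _).mul (c _))
  have h0 : (0 : ℝ) ∈ closure (Set.Ioc (0 : ℝ) 1) := by
    rw [closure_Ioc zero_ne_one]; simp
  have : NCor e f fun A => a A * (0 : ℝ) ^ k A :=
    closure_minimal (fun t (ht : t ∈ Set.Ioc (0 : ℝ) 1) => h t ht.1 ht.2) hcl h0
  convert this using 2 with A
  by_cases hk : k A = 0 <;> simp [hk]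

end Pool.Agent.Lib.MP_c72610_co.Poly
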