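import Pool.Agent.Lib.MP_c72610_co.Cycle

set_option autoImplicit false

namespace Pool.Agent.Lib.MP_c72610_co.Poly

open Classical Finset

variable {α : Type*} [Fintype α] [DecidableEq α]

lemma NCor.symmDiff {e f : α} {m : Finset α → ℝ} (E0 : Finset α) (he : e ∈ E0) (hf : f ∈ E0)
    (h : NCor e f m) : NCor e f fun A => m (symmDiff A E0) := by
  unfold NCor at h ⊢
  have k : ∀ g g' : Finset α → ℝ, (∀ A, g A = g' (_root_.symmDiff A E0)) → ∑ A, g A = ∑ A, g' A :=
    fun g g' hg => Fintype.sum_equiv ⟨fun A => _root_.symmDiff A E0, fun A => _root_.symmDiff A E0,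
      fun A => symmDiff_symmDiff_cancel_right _ _, fun A => symmDiff_symmDiff_cancel_right _ _⟩ _ _ hg
  have a : ∀ x ∈ E0, ∀ A : Finset α, x ∈ _root_.symmDiff A E0 ↔ x ∉ A := fun x hx A => by
    simp [mem_symmDiff, hx]
  rw [k _ (fun A => m A - (if e ∈ A then m A else 0) - (if f ∈ A then m A else 0) +
      if e ∈ A ∧ f ∈ A then m A else 0) (fun A => by
        by_cases h1 : e ∈ A <;> by_cases h2 : f ∈ A <;> simp [a e he, a f hf, h1, h2]),
    k _ m fun _ => rfl,
    k (fun A => if e ∈ A then _ else 0) (fun A => m A - if e ∈ A then m A else 0) (fun A => by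
        by_cases h1 : e ∈ A <;> simp [a e he, h1]),
    k (fun A => if f ∈ A then _ else 0) (fun A => m A - if f ∈ A then m A else 0) (fun A => by
        by_cases h1 : f ∈ A <;> simp [a f hf, h1])]
  simp only [sum_add_distrib, sum_sub_distrib]
  nlinarith

/-- the two parameter weight of an edge set -/
noncomputable def wt (M : Matroid α) (s t : ℝ) (z : α → ℝ) (A : Finset α) : ℝ :=
  if (A : Set α) ⊆ M.E then
    s ^ (A.card - rk M A) * t ^ (rk M M.E - rk M A) * ∏ x ∈ A, z x else 0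

lemma ncor_restrict {M N : Matroid α} {B : Set α} (hMN : M.IsRestriction N) (hB : N.IsBase B)
    (hfr : ∀ g ∈ M.E, ∃ u ∈ B, ∃ v ∈ B, g ∈ N.closure {u, v}) {e f : α} (heB : e ∈ B)
    (hfB : f ∈ B) (heR : e ∈ M.E) (hfR : f ∈ M.E) (hef : e ≠ f) {z : α → ℝ} (hz : ∀ g, 0 ≤ z g)
    {s t : ℝ} (hs : 0 ≤ s) (ht : 0 ≤ t) (hst : s * t ≤ 1) : NCor e f (wt M s t z) := by
  obtain ⟨R, hR, rfl⟩ := hMN
  convert ncor_all hB hR hfr heB hfB heR hfR hef hz hs ht hst using 2 with A
  unfold wt rk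
  rw [Matroid.restrict_ground_eq]
  split_ifs with h
  · rw [N.restrict_eRk_eq h, N.restrict_eRk_eq Set.Subset.rfl]
  · rfl

omit [DecidableEq α] in
lemma rk_dual (M : Matroid α) {X : Set α} (hX : X ⊆ M.E) :
    rk M✶ X + rk M M.E = rk M (M.E \ X) + X.ncard := by
  rw [← Nat.cast_inj (R := ℕ∞)]
  push_cast
  rw [rk_coe, rk_coe, rk_coe, (Set.toFinite X).cast_ncard_eq, M.eRk_ground]
  exact M.eRk_dual_add_eRank X hX

lemma ncor_dual {M : Matroid α} {e f : α} (he : e ∈ M.E) (hf : f ∈ M.E) {z : α → ℝ}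
    (hz : ∀ g, 0 < z g) {s t : ℝ} (h : NCor e f (wt M✶ t s fun x => (z x)⁻¹)) :
    NCor e f (wt M s t z) := by
  have hp : ∀ A : Finset α, 0 < ∏ x ∈ A, z x := fun A => prod_pos fun x _ => hz x
  refine (h.symmDiff M.E.toFinset (by simpa using he) (by simpa using hf)).of_smul
    (inv_pos.2 (hp M.E.toFinset)) fun A => ?_
  unfold wt
  rw [Matroid.dual_ground]
  by_cases hA : (A : Set α) ⊆ M.E
  · have hA' : A ⊆ M.E.toFinset := Set.subset_toFinset.2 hA
    have e1 : symmDiff A M.E.toFinset = M.E.toFinset \ A := symmDiff_of_le hA'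
    have e2 : ((M.E.toFinset \ A : Finset α) : Set α) = M.E \ A := by simp
    have a1 := rk_dual M (X := M.E \ A) Set.sdiff_subset
    rw [Set.sdiff_sdiff_cancel_left hA] at a1
    have a2 := rk_dual M Set.Subset.rfl
    rw [Set.sdiff_self] at a2
    have a3 : rk M ∅ = 0 := by simp [rk]
    have a4 : (M.E \ A).ncard = (M.E.toFinset \ A).card := by rw [← e2, Set.ncard_coe_finset]
    have a5 : (M.E.toFinset \ A).card + A.card = M.E.ncard := by
      rw [card_sdiff_add_card_eq_card hA', Set.ncard_eq_toFinset_card']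
    have a6 := rk_le_ncard M (A : Set α)
    rw [Set.ncard_coe_finset] at a6
    have a7 := rk_mono M hA
    rw [e1, e2, if_pos Set.sdiff_subset, if_pos hA, ← prod_sdiff hA', prod_inv_distrib,
      show (M.E.toFinset \ A).card - rk M✶ (M.E \ A) = rk M M.E - rk M A by omega,
      show rk M✶ M.E - rk M✶ (M.E \ A) = A.card - rk M A by omega]
    have := (hp A).ne'
    have := (hp (M.E.toFinset \ A)).ne'
    field_simp
  · rw [if_neg hA, if_neg, mul_zero]
    intro hc
    obtain ⟨g, hg, hg'⟩ := Set.not_subset.1 hA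
    exact hg' (hc (mem_coe.2 (mem_symmDiff.2 (Or.inl ⟨hg, by simpa using hg'⟩))))

end Pool.Agent.Lib.MP_c72610_co.Poly
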