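import Pool.Agent.Lib.MP_c72610_co.Frame

set_option autoImplicit false

namespace Pool.Agent.Lib.MP_c72610_co.Poly

open Classical Set

variable {α : Type*} [Fintype α] (N : Matroid α)

/-- natural number valued rank -/
noncomputable def rk (X : Set α) : ℕ := (N.eRk X).toNat

lemma rk_coe (X : Set α) : (rk N X : ℕ∞) = N.eRk X :=
  ENat.natCast_toNat ((N.eRk_le_encard X).trans_lt (Set.toFinite X).encard_lt_top).ne

lemma rk_mono {X Y : Set α} (h : X ⊆ Y) : rk N X ≤ rk N Y := by
  rw [← Nat.cast_le (α := ℕ∞), rk_coe, rk_coe]; exact N.eRk_mono h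

omit [Fintype α] in
lemma rk_closure (X : Set α) : rk N (N.closure X) = rk N X := by
  unfold rk; rw [N.eRk_closure_eq]

lemma rk_le_of_closure {X Y : Set α} (h : X ⊆ N.closure Y) : rk N X ≤ rk N Y :=
  (rk_mono N h).trans (rk_closure N Y).le

lemma rk_sm {Y Z U I : Set α} (h1 : U ⊆ Y ∪ Z) (h2 : I ⊆ Y) (h3 : I ⊆ Z) :
    rk N U + rk N I ≤ rk N Y + rk N Z := by
  have a := rk_mono N h1
  have b := rk_mono N (subset_inter h2 h3)
  have c : rk N (Y ∩ Z) + rk N (Y ∪ Z) ≤ rk N Y + rk N Z := by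
    rw [← Nat.cast_le (α := ℕ∞)]
    push_cast
    simp only [rk_coe]
    exact N.eRk_inter_add_eRk_union_le Y Z
  omega

lemma rk_insert_le (e : α) (X : Set α) : rk N (insert e X) ≤ rk N X + 1 := by
  rw [← Nat.cast_le (α := ℕ∞)]
  push_cast
  simp only [rk_coe]
  exact N.eRk_insert_le_add_one e X

lemma rk_insert_eq {e : α} {X : Set α} (h1 : e ∈ N.E) (h2 : e ∉ N.closure X) :
    rk N (insert e X) = rk N X + 1 := by
  rw [← Nat.cast_inj (R := ℕ∞)]
  push_cast
  simp only [rk_coe]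
  exact N.eRk_insert_eq_add_one ⟨h1, h2⟩

lemma rk_le_ncard (X : Set α) : rk N X ≤ X.ncard := by
  rw [← Nat.cast_le (α := ℕ∞), rk_coe, (Set.toFinite X).cast_ncard_eq]
  exact N.eRk_le_encard X

lemma indep_iff_rk (X : Set α) : N.Indep X ↔ rk N X = X.ncard := by
  rw [← Nat.cast_inj (R := ℕ∞), rk_coe, (Set.toFinite X).cast_ncard_eq]
  exact Matroid.indep_iff_eRk_eq_encard_of_finite (Set.toFinite X)

variable {N}

lemma rk_le_base {B : Set α} (hB : N.IsBase B) (X : Set α) : rk N X ≤ B.ncard := by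
  rw [← Nat.cast_le (α := ℕ∞), rk_coe, (Set.toFinite B).cast_ncard_eq, hB.encard_eq_eRank]
  exact N.eRk_le_eRank X

lemma rk_sub_base {B X : Set α} (hB : N.IsBase B) (h : X ⊆ B) : rk N X = X.ncard :=
  (indep_iff_rk N X).1 (hB.indep.subset h)

/-- the elements of the frame needed to span g -/
noncomputable def fsupp (N : Matroid α) (B R : Set α) (g : α) : Finset α :=
  Finset.univ.filter fun u => g ∈ R ∧ u ∈ B ∧ g ∉ N.closure (B \ {u})

lemma mem_fsupp {B R : Set α} {g u : α} :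
    u ∈ fsupp N B R g ↔ g ∈ R ∧ u ∈ B ∧ g ∉ N.closure (B \ {u}) := by
  simp [fsupp]

section

variable {B R : Set α} (hB : N.IsBase B)
  (hfr : ∀ g ∈ R, ∃ u ∈ B, ∃ v ∈ B, g ∈ N.closure {u, v})

include hfr in
lemma fsupp_two (g u v x : α) (hu : u ∈ fsupp N B R g) (hv : v ∈ fsupp N B R g) (huv : u ≠ v)
    (hx : x ∈ fsupp N B R g) : x = u ∨ x = v := by
  obtain ⟨a, ha, b, hb, hg⟩ := hfr g (mem_fsupp.1 hu).1
  have k : ∀ y ∈ fsupp N B R g, y = a ∨ y = b := fun y hy => by
    by_contra hc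
    push Not at hc
    refine (mem_fsupp.1 hy).2.2 (N.closure_subset_closure ?_ hg)
    rintro w (rfl | rfl)
    exacts [⟨ha, hc.1.symm⟩, ⟨hb, hc.2.symm⟩]
  rcases k u hu with rfl | rfl <;> rcases k v hv with rfl | rfl <;> rcases k x hx with rfl | rfl <;>
    simp_all

include hB hfr in
lemma mem_closure_fsupp {g : α} (hg : g ∈ R) {X : Set α} (hX : ∀ u ∈ fsupp N B R g, u ∈ X) :
    g ∈ N.closure X := by
  obtain ⟨a, ha, b, hb, hab⟩ := hfr g hg
  have k : ∀ (Y : Set α) (y : α), Y ⊆ B → y ∈ B → g ∈ N.closure Y → y ∉ X →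
      g ∈ N.closure (Y \ {y}) := fun Y y hY hy h1 h2 => by
    have h3 : g ∈ N.closure (B \ {y}) := by
      by_contra h3
      exact h2 (hX y (mem_fsupp.2 ⟨hg, hy, h3⟩))
    have h4 := (hB.indep.subset (union_subset hY sdiff_subset)).closure_inter_eq_inter_closure
      (I := Y) (J := B \ {y})
    have h5 : Y ∩ (B \ {y}) = Y \ {y} := by
      ext w
      exact ⟨fun h => ⟨h.1, h.2.2⟩, fun h => ⟨h.1, hY h.1, h.2⟩⟩
    rw [← h5, h4]
    exact ⟨h1, h3⟩
  have s : ({a, b} : Set α) ⊆ B := by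
    rintro w (rfl | rfl)
    exacts [ha, hb]
  by_cases h1 : a ∈ X <;> by_cases h2 : b ∈ X
  · refine N.closure_subset_closure ?_ hab
    rintro w (rfl | rfl)
    exacts [h1, h2]
  · refine N.closure_subset_closure ?_ (k _ b s hb hab h2)
    rintro w ⟨rfl | rfl, hw⟩
    exacts [h1, absurd rfl hw]
  · refine N.closure_subset_closure ?_ (k _ a s ha hab h1)
    rintro w ⟨rfl | rfl, hw⟩
    exacts [absurd rfl hw, h2]
  · refine N.closure_subset_closure ?_ (k _ a (sdiff_subset.trans s) ha (k _ b s hb hab h2) h1)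
    rintro w ⟨⟨rfl | rfl, hw⟩, hw'⟩
    exacts [absurd rfl hw', absurd rfl hw]

include hB hfr in
lemma exch {g u x : α} (hu : u ∈ fsupp N B R g) (hx : x ∈ fsupp N B R g) (hux : u ≠ x) :
    u ∈ N.closure {g, x} := by
  refine Matroid.mem_closure_insert (fun h => (mem_fsupp.1 hu).2.2
    (N.closure_subset_closure ?_ h)) (mem_closure_fsupp hB hfr (mem_fsupp.1 hu).1 fun y hy => ?_)
  · rintro w rfl
    exact ⟨(mem_fsupp.1 hx).2.1, hux.symm⟩
  · rcases fsupp_two hfr g u x y hu hx hux hy with rfl | rfl <;> simp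

end

/-- the set whose rank is used -/
def XX (B R : Set α) (T A : Finset α) : Set α := ((A : Set α) ∩ R) ∪ (B \ (T : Set α))

omit [Fintype α] in
lemma mem_XX {B R : Set α} {T A : Finset α} {x : α} :
    x ∈ XX B R T A ↔ (x ∈ A ∧ x ∈ R) ∨ (x ∈ B ∧ x ∉ T) := by
  simp [XX]

section

variable [DecidableEq α] {B R : Set α} (hB : N.IsBase B) (hR : R ⊆ N.E)
  (hfr : ∀ g ∈ R, ∃ u ∈ B, ∃ v ∈ B, g ∈ N.closure {u, v})

omit [DecidableEq α] [Fintype α] in
include hB hR in
lemma XX_ground (T A : Finset α) : XX B R T A ⊆ N.E := fun _ hx =>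
  (mem_XX.1 hx).elim (fun h => hR h.2) fun h => hB.subset_ground h.1

omit [DecidableEq α] in
include hB hR hfr in
lemma loc_le (T A A' : Finset α) (h : ∀ g, (∃ u ∈ T, u ∈ fsupp N B R g) → g ∈ A → g ∈ A') :
    rk N (XX B R T A) ≤ rk N (XX B R T A') := by
  refine rk_le_of_closure N fun g hg => ?_
  rcases mem_XX.1 hg with hg | hg
  · by_cases ht : ∃ u ∈ T, u ∈ fsupp N B R g
    · exact N.subset_closure _ (XX_ground hB hR T A') (mem_XX.2 (Or.inl ⟨h g ht hg.1, hg.2⟩))
    · exact mem_closure_fsupp hB hfr hg.2 fun u hu =>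
        mem_XX.2 (Or.inr ⟨(mem_fsupp.1 hu).2.1, fun h => ht ⟨u, h, hu⟩⟩)
  · exact N.subset_closure _ (XX_ground hB hR T A') (mem_XX.2 (Or.inr hg))

omit [Fintype α] in
lemma XX_anti (u : α) (T A : Finset α) : XX B R (insert u T) A ⊆ XX B R T A := fun x hx => by
  simp only [mem_XX, Finset.mem_insert] at hx ⊢
  tauto

omit [Fintype α] in
lemma XX_insert (u : α) (T A : Finset α) : XX B R T A ⊆ insert u (XX B R (insert u T) A) :=
  fun x hx => by
    simp only [mem_XX, Finset.mem_insert, mem_insert_iff] at hx ⊢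
    tauto

include hB hR hfr in
lemma add_rk (T1 T2 A : Finset α) (hd : Disjoint T1 T2)
    (h : ∀ g ∈ A, ∀ u ∈ T1, ∀ v ∈ T2, u ∈ fsupp N B R g → v ∉ fsupp N B R g) :
    rk N (XX B R (T1 ∪ T2) A) + B.ncard = rk N (XX B R T1 A) + rk N (XX B R T2 A) := by
  set A1 := A.filter fun g => ∃ u ∈ T1, u ∈ fsupp N B R g with hA1
  set A2 := A.filter fun g => ¬ ∃ u ∈ T1, u ∈ fsupp N B R g with hA2
  have e1 : rk N (XX B R T1 A) = rk N (XX B R T1 A1) :=
    (loc_le hB hR hfr _ _ _ fun g hg hA => Finset.mem_filter.2 ⟨hA, hg⟩).antisymm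
      (loc_le hB hR hfr _ _ _ fun g _ hA => (Finset.mem_filter.1 hA).1)
  have e2 : rk N (XX B R T2 A) = rk N (XX B R T2 A2) :=
    (loc_le hB hR hfr _ _ _ fun g ⟨v, hv, hv'⟩ hA => Finset.mem_filter.2
      ⟨hA, fun ⟨u, hu, hu'⟩ => h g hA u hu v hv hu' hv'⟩).antisymm
      (loc_le hB hR hfr _ _ _ fun g _ hA => (Finset.mem_filter.1 hA).1)
  have hd' : ∀ x, x ∈ T1 → x ∉ T2 := fun x hx => Finset.disjoint_left.1 hd hx
  have sB : ∀ Y : Set α, Y ⊆ B → Y ⊆ N.closure Y := fun Y hY =>
    N.subset_closure Y (hY.trans hB.subset_ground)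
  have p1 : XX B R (T1 ∪ T2) A1 ⊆ N.closure (B \ T2) := fun g hg => by
    rcases mem_XX.1 hg with hg | hg
    · obtain ⟨hA, u, hu, hu'⟩ := Finset.mem_filter.1 hg.1
      exact mem_closure_fsupp hB hfr hg.2 fun v hv =>
        ⟨(mem_fsupp.1 hv).2.1, fun hv' => h g hA u hu v hv' hu' hv⟩
    · exact sB _ sdiff_subset ⟨hg.1, fun h => hg.2 (Finset.mem_union_right _ h)⟩
  have p2 : XX B R (T1 ∪ T2) A2 ⊆ N.closure (B \ T1) := fun g hg => by
    rcases mem_XX.1 hg with hg | hg
    · exact mem_closure_fsupp hB hfr hg.2 fun v hv =>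
        ⟨(mem_fsupp.1 hv).2.1, fun hv' => (Finset.mem_filter.1 hg.1).2 ⟨v, hv', hv⟩⟩
    · exact sB _ sdiff_subset ⟨hg.1, fun h => hg.2 (Finset.mem_union_left _ h)⟩
  have split : ∀ x, x ∈ A ↔ x ∈ A1 ∨ x ∈ A2 := fun x => by
    simp only [hA1, hA2, Finset.mem_filter, ← and_or_left, _root_.em, and_true]
  have r1 : rk N (N.closure (B \ T1)) = (B \ T1).ncard := by
    rw [rk_closure, rk_sub_base hB sdiff_subset]
  have r2 : rk N (N.closure (B \ T2)) = (B \ T2).ncard := by
    rw [rk_closure, rk_sub_base hB sdiff_subset]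
  have rB : rk N B = B.ncard := rk_sub_base hB Subset.rfl
  have r0 : rk N (B \ (T1 ∪ T2 : Finset α)) = (B \ (T1 ∪ T2 : Finset α)).ncard :=
    rk_sub_base hB sdiff_subset
  have c1 : (B \ T1).ncard + (B \ T2).ncard = B.ncard + (B \ (T1 ∪ T2 : Finset α)).ncard := by
    rw [← ncard_union_add_ncard_inter]
    congr 2
    · ext x
      simp only [mem_union, mem_sdiff, Finset.mem_coe]
      have := hd' x
      tauto
    · ext x
      simp only [mem_inter_iff, mem_sdiff, Finset.mem_coe, Finset.mem_union]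
      tauto
  have i1 := rk_sm N (Y := XX B R (T1 ∪ T2) A) (Z := N.closure (B \ T1)) (U := XX B R T1 A1)
    (I := XX B R (T1 ∪ T2) A2)
    (fun x hx => (mem_XX.1 hx).elim
      (fun h => Or.inl (mem_XX.2 (Or.inl ⟨(split x).2 (Or.inl h.1), h.2⟩)))
      fun h => Or.inr (sB _ sdiff_subset h))
    (fun x hx => mem_XX.2 ((mem_XX.1 hx).imp_left fun h => ⟨(split x).2 (Or.inr h.1), h.2⟩)) p2
  have i2 := rk_sm N (Y := XX B R (T1 ∪ T2) A2) (Z := B \ T2) (U := XX B R T2 A2)
    (I := B \ (T1 ∪ T2 : Finset α))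
    (fun x hx => (mem_XX.1 hx).elim (fun h => Or.inl (mem_XX.2 (Or.inl h))) fun h => Or.inr h)
    (fun x hx => mem_XX.2 (Or.inr hx))
    (fun x hx => ⟨hx.1, fun h => hx.2 (Finset.mem_union_right _ h)⟩)
  have i3 := rk_sm N (Y := XX B R (T1 ∪ T2) A1) (Z := XX B R (T1 ∪ T2) A2)
    (U := XX B R (T1 ∪ T2) A) (I := B \ (T1 ∪ T2 : Finset α))
    (fun x hx => (mem_XX.1 hx).elim
      (fun h => ((split x).1 h.1).imp (fun h' => mem_XX.2 (Or.inl ⟨h', h.2⟩))
        fun h' => mem_XX.2 (Or.inl ⟨h', h.2⟩))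
      fun h => Or.inl (mem_XX.2 (Or.inr h)))
    (fun x hx => mem_XX.2 (Or.inr hx)) (fun x hx => mem_XX.2 (Or.inr hx))
  have i4 := rk_sm N (Y := XX B R T1 A1) (Z := N.closure (B \ T2)) (U := B)
    (I := XX B R (T1 ∪ T2) A1)
    (fun x hx => by
      by_cases h1 : x ∈ T1
      · exact Or.inr (sB _ sdiff_subset ⟨hx, hd' x h1⟩)
      · exact Or.inl (mem_XX.2 (Or.inr ⟨hx, h1⟩)))
    (fun x hx => mem_XX.2 ((mem_XX.1 hx).imp_right
      fun h => ⟨h.1, fun h' => h.2 (Finset.mem_union_left _ h')⟩)) p1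
  have i5 := rk_sm N (Y := XX B R T2 A2) (Z := N.closure (B \ T1)) (U := B)
    (I := XX B R (T1 ∪ T2) A2)
    (fun x hx => by
      by_cases h1 : x ∈ T2
      · exact Or.inr (sB _ sdiff_subset ⟨hx, fun h => hd' x h h1⟩)
      · exact Or.inl (mem_XX.2 (Or.inr ⟨hx, h1⟩)))
    (fun x hx => mem_XX.2 ((mem_XX.1 hx).imp_right
      fun h => ⟨h.1, fun h' => h.2 (Finset.mem_union_right _ h')⟩)) p2
  have r3 : rk N (B \ T2) = (B \ T2).ncard := rk_sub_base hB sdiff_subset
  omega

/-- the wired cluster counts of a framed matroid -/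
noncomputable def frameOf : Frame α α where
  supp := fsupp N B R
  d T A := B.ncard - rk N (XX B R T A)
  two := fsupp_two hfr
  d_empty A := by
    have h1 := rk_mono N (X := B) (Y := XX B R ∅ A) fun x hx => mem_XX.2 (Or.inr ⟨hx, by simp⟩)
    have h2 : rk N B = B.ncard := rk_sub_base hB Subset.rfl
    omega
  loc T A A' h := by
    rw [(loc_le hB hR hfr T A A' fun g hg => (h g hg).1).antisymm
      (loc_le hB hR hfr T A' A fun g hg => (h g hg).2)]
  wire T A g u x hg hu hx hxT := by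
    have hux : u ≠ x := fun h => hxT (h ▸ Finset.mem_insert_self _ _)
    have h1 : u ∈ N.closure (XX B R (insert u T) A) := by
      refine N.closure_subset_closure ?_ (exch hB hfr hu hx hux)
      rintro w (rfl | rfl)
      · exact mem_XX.2 (Or.inl ⟨hg, (mem_fsupp.1 hu).1⟩)
      · exact mem_XX.2 (Or.inr ⟨(mem_fsupp.1 hx).2.1, hxT⟩)
    rw [(rk_mono N (XX_anti u T A)).antisymm (rk_le_of_closure N ((XX_insert u T A).trans
      (insert_subset h1 (N.subset_closure _ (XX_ground hB hR _ _)))))]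
  add T1 T2 A hd h := by
    have h1 := add_rk hB hR hfr T1 T2 A hd h
    have h2 := rk_le_base hB (XX B R T1 A)
    have h3 := rk_le_base hB (XX B R T2 A)
    have h4 := rk_le_base hB (XX B R (T1 ∪ T2) A)
    omega
  step T A u := by
    have h1 := rk_mono N (XX_anti (B := B) (R := R) u T A)
    have h2 := (rk_mono N (XX_insert (B := B) (R := R) u T A)).trans (rk_insert_le N _ _)
    have h3 := rk_le_base hB (XX B R T A)
    omega
  br1 T A g u v huv huT hvT hu hv h := by
    have huB := (mem_fsupp.1 hu).2.1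
    have hvB := (mem_fsupp.1 hv).2.1
    have hgR := (mem_fsupp.1 hu).1
    have h1 : u ∈ N.closure (XX B R (insert u (insert v T)) A) := by
      by_contra hc
      have a1 := rk_insert_eq N (hB.subset_ground huB) hc
      have a2 := rk_mono N (X := insert u (XX B R (insert u (insert v T)) A))
        (Y := XX B R (insert v T) A)
        (insert_subset (mem_XX.2 (Or.inr ⟨huB, by simp [huv, huT]⟩)) (XX_anti _ _ _))
      have a3 := rk_le_base hB (XX B R (insert v T) A)
      omega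
    have s1 : XX B R (insert u (insert v T)) A ⊆ XX B R (insert u (insert v T)) (insert g A) :=
      fun x hx => mem_XX.2 ((mem_XX.1 hx).imp_left fun h => ⟨Finset.mem_insert_of_mem h.1, h.2⟩)
    have h2 := N.closure_subset_closure s1 h1
    have h3 : v ∈ N.closure (XX B R (insert u (insert v T)) (insert g A)) := by
      refine Matroid.closure_subset_closure_of_subset_closure ?_ (exch hB hfr hv hu huv.symm)
      rintro w (rfl | rfl)
      · exact N.subset_closure _ (XX_ground hB hR _ _)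
          (mem_XX.2 (Or.inl ⟨Finset.mem_insert_self _ _, hgR⟩))
      · exact h2
    have a1 : rk N (XX B R T A) ≤ rk N (XX B R (insert u (insert v T)) (insert g A)) := by
      refine rk_le_of_closure N ((XX_insert v T A).trans (insert_subset h3
        ((XX_insert u _ A).trans (insert_subset h2 (s1.trans ?_)))))
      exact N.subset_closure _ (XX_ground hB hR _ _)
    have a2 : rk N (XX B R (insert u (insert v T)) (insert g A)) ≤ rk N (XX B R T A) := by
      refine rk_le_of_closure N fun x hx => ?_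
      by_cases hxg : x = g
      · subst hxg
        refine mem_closure_fsupp hB hfr hgR fun y hy => mem_XX.2 (Or.inr ?_)
        rcases fsupp_two hfr x u v y hu hv huv hy with rfl | rfl
        exacts [⟨huB, huT⟩, ⟨hvB, hvT⟩]
      · refine N.subset_closure _ (XX_ground hB hR _ _) ?_
        simp only [mem_XX, Finset.mem_insert, hxg, false_or] at hx ⊢
        tauto
    rw [a1.antisymm a2]
  estep T A g := by
    have h1 := (rk_mono N (X := XX B R T (insert g A)) (Y := insert g (XX B R T A)) fun x hx => by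
      simp only [mem_XX, Finset.mem_insert, mem_insert_iff] at hx ⊢
      tauto).trans (rk_insert_le N _ _)
    omega

include hB hR hfr in
theorem ncor_pos {e f : α} (heB : e ∈ B) (hfB : f ∈ B) (heR : e ∈ R) (hfR : f ∈ R) (hef : e ≠ f)
    {q : ℝ} (h0 : 0 < q) (h1 : q ≤ 1) {v : α → ℝ} (hv : ∀ g, 0 ≤ v g) :
    NCor e f fun A => W v A * q ^ (B.ncard - rk N ((A : Set α) ∩ R)) := by
  have k : ∀ e ∈ B, e ∈ R → ∀ T A : Finset α, XX B R T (insert e A) = XX B R (T.erase e) A :=
    fun e h1 h2 T A => by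
      ext x
      simp only [mem_XX, Finset.mem_insert, Finset.mem_erase]
      by_cases hx : x = e
      · simp [hx, h1, h2]
      · simp [hx]
  have := (frameOf hB hR hfr).ncor h0 h1 hv Finset.univ (Finset.mem_univ f) hef hef
    (fun T _ A => congrArg (fun X => B.ncard - rk N X) (k e heB heR T A))
    (fun T _ A => congrArg (fun X => B.ncard - rk N X) (k f hfB hfR T A))
  simpa [frameOf, XX] using this

include hB hR hfr in
theorem ncor_all {e f : α} (heB : e ∈ B) (hfB : f ∈ B) (heR : e ∈ R) (hfR : f ∈ R) (hef : e ≠ f)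
    {z : α → ℝ} (hz : ∀ g, 0 ≤ z g) {s t : ℝ} (hs : 0 ≤ s) (ht : 0 ≤ t) (hst : s * t ≤ 1) :
    NCor e f fun A => if (A : Set α) ⊆ R then
      s ^ (A.card - rk N A) * t ^ (rk N R - rk N A) * ∏ x ∈ A, z x else 0 := by
  have pos : ∀ s t : ℝ, 0 < s → 0 < t → s * t ≤ 1 → NCor e f fun A => if (A : Set α) ⊆ R then
      s ^ (A.card - rk N A) * t ^ (rk N R - rk N A) * ∏ x ∈ A, z x else 0 := fun s t hs ht hst => by
    refine (ncor_pos hB hR hfr heB hfB heR hfR hef (mul_pos hs ht) hst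
      (v := fun g => if g ∈ R then s * z g else 0) fun g => ?_).of_smul
      (c := s ^ B.ncard * t ^ (B.ncard - rk N R)) (by positivity) fun A => ?_
    · split_ifs
      exacts [mul_nonneg hs.le (hz g), le_rfl]
    · by_cases hA : (A : Set α) ⊆ R
      · have a1 := rk_le_ncard N (A : Set α)
        rw [ncard_coe_finset] at a1
        have a2 := rk_mono N hA
        have a3 := rk_le_base hB R
        rw [if_pos hA, inter_eq_left.2 hA, W,
          Finset.prod_congr rfl fun g hg => if_pos (hA hg), Finset.prod_mul_distrib,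
          Finset.prod_const, mul_pow]
        obtain ⟨i, hi⟩ := Nat.exists_eq_add_of_le a1
        obtain ⟨j, hj⟩ := Nat.exists_eq_add_of_le a2
        obtain ⟨k, hk⟩ := Nat.exists_eq_add_of_le a3
        rw [hk, hj, hi, add_assoc]
        simp only [Nat.add_sub_cancel_left]
        rw [← add_assoc, Nat.add_sub_cancel_left]
        ring
      · rw [if_neg hA, mul_zero, W]
        obtain ⟨g, hg, hg'⟩ := not_subset.1 hA
        rw [Finset.prod_eq_zero hg (if_neg hg'), zero_mul]
  have pos2 : ∀ s t : ℝ, 0 < s → 0 ≤ t → s * t ≤ 1 → NCor e f fun A => if (A : Set α) ⊆ R then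
      s ^ (A.card - rk N A) * t ^ (rk N R - rk N A) * ∏ x ∈ A, z x else 0 := fun s t hs ht hst => by
    rcases ht.lt_or_eq with ht | rfl
    · exact pos s t hs ht hst
    have := NCor.limit (e := e) (f := f) (fun A => if (A : Set α) ⊆ R then
      s ^ (A.card - rk N A) * s⁻¹ ^ (rk N R - rk N A) * ∏ x ∈ A, z x else 0)
      (fun A => rk N R - rk N A) fun τ a1 a2 => by
        convert pos s (s⁻¹ * τ) hs (by positivity) (by rwa [← mul_assoc, mul_inv_cancel₀ hs.ne',
          one_mul]) using 2 with A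
        split_ifs
        · rw [mul_pow]; ring
        · simp
    convert this using 2 with A
    by_cases hk : rk N R - rk N A = 0 <;> simp [hk]
  rcases hs.lt_or_eq with hs | rfl
  · exact pos2 s t hs ht hst
  have p : 0 < t + 1 := by linarith
  have := NCor.limit (e := e) (f := f) (fun A => if (A : Set α) ⊆ R then
    (t + 1)⁻¹ ^ (A.card - rk N A) * t ^ (rk N R - rk N A) * ∏ x ∈ A, z x else 0)
    (fun A => A.card - rk N A) fun τ a1 a2 => by
      convert pos2 ((t + 1)⁻¹ * τ) t (by positivity) ht (by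
        rw [mul_assoc, inv_mul_le_iff₀ p]; nlinarith) using 2 with A
      split_ifs
      · rw [mul_pow]; ring
      · simp
  convert this using 2 with A
  by_cases hk : A.card - rk N A = 0 <;> simp [hk]

end

end Pool.Agent.Lib.MP_c72610_co.Poly
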