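import Pool.Agent.Lib.MP_c72610_co.Sums

set_option autoImplicit false

namespace Pool.Agent.Lib.MP_c72610_co

open Classical

section geom
variable {α : Type*} {M : Matroid α}

lemma cl_mem {X : Set α} {a : α} (h : a ∈ X) (hE : a ∈ M.E) : a ∈ M.closure X :=
  M.mem_closure_of_mem' h hE

lemma cl_pair_eq {a b g : α} (h1 : g ∈ M.closure {a, b}) (h2 : g ∉ M.closure {a}) :
    M.closure {a, g} = M.closure {a, b} := by
  rw [Set.pair_comm a g, Set.pair_comm a b]
  rw [Set.pair_comm a b] at h1
  exact Matroid.closure_insert_congr ⟨h1, h2⟩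

lemma cl_single_eq {a g : α} (h1 : g ∈ M.closure {a}) (h2 : g ∉ M.closure ∅) :
    M.closure {g} = M.closure {a} := by
  have := Matroid.closure_insert_congr (M := M) (e := g) (f := a) (X := ∅) ⟨by simpa using h1, h2⟩
  simpa using this

lemma cl_left (a b : α) : M.closure {a} ⊆ M.closure {a, b} :=
  M.closure_subset_closure (by simp)

lemma cl_right (a b : α) : M.closure {b} ⊆ M.closure {a, b} :=
  M.closure_subset_closure (by simp)

lemma cl_empty (X : Set α) : M.closure ∅ ⊆ M.closure X :=
  M.closure_subset_closure (by simp)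

lemma indep3 {a b c : α} (ha : a ∈ M.E) (hb : b ∈ M.E) (hc : c ∈ M.E) (h1 : a ∉ M.closure ∅)
    (h2 : b ∉ M.closure {a}) (h3 : c ∉ M.closure {a, b}) :
    M.Indep {c, b, a} ∧ ({c, b, a} : Set α).encard = 3 := by
  have nb : b ∉ ({a} : Set α) := fun h => h2 (cl_mem h hb)
  have nc : c ∉ ({b, a} : Set α) := fun h => h3 (cl_mem (by rwa [Set.pair_comm]) hc)
  have i1 : M.Indep {a} := by
    have := (M.empty_indep.insert_indep_iff_of_notMem (e := a) (by simp)).2 ⟨ha, h1⟩
    simpa using this
  have i2 : M.Indep {b, a} := (i1.insert_indep_iff_of_notMem nb).2 ⟨hb, h2⟩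
  have i3 : M.Indep {c, b, a} :=
    (i2.insert_indep_iff_of_notMem nc).2 ⟨hc, by rwa [Set.pair_comm]⟩
  refine ⟨i3, ?_⟩
  rw [Set.encard_insert_of_notMem nc, Set.encard_insert_of_notMem nb, Set.encard_singleton]
  rfl

lemma span3 (hr : M.eRank ≤ 3) {a b c : α} {X : Set α} (hX : X ⊆ M.E) (ha : a ∈ X) (hb : b ∈ X)
    (hc : c ∈ X) (h1 : a ∉ M.closure ∅) (h2 : b ∉ M.closure {a}) (h3 : c ∉ M.closure {a, b}) :
    M.Spanning X := by
  obtain ⟨i3, h4⟩ := indep3 (hX ha) (hX hb) (hX hc) h1 h2 h3
  have hB : M.IsBase {c, b, a} :=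
    i3.isBase_of_eRk_ge (Set.toFinite _) (by rw [i3.eRk_eq_encard, h4]; exact hr)
  exact hB.spanning.superset (by simp [Set.insert_subset_iff, ha, hb, hc]) hX

lemma nspan2 (hr : 3 ≤ M.eRank) {a b : α} {X : Set α} (hX : X ⊆ M.closure {a, b}) :
    ¬ M.Spanning X := by
  intro h
  have h1 : M.eRk X ≤ 2 := by
    refine (M.eRk_mono hX).trans ?_
    rw [M.eRk_closure_eq]
    refine (M.eRk_le_encard _).trans ?_
    refine (Set.encard_insert_le _ _).trans ?_
    rw [Set.encard_singleton]; rfl
  rw [h.eRk_eq] at h1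
  exact absurd (hr.trans h1) (by decide)

lemma loop_of_two {e f g : α} (he : e ∉ M.closure {f}) (heE : e ∈ M.E) (h1 : g ∈ M.closure {e})
    (h2 : g ∈ M.closure {f}) : g ∈ M.closure ∅ := by
  by_contra h
  apply he
  rw [← cl_single_eq h2 h, cl_single_eq h1 h]
  exact cl_mem rfl heE

lemma same_cell {e f y y' : α} (hfE : f ∈ M.E) (hyE : y ∈ M.E) (hy'E : y' ∈ M.E)
    (hf : f ∉ M.closure {e}) (hy' : y' ∉ M.closure {e, f})
    (h1 : M.closure {e, y} = M.closure {e, y'}) (h2 : M.closure {f, y} = M.closure {f, y'}) :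
    y ∈ M.closure {y'} := by
  by_contra h
  have a1 : y ∈ M.closure {y', e} := by
    rw [Set.pair_comm, ← h1]; exact cl_mem (by simp) hyE
  have a2 : y ∈ M.closure {y', f} := by
    rw [Set.pair_comm, ← h2]; exact cl_mem (by simp) hyE
  have a3 : f ∈ M.closure {e, y'} := by
    rw [Set.pair_comm, ← cl_pair_eq a1 h, cl_pair_eq a2 h]; exact cl_mem (by simp) hfE
  apply hy'
  rw [cl_pair_eq a3 hf]; exact cl_mem (by simp) hy'E

end geom

lemma T_le_one {a b c d : Prop} (h1 : d → b) :
    rind a - rind b - rind c + rind d ≤ 1 := by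
  have := rind_mono h1; have := rind_le_one a; have := rind_nonneg c; linarith

lemma T_le_zero {a b c d : Prop} (h1 : d → b) (h2 : d → c) (h3 : b → a) (h4 : c → a)
    (h : ¬ (a ∧ ¬ b ∧ ¬ c)) : rind a - rind b - rind c + rind d ≤ 0 := by
  unfold rind
  by_cases a <;> by_cases b <;> by_cases c <;> by_cases d <;> simp_all

lemma T_le_neg {a b c d : Prop} (h1 : b) (h2 : c) (h3 : ¬ d) :
    rind a - rind b - rind c + rind d ≤ -1 := by
  rw [rind_pos h1, rind_pos h2, rind_neg h3]; have := rind_le_one a; linarith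

lemma h4_logic {a b c d lp h px pd : Prop} (h1 : d → b) (h2 : d → c) (h3 : b → a) (h4 : c → a)
    (hX : a → ¬ b → ¬ c → lp ∧ px) (hU1 : lp → pd → b ∧ c ∧ ¬ d) (hU2 : h → px → b ∧ c ∧ ¬ d)
    (e1 : lp → ¬ h) (e2 : px → ¬ pd) :
    rind a - rind b - rind c + rind d ≤ rind lp * (rind px - rind pd) - rind h * rind px := by
  unfold rind
  by_cases a <;> by_cases b <;> by_cases c <;> by_cases d <;> by_cases lp <;> by_cases h <;>
    by_cases px <;> by_cases pd <;> simp_all

lemma h2_logic {a b s p : Prop} (h3 : b → a) (h : s → p → a ∧ ¬ b) :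
    rind s * rind p ≤ rind a - rind b := by
  unfold rind
  by_cases a <;> by_cases b <;> by_cases s <;> by_cases p <;> simp_all

open Finset

section main
variable {α : Type*} [Fintype α] [DecidableEq α] (M : Matroid α)

/-- indicator of being spanning -/
noncomputable def sI (X : Finset α) : ℝ := rind (M.Spanning (X : Set α))

lemma nondeg (hr : M.eRank ≤ 3) (z : α → ℝ) (hz : ∀ x, 0 ≤ z x) {e f : α} (heE : e ∈ M.E)
    (hfE : f ∈ M.E) (he : e ∉ M.closure {f}) (hf : f ∉ M.closure {e}) (G : Finset α)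
    (hG : ∀ x, x ∈ G ↔ x ∈ M.E ∧ x ≠ e ∧ x ≠ f) :
    gs z G (fun X => sI M (insert e (insert f X))) * gs z G (sI M) ≤
      gs z G (fun X => sI M (insert e X)) * gs z G (fun X => sI M (insert f X)) := by
  set L := G.filter fun x => x ∈ M.closure {e, f} with hL
  set O := G.filter fun x => ¬ x ∈ M.closure {e, f} with hO
  set Le := L.filter fun x => x ∈ M.closure {e} with hLe
  set Lf := L.filter fun x => x ∈ M.closure {f} with hLf
  have hGe : G = L ∪ O := (filter_union_filter_not_eq _ _).symm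
  have hLO : Disjoint L O := disjoint_filter_filter_not _ _ _
  have mL : ∀ x ∈ L, x ∈ M.E ∧ x ∈ M.closure {e, f} := fun x hx => by
    rw [hL, mem_filter, hG] at hx; exact ⟨hx.1.1, hx.2⟩
  have mO : ∀ x ∈ O, x ∈ M.E ∧ x ∉ M.closure {e, f} := fun x hx => by
    rw [hO, mem_filter, hG] at hx; exact ⟨hx.1.1, hx.2⟩
  have mLe : ∀ x, x ∈ Le ↔ x ∈ L ∧ x ∈ M.closure {e} := fun x => by rw [hLe, mem_filter]
  have mLf : ∀ x, x ∈ Lf ↔ x ∈ L ∧ x ∈ M.closure {f} := fun x => by rw [hLf, mem_filter]
  have he0 : e ∉ M.closure ∅ := fun h => he (cl_empty _ h)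
  have hf0 : f ∉ M.closure ∅ := fun h => hf (cl_empty _ h)
  have hloop : ∀ x ∈ Le ∩ Lf, x ∈ M.closure ∅ := fun x hx => by
    rw [mem_inter, mLe, mLf] at hx; exact loop_of_two he heE hx.1.2 hx.2.2
  have sE : ∀ X ⊆ L, ∀ Y ⊆ O, ((X ∪ Y : Finset α) : Set α) ⊆ M.E := by
    intro X hX Y hY x hx
    simp only [coe_union, Set.mem_union, mem_coe] at hx
    rcases hx with h | h
    · exact (mL x (hX h)).1
    · exact (mO x (hY h)).1
  have sE1 : ∀ {a : α} {Z : Finset α}, a ∈ M.E → (Z : Set α) ⊆ M.E →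
      ((insert a Z : Finset α) : Set α) ⊆ M.E := by
    intro a Z ha hZ; rw [coe_insert]; exact Set.insert_subset ha hZ
  have m1 : ∀ {a : α} {Z : Finset α}, a ∈ M.E → M.Spanning (Z : Set α) →
      M.Spanning ((insert a Z : Finset α) : Set α) := by
    intro a Z ha hZ
    exact hZ.superset (by rw [coe_insert]; exact Set.subset_insert _ _) (sE1 ha hZ.subset_ground)
  have m2 : ∀ {Z : Finset α}, M.Spanning ((insert e Z : Finset α) : Set α) →
      M.Spanning ((insert e (insert f Z) : Finset α) : Set α) := by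
    intro Z hZ
    rw [insert_comm]; exact m1 hfE hZ
  have hfe : M.closure {f, e} = M.closure {e, f} := by rw [Set.pair_comm]
  have e1 : ∀ X : Finset α, X ⊆ Le ∩ Lf →
      ¬ ((X \ (Le ∩ Lf)).card = 1 ∧ X \ (Le ∩ Lf) ⊆ L \ (Le ∪ Lf)) := by
    intro X hX h
    rw [sdiff_eq_empty_iff_subset.2 hX] at h
    simp at h
  have e3 : ∀ X : Finset α, ((X \ (Le ∩ Lf)).card = 1 ∧ X \ (Le ∩ Lf) ⊆ L \ (Le ∪ Lf)) →
      ∃ g ∈ X, g ∈ M.closure {e, f} ∧ g ∉ M.closure {e} ∧ g ∉ M.closure {f} ∧
        ∀ x ∈ X, x ∈ M.closure {g} := by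
    intro X h
    obtain ⟨g, hg⟩ := card_eq_one.1 h.1
    have hg1 : g ∈ X \ (Le ∩ Lf) := by rw [hg]; simp
    have hg2 := h.2 hg1
    simp only [mem_sdiff, mem_union, mLe, mLf] at hg2
    refine ⟨g, (mem_sdiff.1 hg1).1, (mL g hg2.1).2, by tauto, by tauto, fun x hx => ?_⟩
    by_cases hx' : x ∈ Le ∩ Lf
    · exact cl_empty _ (hloop x hx')
    · have : x ∈ X \ (Le ∩ Lf) := mem_sdiff.2 ⟨hx, hx'⟩
      rw [hg, mem_singleton] at this
      rw [this]; exact cl_mem rfl (mL g hg2.1).1
  rw [hGe]
  by_cases hO0 : O = ∅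
  · have hall : M.E ⊆ M.closure {e, f} := by
      intro x hx
      by_contra h
      have : x ∈ O := by
        rw [hO, mem_filter, hG]
        refine ⟨⟨hx, ?_, ?_⟩, h⟩
        · rintro rfl; exact h (cl_mem (by simp) hx)
        · rintro rfl; exact h (cl_mem (by simp) hx)
      rw [hO0] at this; simp at this
    have sp2 : ∀ {a b : α} {Z : Finset α}, (Z : Set α) ⊆ M.E → a ∈ Z → b ∈ Z →
        M.closure {a, b} = M.closure {e, f} → M.Spanning (Z : Set α) := by
      intro a b Z hZ ha hb h
      rw [Matroid.spanning_iff_ground_subset_closure hZ]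
      refine hall.trans ?_
      rw [← h]
      exact M.closure_subset_closure (by simp [Set.insert_subset_iff, ha, hb])
    have ns1 : ∀ {a b : α} {Z : Finset α}, b ∈ M.E → b ∉ M.closure {a} →
        (Z : Set α) ⊆ M.closure {a} → ¬ M.Spanning (Z : Set α) := by
      intro a b Z hb hba hZ h
      apply hba
      apply Matroid.closure_subset_closure_of_subset_closure hZ
      rw [h.closure_eq]; exact hb
    refine abstract_reduction z hz L O Le Lf hLO (filter_subset _ _) (filter_subset _ _) _ _ _ _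
      (fun _ => rind True) (fun _ => rind True) (fun _ => rind True) (fun _ => rind True)
      (fun _ => rind False)
      (fun _ => rind_nonneg _) (fun _ => rind_nonneg _) (fun _ => rind_nonneg _)
      (fun _ => rind_nonneg _) (fun _ => rind_nonneg _) ?_ ?_ ?_ ?_ ?_
    · rw [hO0]; simp [gs, rind]
    · intro X hX Y hY
      exact rind_congr (iff_true_intro
        (sp2 (sE1 heE (sE1 hfE (sE X hX Y hY))) (by simp) (by simp) rfl))
    · intro X hX Y hY
      refine h2_logic (m1 heE) fun h _ =>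
        ⟨sp2 (sE1 heE (sE1 hfE (sE X hX Y hY))) (by simp) (by simp) rfl, ns1 heE he ?_⟩
      rw [hO0, subset_empty] at hY
      rw [hY, union_empty, coe_insert]
      exact Set.insert_subset (cl_mem rfl hfE) fun x hx => ((mLf x).1 (h hx)).2
    · intro X hX Y hY
      refine h2_logic m2 fun h _ =>
        ⟨sp2 (sE1 heE (sE1 hfE (sE X hX Y hY))) (by simp) (by simp) rfl, ns1 hfE hf ?_⟩
      rw [hO0, subset_empty] at hY
      rw [hY, union_empty, coe_insert]
      exact Set.insert_subset (cl_mem rfl heE) fun x hx => ((mLe x).1 (h hx)).2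
    · intro X hX Y hY
      have hE := sE X hX Y hY
      rw [hO0, subset_empty] at hY
      subst hY
      rw [union_empty] at hE ⊢
      refine h4_logic (m1 heE) (m1 hfE) m2 (m1 heE) ?_ (fun _ h => h.elim) ?_ (e1 X) (by simp)
      · intro _ h2 h3
        refine ⟨fun g hg => ?_, trivial⟩
        rw [mem_inter, mLe, mLf]
        refine ⟨⟨hX hg, ?_⟩, hX hg, ?_⟩
        · by_contra h
          exact h2 (sp2 (sE1 heE hE) (by simp) (mem_insert_of_mem hg)
            (cl_pair_eq (mL g (hX hg)).2 h))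
        · by_contra h
          exact h3 (sp2 (sE1 hfE hE) (by simp) (mem_insert_of_mem hg)
            ((cl_pair_eq (hfe ▸ (mL g (hX hg)).2) h).trans hfe))
      · intro h _
        obtain ⟨g, hg, g1, g2, g3, g4⟩ := e3 X h
        refine ⟨sp2 (sE1 heE hE) (by simp) (mem_insert_of_mem hg) (cl_pair_eq g1 g2),
          sp2 (sE1 hfE hE) (by simp) (mem_insert_of_mem hg)
            ((cl_pair_eq (hfe ▸ g1) g3).trans hfe), ns1 heE ?_ g4⟩
        intro h'
        apply g2
        rw [cl_single_eq h' he0]; exact cl_mem rfl (hE hg)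
  · obtain ⟨y0, hy0⟩ := nonempty_iff_ne_empty.2 hO0
    have hr3 : 3 ≤ M.eRank := by
      obtain ⟨i3, h4⟩ := indep3 heE hfE (mO y0 hy0).1 he0 hf (mO y0 hy0).2
      rw [← h4]; exact i3.encard_le_eRank
    set π : α → Set α × Set α := fun y => (M.closure {e, y}, M.closure {f, y}) with hπ
    have oe : ∀ y ∈ O, y ∉ M.closure {e} := fun y hy h => (mO y hy).2 (cl_left e f h)
    have of' : ∀ y ∈ O, y ∉ M.closure {f} := fun y hy h => (mO y hy).2 (cl_right e f h)
    have spef : ∀ X ⊆ L, ∀ Y ⊆ O, Y.Nonempty →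
        M.Spanning ((insert e (insert f (X ∪ Y)) : Finset α) : Set α) := by
      intro X hX Y hY ⟨y, hy⟩
      exact span3 hr (sE1 heE (sE1 hfE (sE X hX Y hY))) (a := e) (b := f) (c := y)
        (by simp) (by simp) (by simp [hy]) he0 hf (mO y (hY hy)).2
    have spef' : ∀ X ⊆ L, ∀ Y : Finset α,
        M.Spanning ((insert e (insert f (X ∪ Y)) : Finset α) : Set α) → Y.Nonempty := by
      intro X hX Y h
      rw [nonempty_iff_ne_empty]
      rintro rfl
      refine nspan2 hr3 (a := e) (b := f) ?_ h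
      rw [union_empty, coe_insert, coe_insert]
      exact Set.insert_subset (cl_mem (by simp) heE)
        (Set.insert_subset (cl_mem (by simp) hfE) fun x hx => (mL x (hX hx)).2)
    have cell : ∀ y ∈ O, ∀ y' ∈ O, π y = π y' → y ∈ M.closure {y'} := by
      intro y hy y' hy' h
      exact same_cell hfE (mO y hy).1 (mO y' hy').1 hf (mO y' hy').2 (congrArg Prod.fst h)
        (congrArg Prod.snd h)
    refine abstract_reduction z hz L O Le Lf hLO (filter_subset _ _) (filter_subset _ _) _ _ _ _
      (fun Y => rind (Y.image π).Nonempty)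
      (fun Y => rind ((Y.image π).Nonempty ∧ Same Prod.fst (Y.image π)))
      (fun Y => rind ((Y.image π).Nonempty ∧ Same Prod.snd (Y.image π)))
      (fun Y => rind ((Y.image π).card = 1))
      (fun Y => rind (Dg Prod.fst Prod.snd (Y.image π)))
      (fun _ => rind_nonneg _) (fun _ => rind_nonneg _) (fun _ => rind_nonneg _)
      (fun _ => rind_nonneg _) (fun _ => rind_nonneg _) ?_ ?_ ?_ ?_ ?_
    · rw [gs_push z π O (fun Y => rind Y.Nonempty),
        gs_push z π O (fun Y => rind (Y.Nonempty ∧ Same Prod.fst Y)),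
        gs_push z π O (fun Y => rind (Y.Nonempty ∧ Same Prod.snd Y)),
        gs_push z π O (fun Y => rind (Y.card = 1)),
        gs_push z π O (fun Y => rind (Dg Prod.fst Prod.snd Y))]
      exact grid_ineq _ fun p => sub_nonneg.2 (one_le_prod_one_add z hz _)
    · intro X hX Y hY
      exact rind_congr ⟨fun h => (spef' X hX Y h).image _,
        fun h => spef X hX Y hY (image_nonempty.1 h)⟩
    · intro X hX Y hY
      refine h2_logic (m1 heE) fun h h' => ⟨spef X hX Y hY (image_nonempty.1 h'.1), ?_⟩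
      obtain ⟨y, hy⟩ := image_nonempty.1 h'.1
      refine nspan2 hr3 (a := f) (b := y) ?_
      rw [coe_insert, coe_union]
      refine Set.insert_subset (cl_mem (by simp) hfE) (Set.union_subset
        (fun x hx => cl_left _ _ ((mLf x).1 (h hx)).2) fun x hx => ?_)
      have : M.closure {f, x} = M.closure {f, y} :=
        h'.2 _ (mem_image_of_mem π hx) _ (mem_image_of_mem π hy)
      rw [← this]; exact cl_mem (by simp) (mO x (hY hx)).1
    · intro X hX Y hY
      refine h2_logic m2 fun h h' => ⟨spef X hX Y hY (image_nonempty.1 h'.1), ?_⟩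
      obtain ⟨y, hy⟩ := image_nonempty.1 h'.1
      refine nspan2 hr3 (a := e) (b := y) ?_
      rw [coe_insert, coe_union]
      refine Set.insert_subset (cl_mem (by simp) heE) (Set.union_subset
        (fun x hx => cl_left _ _ ((mLe x).1 (h hx)).2) fun x hx => ?_)
      have : M.closure {e, x} = M.closure {e, y} :=
        h'.2 _ (mem_image_of_mem π hx) _ (mem_image_of_mem π hy)
      rw [← this]; exact cl_mem (by simp) (mO x (hY hx)).1
    · intro X hX Y hY
      have hE := sE X hX Y hY
      refine h4_logic (m1 heE) (m1 hfE) m2 (m1 heE) ?_ ?_ ?_ (e1 X) ?_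
      · intro h1 h2 h3
        obtain ⟨y, hy⟩ := spef' X hX Y h1
        have a1 : ∀ g ∈ X ∪ Y, g ∈ M.closure {e, y} := by
          intro g hg
          by_contra h
          exact h2 (span3 hr (sE1 heE hE) (a := e) (b := y) (c := g) (by simp) (by simp [hy])
            (by rw [coe_insert]; exact Set.mem_insert_of_mem _ hg) he0 (oe y (hY hy)) h)
        have a2 : ∀ g ∈ X ∪ Y, g ∈ M.closure {f, y} := by
          intro g hg
          by_contra h
          exact h3 (span3 hr (sE1 hfE hE) (a := f) (b := y) (c := g) (by simp) (by simp [hy])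
            (by rw [coe_insert]; exact Set.mem_insert_of_mem _ hg) hf0 (of' y (hY hy)) h)
        refine ⟨fun g hg => ?_, ?_⟩
        · rw [mem_inter, mLe, mLf]
          refine ⟨⟨hX hg, ?_⟩, hX hg, ?_⟩
          · by_contra h
            apply (mO y (hY hy)).2
            rw [← cl_pair_eq (mL g (hX hg)).2 h, cl_pair_eq (a1 g (mem_union_left _ hg)) h]
            exact cl_mem (by simp) (mO y (hY hy)).1
          · by_contra h
            apply (mO y (hY hy)).2
            rw [← hfe, ← cl_pair_eq (hfe ▸ (mL g (hX hg)).2) h,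
              cl_pair_eq (a2 g (mem_union_left _ hg)) h]
            exact cl_mem (by simp) (mO y (hY hy)).1
        · rw [card_eq_one]
          refine ⟨π y, eq_singleton_iff_unique_mem.2 ⟨mem_image_of_mem π hy, fun p hp => ?_⟩⟩
          obtain ⟨x, hx, rfl⟩ := mem_image.1 hp
          exact Prod.ext (cl_pair_eq (a1 x (mem_union_right _ hx)) (oe x (hY hx)))
            (cl_pair_eq (a2 x (mem_union_right _ hx)) (of' x (hY hx)))
      · rintro hlp ⟨p, q, hp, hq, hpq⟩
        obtain ⟨y1, hy1, rfl⟩ := mem_image.1 (show p ∈ Y.image π by rw [hpq]; simp)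
        obtain ⟨y2, hy2, rfl⟩ := mem_image.1 (show q ∈ Y.image π by rw [hpq]; simp)
        refine ⟨span3 hr (sE1 heE hE) (a := e) (b := y1) (c := y2) (by simp) (by simp [hy1])
            (by simp [hy2]) he0 (oe y1 (hY hy1))
            (fun h => hp (cl_pair_eq h (oe y2 (hY hy2))).symm),
          span3 hr (sE1 hfE hE) (a := f) (b := y1) (c := y2) (by simp) (by simp [hy1])
            (by simp [hy2]) hf0 (of' y1 (hY hy1))
            (fun h => hq (cl_pair_eq h (of' y2 (hY hy2))).symm),
          nspan2 hr3 (a := y1) (b := y2) ?_⟩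
        rw [coe_union]
        refine Set.union_subset (fun x hx => cl_empty _ (hloop x (hlp hx))) fun x hx => ?_
        have : π x ∈ Y.image π := mem_image_of_mem π hx
        rw [hpq] at this
        simp only [mem_insert, mem_singleton] at this
        rcases this with h | h
        · exact cl_left _ _ (cell x (hY hx) y1 (hY hy1) h)
        · exact cl_right _ _ (cell x (hY hx) y2 (hY hy2) h)
      · intro h h1
        obtain ⟨g, hg, g1, g2, g3, g4⟩ := e3 X h
        obtain ⟨p, hp⟩ := card_eq_one.1 h1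
        obtain ⟨y, hy, rfl⟩ := mem_image.1 (show p ∈ Y.image π by rw [hp]; simp)
        refine ⟨span3 hr (sE1 heE hE) (a := e) (b := g) (c := y) (by simp) (by simp [hg])
            (by simp [hy]) he0 g2 (by rw [cl_pair_eq g1 g2]; exact (mO y (hY hy)).2),
          span3 hr (sE1 hfE hE) (a := f) (b := g) (c := y) (by simp) (by simp [hg])
            (by simp [hy]) hf0 g3
            (by rw [cl_pair_eq (hfe ▸ g1) g3, hfe]; exact (mO y (hY hy)).2),
          nspan2 hr3 (a := g) (b := y) ?_⟩
        rw [coe_union]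
        refine Set.union_subset (fun x hx => cl_left _ _ (g4 x hx)) fun x hx => ?_
        have : π x ∈ Y.image π := mem_image_of_mem π hx
        rw [hp, mem_singleton] at this
        exact cl_right _ _ (cell x (hY hx) y (hY hy) this)
      · rintro h1 ⟨p, q, hp, _, hpq⟩
        rw [hpq] at h1
        have : p ≠ q := fun h => hp (by rw [h])
        have h2 := card_pair this
        have h3 : ({p, q} : Finset (Set α × Set α)).card = 1 := by
          rw [← h1]; congr 1; ext; simp
        omega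

end main

end Pool.Agent.Lib.MP_c72610_co
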