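import Pool.Agent.Lib.MP_c72610_co.Det

/-!
The cycle matroid of a connected multigraph, as a vector matroid: it is Rayleigh and its spanning
sets are the connected spanning subgraphs.
-/

set_option autoImplicit false

open Matrix Finset

namespace Pool.Agent.Lib.MP_c72610_co.Gr

theorem exists_vecMatroid {α V : Type} [Finite α] [AddCommGroup V] [Module ℝ V]
    (v : α → V) : ∃ M : Matroid α, M.E = Set.univ ∧ ∀ I, M.Indep I ↔ LinearIndepOn ℝ v I := by
  classical
  refine ⟨(IndepMatroid.ofFinite (E := Set.univ) Set.finite_univ (LinearIndepOn ℝ v)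
    (linearIndepOn_empty ℝ v) (fun I J hJ hIJ => hJ.mono hIJ) ?_
    (fun I _ => Set.subset_univ I)).matroid, rfl, fun I => Iff.rfl⟩
  intro I J hI hJ hlt
  by_contra hc
  push Not at hc
  have hspan : Set.range (fun j : J => v j) ≤ Submodule.span ℝ (v '' I) := by
    rintro _ ⟨⟨j, hj⟩, rfl⟩
    by_cases hjI : j ∈ I
    · exact Submodule.subset_span ⟨j, hjI, rfl⟩
    · have := hc j hj hjI
      rw [linearIndepOn_insert hjI, and_iff_right hI, not_not] at this
      exact this
  have : Fintype J := Fintype.ofFinite J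
  have : Fintype (v '' I) := ((Set.toFinite I).image v).fintype
  have h1 := linearIndependent_le_span_aux' (fun j : J => v j) hJ (v '' I) hspan
  rw [← Nat.card_eq_fintype_card, ← Nat.card_eq_fintype_card, Nat.card_coe_set_eq,
    Nat.card_coe_set_eq] at h1
  have h2 := Set.ncard_image_le (f := v) (Set.toFinite I)
  omega

section vec

variable {α V : Type} [AddCommGroup V] [Module ℝ V] {v : α → V} {M : Matroid α}

theorem span_basis (hI : ∀ I, M.Indep I ↔ LinearIndepOn ℝ v I) {I A : Set α}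
    (h : M.IsBasis' I A) : Submodule.span ℝ (v '' A) ≤ Submodule.span ℝ (v '' I) := by
  rw [Submodule.span_le]
  rintro _ ⟨g, hg, rfl⟩
  by_cases hgI : g ∈ I
  · exact Submodule.subset_span ⟨g, hgI, rfl⟩
  · have := h.insert_not_indep ⟨hg, hgI⟩
    rwa [hI, linearIndepOn_insert hgI, and_iff_right ((hI I).1 h.indep), not_not] at this

theorem isBase_iff (hI : ∀ I, M.Indep I ↔ LinearIndepOn ℝ v I)
    (htop : Submodule.span ℝ (v '' Set.univ) = ⊤) (B : Set α) :
    M.IsBase B ↔ LinearIndepOn ℝ v B ∧ Submodule.span ℝ (v '' B) = ⊤ := by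
  constructor
  · intro h
    refine ⟨(hI B).1 h.indep, top_le_iff.1 (htop ▸ span_basis hI ?_)⟩
    exact ⟨⟨h.indep, Set.subset_univ _⟩, fun J hJ hBJ => (h.eq_of_subset_indep hJ.1 hBJ).ge⟩
  · rintro ⟨h1, h2⟩
    refine ((hI B).2 h1).isBase_of_forall_insert fun g hg hi => ?_
    rw [hI, linearIndepOn_insert hg.2, h2] at hi
    exact hi.2 Submodule.mem_top

theorem spanning_iff (hE : M.E = Set.univ) (hI : ∀ I, M.Indep I ↔ LinearIndepOn ℝ v I)
    (htop : Submodule.span ℝ (v '' Set.univ) = ⊤) (A : Set α) :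
    M.Spanning A ↔ Submodule.span ℝ (v '' A) = ⊤ := by
  rw [Matroid.spanning_iff_exists_isBase_subset (hE ▸ Set.subset_univ A)]
  constructor
  · rintro ⟨B, hB, hBA⟩
    exact top_le_iff.1 (((isBase_iff hI htop B).1 hB).2 ▸ Submodule.span_mono (Set.image_mono hBA))
  · intro h
    obtain ⟨I, hIA⟩ := M.exists_isBasis' A
    exact ⟨I, (isBase_iff hI htop I).2 ⟨(hI I).1 hIA.indep, top_le_iff.1 (h ▸ span_basis hI hIA)⟩,
      hIA.subset⟩

end vec

variable {ι : Type} [Fintype ι] [DecidableEq ι] {r : ℕ}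

theorem coef_base {v : ι → Fin r → ℝ} {M : Matroid ι}
    (hI : ∀ I, M.Indep I ↔ LinearIndepOn ℝ v I) (htop : Submodule.span ℝ (v '' Set.univ) = ⊤)
    (hTU : ∀ e : Fin r → ι, (Matrix.of fun i => v (e i)).det ^ 2 ∈ ({0, 1} : Set ℝ))
    {c : Finset ι → ℝ} (h0 : ∀ S, S.card ≠ r → c S = 0)
    (hc : ∀ z, (gram v z).det = ∑ S, c S * ∏ g ∈ S, z g) (S : Finset ι)
    [Decidable (M.IsBase (S : Set ι))] : c S = if M.IsBase (S : Set ι) then 1 else 0 := by
  by_cases hS : S.card = r
  · let e : Fin r → ι := fun i => ((S.equivFinOfCardEq hS).symm i : ι)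
    have he : Function.Injective e :=
      Subtype.val_injective.comp (S.equivFinOfCardEq hS).symm.injective
    have him : univ.image e = S := by
      refine eq_of_subset_of_card_le (fun g hg => ?_) ?_
      · obtain ⟨i, -, rfl⟩ := mem_image.1 hg
        exact ((S.equivFinOfCardEq hS).symm i).2
      · rw [card_image_of_injective _ he, card_univ, Fintype.card_fin, hS]
    have h1 := coef_eq v h0 hc e he
    rw [him] at h1
    have h2 : LinearIndepOn ℝ v (S : Set ι) ↔ (Matrix.of fun i => v (e i)).det ≠ 0 := by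
      rw [← isUnit_iff_ne_zero, ← Matrix.isUnit_iff_isUnit_det,
        ← Matrix.linearIndependent_rows_iff_isUnit]
      exact (linearIndependent_equiv (S.equivFinOfCardEq hS).symm (f := fun x : S => v x)).symm
    have h3 : M.IsBase (S : Set ι) ↔ (Matrix.of fun i => v (e i)).det ≠ 0 := by
      rw [isBase_iff hI htop, ← h2]
      refine and_iff_left_of_imp fun h => ?_
      have := LinearIndependent.span_eq_top_of_card_eq_finrank' (b := fun x : S => v x) h
        (by simp [hS])
      rwa [Set.image_eq_range]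
    rw [h1]
    split_ifs with h
    · exact (hTU e).resolve_left (pow_ne_zero 2 (h3.1 h))
    · rw [h3, not_not] at h
      rw [h, zero_pow two_ne_zero]
  · rw [h0 S hS, if_neg]
    intro h
    obtain ⟨h1, h2⟩ := (isBase_iff hI htop _).1 h
    rw [Set.image_eq_range] at h2
    have := Module.finrank_eq_card_basis (Module.Basis.mk (v := fun x : S => v x) h1 h2.ge)
    simp at this
    exact hS this.symm

open Classical in
/-- Matroids with a unimodular representation are Rayleigh. -/
theorem rayleigh {v : ι → Fin r → ℝ} {M : Matroid ι}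
    (hI : ∀ I, M.Indep I ↔ LinearIndepOn ℝ v I) (htop : Submodule.span ℝ (v '' Set.univ) = ⊤)
    (hTU : ∀ e : Fin r → ι, (Matrix.of fun i => v (e i)).det ^ 2 ∈ ({0, 1} : Set ℝ))
    (z : ι → ℝ) (hz : ∀ x, 0 < z x) (e f : ι) (hef : e ≠ f) :
    (∑ A : Finset ι, if M.IsBase (A : Set ι) ∧ e ∈ A ∧ f ∈ A then ∏ x ∈ A, z x else 0) *
      (∑ A : Finset ι, if M.IsBase (A : Set ι) then ∏ x ∈ A, z x else 0) ≤
    (∑ A : Finset ι, if M.IsBase (A : Set ι) ∧ e ∈ A then ∏ x ∈ A, z x else 0) *
      (∑ A : Finset ι, if M.IsBase (A : Set ι) ∧ f ∈ A then ∏ x ∈ A, z x else 0) := by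
  obtain ⟨c, h0, hc⟩ := exists_coef v
  have hb := coef_base hI htop hTU h0 hc
  have hdet : (gram v z).det ≠ 0 := by
    obtain ⟨B, hB⟩ := M.exists_isBase
    rw [hc]
    refine (sum_pos' (fun S _ => mul_nonneg ?_ (prod_pos fun g _ => hz g).le)
      ⟨(Set.toFinite B).toFinset, mem_univ _, ?_⟩).ne'
    · rw [hb]; split_ifs <;> norm_num
    · rw [hb, if_pos (by rwa [Set.Finite.coe_toFinset]), one_mul]
      exact prod_pos fun g _ => hz g
  have h := rayleigh_of_det v hc z hef hdet
  simp only [hb, ite_mul, one_mul, zero_mul] at h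
  have e1 : ∀ (p : Finset ι → Prop) (_ : DecidablePred p)
      (_ : ∀ A : Finset ι, Decidable (M.IsBase (A : Set ι) ∧ p A)),
      (∑ A : Finset ι, if M.IsBase (A : Set ι) ∧ p A then ∏ x ∈ A, z x else 0) =
      ∑ A : Finset ι, if p A then (if M.IsBase (A : Set ι) then ∏ x ∈ A, z x else 0) else 0 := by
    intro p _ _
    refine sum_congr rfl fun A _ => ?_
    by_cases h1 : p A <;> by_cases h2 : M.IsBase (A : Set ι) <;> simp [h1, h2]
  rw [e1 (fun A => e ∈ A ∧ f ∈ A) inferInstance, e1 (fun A => e ∈ A) inferInstance,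
    e1 (fun A => f ∈ A) inferInstance, ← h]
  exact le_add_of_nonneg_right (mul_nonneg (mul_pos (hz e) (hz f)).le (sq_nonneg _))

/-- Coordinates of a vertex (vertex `0` is the root). -/
def vtx (x : Fin (r + 1)) : Fin r → ℝ := fun j => if x = j.succ then 1 else 0

/-- Potentials constant along the edges of `A` are constant. -/
def Conn (s t : ι → Fin (r + 1)) (A : Set ι) : Prop :=
  ∀ φ : Fin (r + 1) → ℝ, (∀ g ∈ A, φ (s g) = φ (t g)) → ∀ x, φ x = φ 0

omit [Fintype ι] [DecidableEq ι] in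
theorem span_top_iff (s t : ι → Fin (r + 1)) (A : Set ι) :
    Submodule.span ℝ ((fun g => vtx (s g) - vtx (t g)) '' A) = ⊤ ↔ Conn s t A := by
  have v0 : (vtx 0 : Fin r → ℝ) = 0 := by ext j; simp [vtx, (Fin.succ_ne_zero j).symm]
  have vs : ∀ j : Fin r, vtx j.succ = Pi.single j 1 := by
    intro j; ext k; simp [vtx, Pi.single_apply, eq_comm]
  constructor
  · intro h φ hφ x
    let l : (Fin r → ℝ) →ₗ[ℝ] ℝ := ∑ j, (φ j.succ - φ 0) • LinearMap.proj j
    have hl : ∀ y, l (vtx y) = φ y - φ 0 := by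
      intro y
      refine Fin.cases ?_ (fun j => ?_) y
      · rw [v0, map_zero, sub_self]
      · simp [l, vs, LinearMap.sum_apply, Pi.single_apply]
    have : (⊤ : Submodule ℝ (Fin r → ℝ)) ≤ LinearMap.ker l := by
      rw [← h, Submodule.span_le]
      rintro _ ⟨g, hg, rfl⟩
      simp only [SetLike.mem_coe, LinearMap.mem_ker, map_sub, hl, hφ g hg, sub_self]
    have h2 : l (vtx x) = 0 := this Submodule.mem_top
    rwa [hl, sub_eq_zero] at h2
  · intro h
    by_contra hne
    obtain ⟨l, hl, hle⟩ := Submodule.exists_le_ker_of_lt_top _ (lt_top_iff_ne_top.2 hne)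
    have := h (fun x => l (vtx x)) fun g hg => by
      have : l (vtx (s g) - vtx (t g)) = 0 := hle (Submodule.subset_span ⟨g, hg, rfl⟩)
      rwa [map_sub, sub_eq_zero] at this
    refine hl ((Pi.basisFun ℝ (Fin r)).ext fun j => ?_)
    have h1 := this j.succ
    simp only [v0, vs, map_zero] at h1
    simpa using h1

open Classical in
/-- The cycle matroid of a connected multigraph with edges `s g -- t g`. -/
theorem exists_graphic (s t : ι → Fin (r + 1)) (hc : Conn s t Set.univ) :
    ∃ M : Matroid ι, M.E = Set.univ ∧ (∀ A, M.Spanning A ↔ Conn s t A) ∧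
      ∀ z : ι → ℝ, (∀ x, 0 < z x) → ∀ e f : ι, e ≠ f →
    (∑ A : Finset ι, if M.IsBase (A : Set ι) ∧ e ∈ A ∧ f ∈ A then ∏ x ∈ A, z x else 0) *
      (∑ A : Finset ι, if M.IsBase (A : Set ι) then ∏ x ∈ A, z x else 0) ≤
    (∑ A : Finset ι, if M.IsBase (A : Set ι) ∧ e ∈ A then ∏ x ∈ A, z x else 0) *
      (∑ A : Finset ι, if M.IsBase (A : Set ι) ∧ f ∈ A then ∏ x ∈ A, z x else 0) := by
  obtain ⟨M, hE, hI⟩ := exists_vecMatroid fun g => (vtx (s g) - vtx (t g) : Fin r → ℝ)
  have htop := (span_top_iff s t _).2 hc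
  refine ⟨M, hE, fun A => by rw [spanning_iff hE hI htop, span_top_iff], fun z hz e f hef => ?_⟩
  convert rayleigh hI htop (fun k => ?_) z hz e f hef
  exact det_incidence r Fin.succ (fun i => s (k i)) (fun i => t (k i)) (Fin.succ_injective r)

end Pool.Agent.Lib.MP_c72610_co.Gr
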