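import Mathlib

set_option autoImplicit false

namespace Pool.Agent.Lib.MP_c72610_co

open Finset

lemma abel_nonneg (u d : ℕ → ℝ) (N : ℕ) (hu : ∀ n ≤ N, 0 ≤ ∑ p ∈ range n, u p)
    (hd : ∀ n < N, d (n + 1) ≤ d n) :
    ∀ n ≤ N, (∑ p ∈ range n, u p) * d n ≤ ∑ p ∈ range n, u p * d p := by
  intro n
  induction n with
  | zero => simp
  | succ n ih =>
    intro hn
    have h1 := ih (by omega)
    have h2 := mul_le_mul_of_nonneg_left (hd n (by omega)) (hu (n + 1) hn)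
    rw [sum_range_succ] at h2 ⊢
    rw [sum_range_succ]
    nlinarith

lemma keyM (μ1 μ0 g1 g0 : ℕ → ℝ) (m1 : ∀ k, 0 ≤ μ1 k) (m0 : ∀ k, 0 ≤ μ0 k)
    (n1 : ∀ k, 0 ≤ g1 k) (n0 : ∀ k, 0 ≤ g0 k) (a0 : Antitone g0)
    (hg : ∀ p q, p ≤ q → g1 q * g0 p ≤ g1 p * g0 q)
    (hr : ∀ p q, p ≤ q → (∑ k ∈ range p, μ1 k) * (∑ k ∈ range q, μ0 k) ≤
      (∑ k ∈ range q, μ1 k) * (∑ k ∈ range p, μ0 k)) (N : ℕ) :
    (∑ k ∈ range N, μ1 k * g1 k) * (∑ k ∈ range N, μ0 k * g0 k) ≤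
      (∑ k ∈ range N, μ1 k * g0 k) * (∑ k ∈ range N, μ0 k * g1 k) := by
  induction N with
  | zero => simp
  | succ N ih =>
    have key := abel_nonneg (fun p => μ1 N * μ0 p - μ1 p * μ0 N)
      (fun p => g0 N * g1 p - g1 N * g0 p) N ?_ ?_ N le_rfl
    · have e : ∑ p ∈ range N, (μ1 N * μ0 p - μ1 p * μ0 N) * (g0 N * g1 p - g1 N * g0 p) =
          μ1 N * g0 N * (∑ k ∈ range N, μ0 k * g1 k) - μ1 N * g1 N * (∑ k ∈ range N, μ0 k * g0 k)
          - μ0 N * g0 N * (∑ k ∈ range N, μ1 k * g1 k) +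
          μ0 N * g1 N * (∑ k ∈ range N, μ1 k * g0 k) := by
        simp only [mul_sum, ← sum_sub_distrib, ← sum_add_distrib]
        exact sum_congr rfl fun p _ => by ring
      rw [e, show g0 N * g1 N - g1 N * g0 N = 0 by ring, mul_zero] at key
      simp only [sum_range_succ]
      nlinarith
    · intro t ht
      rw [sum_sub_distrib, ← mul_sum, ← sum_mul]
      have h1 := hr t N ht
      have h2 := hr N (N + 1) (by omega)
      have h3 := hr t (N + 1) (by omega)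
      rw [sum_range_succ, sum_range_succ] at h2 h3
      have p0 : 0 ≤ ∑ k ∈ range t, μ0 k := sum_nonneg fun k _ => m0 k
      have p1 : 0 ≤ ∑ k ∈ range t, μ1 k := sum_nonneg fun k _ => m1 k
      have p2 : ∑ k ∈ range t, μ0 k ≤ ∑ k ∈ range N, μ0 k :=
        sum_le_sum_of_subset_of_nonneg (range_mono ht) fun k _ _ => m0 k
      have := m0 N
      have := m1 N
      generalize ∑ k ∈ range t, μ0 k = A0 at *
      generalize ∑ k ∈ range t, μ1 k = A1 at *
      generalize ∑ k ∈ range N, μ0 k = B0 at *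
      generalize ∑ k ∈ range N, μ1 k = B1 at *
      rcases (p0.trans p2).eq_or_lt with h | h
      · subst h
        have : A0 = 0 := le_antisymm p2 p0
        subst this
        nlinarith
      · have h4 : B1 * μ0 N ≤ μ1 N * B0 := by nlinarith
        have h5 : A1 * μ0 N * B0 ≤ μ1 N * A0 * B0 := by
          nlinarith [mul_le_mul_of_nonneg_left h4 p0, mul_le_mul_of_nonneg_left h1 (m0 N)]
        have := le_of_mul_le_mul_right h5 h
        linarith
    · intro p hp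
      have h1 := hg p (p + 1) (by omega)
      have h2 := hg (p + 1) N hp
      have h3 := hg p N hp.le
      have h4 := a0 (show p ≤ p + 1 by omega)
      have h5 := a0 (show p + 1 ≤ N from hp)
      have := n0 N
      have := n1 N
      have := n1 (p + 1)
      rcases (n0 (p + 1)).eq_or_lt with h | h
      · have h6 : g0 N = 0 := le_antisymm (h ▸ h5) (n0 N)
        rw [h6] at h3 ⊢
        rw [← h]
        nlinarith
      · have h6 : g1 N * (g0 p - g0 (p + 1)) * g0 (p + 1) ≤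
            g0 N * (g1 p - g1 (p + 1)) * g0 (p + 1) := by
          nlinarith [mul_le_mul_of_nonneg_left h1 (n0 N),
            mul_le_mul_of_nonneg_left h2 (sub_nonneg.2 h4)]
        have := le_of_mul_le_mul_right h6 h
        linarith

/-- positive functionals on sequences, given by a finitely supported measure -/
def Rep (F : (ℕ → ℝ) → ℝ) : Prop :=
  ∃ (N : ℕ) (μ : ℕ → ℝ), (∀ k, 0 ≤ μ k) ∧ ∀ M, N ≤ M → ∀ h, F h = ∑ k ∈ range M, μ k * h k

lemma rep_of_sum {ι : Type*} (I : Finset ι) (W : ι → ℝ) (s : ι → ℕ) (hW : ∀ x, 0 ≤ W x)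
    {F : (ℕ → ℝ) → ℝ} (hF : ∀ h, F h = ∑ x ∈ I, W x * h (s x)) : Rep F := by
  refine ⟨I.sup s + 1, fun k => ∑ x ∈ I.filter (fun x => s x = k), W x,
    fun k => sum_nonneg fun x _ => hW x, fun M hM h => ?_⟩
  rw [hF, ← sum_fiberwise_of_maps_to (s := I) (t := range M) (g := s)]
  · refine sum_congr rfl fun k _ => ?_
    rw [sum_mul]
    exact sum_congr rfl fun x hx => by rw [(mem_filter.1 hx).2]
  · intro x hx
    have := le_sup (f := s) hx
    exact mem_range.2 (by omega)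

/-- cumulative distribution -/
def cum (F : (ℕ → ℝ) → ℝ) (p : ℕ) : ℝ := F fun k => if k < p then 1 else 0

/-- reversed hazard rate order -/
def RH (F1 F0 : (ℕ → ℝ) → ℝ) : Prop :=
  ∀ p q, p ≤ q → cum F1 p * cum F0 q ≤ cum F1 q * cum F0 p

lemma cum_eq {F : (ℕ → ℝ) → ℝ} {N : ℕ} {μ : ℕ → ℝ}
    (hF : ∀ M, N ≤ M → ∀ h, F h = ∑ k ∈ range M, μ k * h k) (p : ℕ) :
    cum F p = ∑ k ∈ range p, μ k := by
  rw [cum, hF (max N p) (le_max_left _ _)]
  simp only [mul_ite, mul_one, mul_zero]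
  rw [← sum_filter]
  refine sum_congr ?_ fun _ _ => rfl
  ext k; simp only [mem_filter, mem_range]; omega

lemma keyK {F1 F0 : (ℕ → ℝ) → ℝ} (r1 : Rep F1) (r0 : Rep F0) (hr : RH F1 F0) {g1 g0 : ℕ → ℝ}
    (n1 : ∀ k, 0 ≤ g1 k) (n0 : ∀ k, 0 ≤ g0 k) (a0 : Antitone g0)
    (hg : ∀ p q, p ≤ q → g1 q * g0 p ≤ g1 p * g0 q) : F1 g1 * F0 g0 ≤ F1 g0 * F0 g1 := by
  obtain ⟨N1, μ1, m1, h1⟩ := r1
  obtain ⟨N0, μ0, m0, h0⟩ := r0
  simp only [h1 (max N1 N0) (le_max_left _ _), h0 (max N1 N0) (le_max_right _ _)]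
  refine keyM μ1 μ0 g1 g0 m1 m0 n1 n0 a0 hg (fun p q hpq => ?_) _
  simpa only [cum_eq h1, cum_eq h0] using hr p q hpq

lemma Rep.mono {F : (ℕ → ℝ) → ℝ} (r : Rep F) {g h : ℕ → ℝ} (hgh : ∀ k, g k ≤ h k) :
    F g ≤ F h := by
  obtain ⟨N, μ, m, hF⟩ := r
  rw [hF N le_rfl, hF N le_rfl]
  exact sum_le_sum fun k _ => mul_le_mul_of_nonneg_left (hgh k) (m k)

lemma Rep.zero {F : (ℕ → ℝ) → ℝ} (r : Rep F) : F (fun _ => 0) = 0 := by
  obtain ⟨N, μ, m, hF⟩ := r
  simp [hF N le_rfl]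

lemma Rep.nonneg {F : (ℕ → ℝ) → ℝ} (r : Rep F) {h : ℕ → ℝ} (hh : ∀ k, 0 ≤ h k) : 0 ≤ F h :=
  r.zero ▸ r.mono hh

lemma Rep.cum_nonneg {F : (ℕ → ℝ) → ℝ} (r : Rep F) (p : ℕ) : 0 ≤ cum F p :=
  r.nonneg fun k => by split_ifs <;> norm_num

lemma Rep.cum_mono {F : (ℕ → ℝ) → ℝ} (r : Rep F) {p q : ℕ} (h : p ≤ q) : cum F p ≤ cum F q :=
  r.mono fun k => by
    split_ifs with h1 h2 h2
    · exact le_rfl
    · omega
    · norm_num
    · exact le_rfl

/-- convolution -/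
def cnv (F G : (ℕ → ℝ) → ℝ) : (ℕ → ℝ) → ℝ := fun h => F fun i => G fun j => h (i + j)

/-- killing above c -/
def capF (c : ℕ) (F : (ℕ → ℝ) → ℝ) : (ℕ → ℝ) → ℝ :=
  fun h => F fun k => if k ≤ c then h k else 0

/-- lumping below a -/
def flrF (a : ℕ) (F : (ℕ → ℝ) → ℝ) : (ℕ → ℝ) → ℝ := fun h => F fun k => h (max a k)

/-- translation -/
def shf (i : ℕ) (F : (ℕ → ℝ) → ℝ) : (ℕ → ℝ) → ℝ := fun h => F fun k => h (k + i)

lemma Rep.cnv {F G : (ℕ → ℝ) → ℝ} (r : Rep F) (s : Rep G) : Rep (cnv F G) := by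
  obtain ⟨N, μ, m, hF⟩ := r
  obtain ⟨N', ν, n, hG⟩ := s
  refine rep_of_sum (range N ×ˢ range N') (fun x => μ x.1 * ν x.2) (fun x => x.1 + x.2)
    (fun x => mul_nonneg (m _) (n _)) fun h => ?_
  simp only [MP_c72610_co.cnv, hF N le_rfl, hG N' le_rfl, sum_product, mul_sum, mul_assoc]

lemma Rep.capF {F : (ℕ → ℝ) → ℝ} (r : Rep F) (c : ℕ) : Rep (capF c F) := by
  obtain ⟨N, μ, m, hF⟩ := r
  refine rep_of_sum (range N) (fun k => if k ≤ c then μ k else 0) id
    (fun k => by split_ifs; exacts [m k, le_rfl]) fun h => ?_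
  simp [MP_c72610_co.capF, hF N le_rfl]

lemma Rep.flrF {F : (ℕ → ℝ) → ℝ} (r : Rep F) (a : ℕ) : Rep (flrF a F) := by
  obtain ⟨N, μ, m, hF⟩ := r
  exact rep_of_sum (range N) μ (max a) m fun h => hF N le_rfl _

lemma Rep.shf {F : (ℕ → ℝ) → ℝ} (r : Rep F) (i : ℕ) : Rep (shf i F) := by
  obtain ⟨N, μ, m, hF⟩ := r
  exact rep_of_sum (range N) μ (· + i) m fun h => hF N le_rfl _

lemma cnv_comm {F G : (ℕ → ℝ) → ℝ} (r : Rep F) (s : Rep G) : cnv F G = cnv G F := by
  obtain ⟨N, μ, m, hF⟩ := r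
  obtain ⟨N', ν, n, hG⟩ := s
  funext h
  simp only [cnv, hF N le_rfl, hG N' le_rfl, mul_sum]
  rw [sum_comm]
  exact sum_congr rfl fun j _ => sum_congr rfl fun i _ => by rw [add_comm i j]; ring

lemma cum_shf (F : (ℕ → ℝ) → ℝ) (i p : ℕ) : cum (shf i F) p = cum F (p - i) := by
  simp only [cum, shf, Nat.lt_sub_iff_add_lt]

lemma cum_cnv (F G : (ℕ → ℝ) → ℝ) (p : ℕ) : cum (cnv F G) p = F fun i => cum G (p - i) := by
  simp only [cum, cnv, Nat.lt_sub_iff_add_lt']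

lemma cum_capF (F : (ℕ → ℝ) → ℝ) (c p : ℕ) : cum (capF c F) p = cum F (min p (c + 1)) := by
  simp only [cum, capF]
  refine congrArg F (funext fun k => ?_)
  split_ifs <;> first | rfl | omega

lemma cum_flrF {F : (ℕ → ℝ) → ℝ} (r : Rep F) (a p : ℕ) :
    cum (flrF a F) p = if a < p then cum F p else 0 := by
  simp only [cum, flrF]
  split_ifs with h
  · simp only [max_lt_iff, h, true_and]
  · simp only [max_lt_iff, h, false_and, if_false, r.zero]

/-- log-concave cumulative distribution -/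
def LC (F : (ℕ → ℝ) → ℝ) : Prop :=
  ∀ i p q, p ≤ q → cum F (p - i) * cum F q ≤ cum F (q - i) * cum F p

lemma LC.rh {F : (ℕ → ℝ) → ℝ} (l : LC F) (i : ℕ) : RH (shf i F) F := fun p q h => by
  rw [cum_shf, cum_shf]; exact l i p q h

lemma RH.refl (F : (ℕ → ℝ) → ℝ) : RH F F := fun _ _ _ => (mul_comm _ _).le

lemma RH.cnv {F1 F0 G : (ℕ → ℝ) → ℝ} (r1 : Rep F1) (r0 : Rep F0) (s : Rep G) (h : RH F1 F0)
    (l : LC G) : RH (cnv F1 G) (cnv F0 G) := by
  intro p q hpq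
  simp only [cum_cnv]
  refine keyK r1 r0 h (fun k => s.cum_nonneg _) (fun k => s.cum_nonneg _)
    (fun k m hk => s.cum_mono (by omega)) fun k m hk => ?_
  have := l (m - k) (p - k) (q - k) (by omega)
  rw [show p - k - (m - k) = p - m by omega, show q - k - (m - k) = q - m by omega] at this
  rwa [mul_comm (cum G (p - k))]

lemma LC.cnv {F G : (ℕ → ℝ) → ℝ} (r : Rep F) (s : Rep G) (l : LC F) (l' : LC G) :
    LC (cnv F G) := by
  intro i p q hpq
  have := RH.cnv (r.shf i) r s (l.rh i) l' p q hpq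
  have e : MP_c72610_co.cnv (shf i F) G = shf i (MP_c72610_co.cnv F G) := by
    funext h; simp only [MP_c72610_co.cnv, shf, add_right_comm]
  rwa [e, cum_shf, cum_shf] at this

lemma RH.capF {F1 F0 : (ℕ → ℝ) → ℝ} (h : RH F1 F0) (c : ℕ) : RH (capF c F1) (capF c F0) :=
  fun p q hpq => by simp only [cum_capF]; exact h _ _ (by omega)

lemma RH.flrF {F1 F0 : (ℕ → ℝ) → ℝ} (r1 : Rep F1) (r0 : Rep F0) (h : RH F1 F0) (a : ℕ) :
    RH (flrF a F1) (flrF a F0) := by
  intro p q hpq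
  simp only [cum_flrF r1, cum_flrF r0]
  by_cases hp : a < p
  · simp only [hp, show a < q by omega, if_true]; exact h p q hpq
  · simp only [hp, if_false, zero_mul, mul_zero, le_refl]

lemma LC.capF {F : (ℕ → ℝ) → ℝ} (r : Rep F) (l : LC F) (c : ℕ) : LC (capF c F) := by
  intro i p q hpq
  simp only [cum_capF]
  by_cases hp : c + 1 ≤ p
  · rw [min_eq_right hp, min_eq_right (hp.trans hpq)]
    exact mul_le_mul_of_nonneg_right (r.cum_mono (by omega)) (r.cum_nonneg _)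
  · rw [show min (p - i) (c + 1) = p - i by omega, show min p (c + 1) = p by omega]
    exact (l i p (min q (c + 1)) (by omega)).trans
      (mul_le_mul_of_nonneg_right (r.cum_mono (by omega)) (r.cum_nonneg _))

lemma LC.flrF {F : (ℕ → ℝ) → ℝ} (r : Rep F) (l : LC F) (a : ℕ) : LC (flrF a F) := by
  intro i p q hpq
  by_cases hp : a < p - i
  · simp only [cum_flrF r, hp, show a < q by omega, show a < p by omega,
      show a < q - i by omega, if_true]
    exact l i p q hpq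
  · rw [cum_flrF r a (p - i), if_neg hp, zero_mul]
    exact mul_nonneg ((r.flrF a).cum_nonneg _) ((r.flrF a).cum_nonneg _)

/-- nonnegative, nonincreasing, log-concave test sequences -/
structure HH (h : ℕ → ℝ) : Prop where
  nn : ∀ k, 0 ≤ h k
  an : Antitone h
  lc : ∀ k l i, k ≤ l → h (l + i) * h k ≤ h (k + i) * h l

lemma HH.cap {h : ℕ → ℝ} (H : HH h) (c : ℕ) : HH fun k => if k ≤ c then h k else 0 := by
  have nn : ∀ k, 0 ≤ (if k ≤ c then h k else 0) := fun k => by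
    split_ifs; exacts [H.nn k, le_rfl]
  refine ⟨nn, fun k l hkl => ?_, fun k l i hkl => ?_⟩
  · by_cases hl : l ≤ c
    · rw [if_pos hl, if_pos (hkl.trans hl)]; exact H.an hkl
    · rw [if_neg hl]; exact nn k
  · by_cases hl : l + i ≤ c
    · simp only [hl, show k ≤ c by omega, show k + i ≤ c by omega, show l ≤ c by omega, if_true]
      exact H.lc k l i hkl
    · rw [if_neg hl, zero_mul]; exact mul_nonneg (nn _) (nn _)

lemma HH.flr {h : ℕ → ℝ} (H : HH h) (a : ℕ) : HH fun k => h (max a k) := by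
  refine ⟨fun k => H.nn _, fun k l hkl => H.an (by omega), fun k l i hkl => ?_⟩
  have := H.lc (max a k) (max a l) (max a (k + i) - max a k) (by omega)
  rw [show max a k + (max a (k + i) - max a k) = max a (k + i) by omega] at this
  exact (mul_le_mul_of_nonneg_right (H.an (by omega)) (H.nn _)).trans this

lemma HH.cross {h : ℕ → ℝ} (H : HH h) {G1 G0 : (ℕ → ℝ) → ℝ} (r1 : Rep G1) (r0 : Rep G0)
    (hr : RH G1 G0) {k l : ℕ} (hkl : k ≤ l) :
    G1 (fun j => h (l + j)) * G0 (fun j => h (k + j)) ≤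
      G1 (fun j => h (k + j)) * G0 (fun j => h (l + j)) := by
  refine keyK r1 r0 hr (fun j => H.nn _) (fun j => H.nn _) (fun p q hpq => H.an (by omega))
    fun p q hpq => ?_
  have := H.lc (k + p) (l + p) (q - p) (by omega)
  rw [show l + p + (q - p) = l + q by omega, show k + p + (q - p) = k + q by omega] at this
  rwa [mul_comm (h (l + p))]

lemma HH.avg {h : ℕ → ℝ} (H : HH h) {G : (ℕ → ℝ) → ℝ} (r : Rep G) (l : LC G) :
    HH fun i => G fun j => h (i + j) := by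
  refine ⟨fun k => r.nonneg fun j => H.nn _, fun k m hkm => r.mono fun j => H.an (by omega),
    fun k m i hkm => ?_⟩
  have := H.cross (r.shf i) r (l.rh i) hkm
  simpa only [shf, add_comm _ i, add_assoc, add_left_comm _ i] using this

lemma HH.split {h : ℕ → ℝ} (H : HH h) {F1 F0 G1 G0 : (ℕ → ℝ) → ℝ} (r1 : Rep F1) (r0 : Rep F0)
    (s1 : Rep G1) (s0 : Rep G0) (hF : RH F1 F0) (hG : RH G1 G0) :
    cnv F1 G1 h * cnv F0 G0 h ≤ cnv F1 G0 h * cnv F0 G1 h :=
  keyK r1 r0 hF (fun _ => s1.nonneg fun _ => H.nn _) (fun _ => s0.nonneg fun _ => H.nn _)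
    (fun p q hpq => s0.mono fun j => H.an (by omega)) fun _ _ hpq => H.cross s1 s0 hG hpq

end Pool.Agent.Lib.MP_c72610_co
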