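import Pool.Agent.Lib.MP_c72610_co.Comb

set_option autoImplicit false

namespace Pool.Agent.Lib.MP_c72610_co

open Finset Classical

/-- real indicator -/
noncomputable def rind (p : Prop) : ℝ := if p then 1 else 0

lemma rind_nonneg (p : Prop) : 0 ≤ rind p := by unfold rind; split_ifs <;> norm_num
lemma rind_le_one (p : Prop) : rind p ≤ 1 := by unfold rind; split_ifs <;> norm_num
lemma rind_pos {p : Prop} (h : p) : rind p = 1 := if_pos h
lemma rind_neg {p : Prop} (h : ¬ p) : rind p = 0 := if_neg h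
lemma rind_and (p q : Prop) : rind (p ∧ q) = rind p * rind q := by
  unfold rind; by_cases p <;> by_cases q <;> simp [*]
lemma rind_mono {p q : Prop} (h : p → q) : rind p ≤ rind q := by
  unfold rind; by_cases p <;> by_cases q <;> simp_all
lemma rind_congr {p q : Prop} (h : p ↔ q) : rind p = rind q := by rw [propext h]

section
variable {ι A B : Type*} [Fintype ι]

lemma regroup (w : ι → ℝ) (ψ : Finset ι → Finset ι → ℝ) :
    ∑ X : Finset ι, ∑ Y : Finset ι, ψ X Y * ((∏ x ∈ X, w x) * ∏ x ∈ Y, w x) =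
    ∑ I : Finset ι, ∑ V : Finset ι, (if Disjoint I V then
      ∑ T ∈ V.powerset, ψ (I ∪ T) (I ∪ (V \ T)) else 0) *
        ((∏ x ∈ I, w x) * (∏ x ∈ I, w x) * ∏ x ∈ V, w x) := by
  have e2 : ∀ I V : Finset ι, (if Disjoint I V then
      ∑ T ∈ V.powerset, ψ (I ∪ T) (I ∪ (V \ T)) else 0) *
        ((∏ x ∈ I, w x) * (∏ x ∈ I, w x) * ∏ x ∈ V, w x) =
      ∑ T : Finset ι, if Disjoint I V ∧ T ⊆ V then ψ (I ∪ T) (I ∪ (V \ T)) *
        ((∏ x ∈ I, w x) * (∏ x ∈ I, w x) * ∏ x ∈ V, w x) else 0 := by
    intro I V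
    by_cases h : Disjoint I V
    · simp only [h, if_true, true_and]
      rw [sum_mul, ← sum_filter]
      congr 1
      ext T; simp
    · simp [h]
  simp only [e2]
  rw [← Fintype.sum_prod_type', ← Fintype.sum_prod_type', ← Fintype.sum_prod_type', ← sum_filter]
  refine sum_nbij' (fun p => ((p.1 ∩ p.2, (p.1 \ p.2) ∪ (p.2 \ p.1)), p.1 \ p.2))
    (fun q => (q.1.1 ∪ q.2, q.1.1 ∪ (q.1.2 \ q.2))) ?_ ?_ ?_ ?_ ?_
  · intro p _
    simp only [mem_filter, mem_univ, true_and]
    refine ⟨?_, subset_union_left⟩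
    rw [disjoint_left]; intro a; simp only [mem_inter, mem_union, mem_sdiff]; tauto
  · intro q _; simp
  · intro p _
    obtain ⟨X, Y⟩ := p
    simp only [Prod.mk.injEq]
    constructor <;> ext a <;> simp only [mem_inter, mem_union, mem_sdiff] <;> tauto
  · intro q hq
    obtain ⟨⟨I, V⟩, T⟩ := q
    simp only [mem_filter, mem_univ, true_and] at hq
    obtain ⟨h1, h2⟩ := hq
    rw [disjoint_left] at h1
    simp only [Prod.mk.injEq]
    refine ⟨⟨?_, ?_⟩, ?_⟩ <;> ext a <;> simp only [mem_inter, mem_union, mem_sdiff] <;>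
      have := @h1 a <;> have := @h2 a <;> tauto
  · intro p _
    obtain ⟨X, Y⟩ := p
    have e1 : X ∩ Y ∪ X \ Y = X := by
      ext a; simp only [mem_inter, mem_union, mem_sdiff]; tauto
    have e2 : X ∩ Y ∪ (X \ Y ∪ Y \ X) \ (X \ Y) = Y := by
      ext a; simp only [mem_inter, mem_union, mem_sdiff]; tauto
    simp only [e1, e2]
    congr 1
    rw [prod_union (by rw [disjoint_left]; intro a; simp only [mem_sdiff]; tauto)]
    have h1 := prod_inter_mul_prod_sdiff X Y w
    have h2 := prod_inter_mul_prod_sdiff Y X w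
    rw [inter_comm] at h2
    rw [← h1, ← h2]
    ring

/-- the kernel of the grid inequality -/
noncomputable def phi (r : ι → A) (c : ι → B) (X Y : Finset ι) : ℝ :=
  rind (X.Nonempty ∧ Same r X) * rind (Y.Nonempty ∧ Same c Y) - rind (X.card = 1) * rind Y.Nonempty
    + rind (Dg r c X) * rind Y.Nonempty

omit [Fintype ι] in
lemma phi_nonneg (r : ι → A) (c : ι → B) (X Y : Finset ι) (h : X.card ≠ 1) : 0 ≤ phi r c X Y := by
  unfold phi
  rw [rind_neg h]
  have := mul_nonneg (rind_nonneg (X.Nonempty ∧ Same r X)) (rind_nonneg (Y.Nonempty ∧ Same c Y))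
  have := mul_nonneg (rind_nonneg (Dg r c X)) (rind_nonneg (Y.Nonempty))
  linarith

omit [Fintype ι] in
lemma sum_rind {α : Type*} (s : Finset α) (p : α → Prop) [DecidablePred p] :
    ∑ x ∈ s, rind (p x) = ((s.filter p).card : ℝ) := by
  rw [card_filter]; push_cast
  refine sum_congr rfl fun x _ => ?_
  unfold rind; split_ifs <;> rfl

omit [Fintype ι] in
lemma coef_bound (r : ι → A) (c : ι → B) (hinj : ∀ x y, r x = r y → c x = c y → x = y)
    (I V : Finset ι) (hd : Disjoint I V) (h5 : 5 ≤ 2 * I.card + V.card) :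
    rind (Dg r c I ∧ V.card = 1) - rind (I = ∅ ∧ V.card = 5 ∧ C4 r c V) ≤
      ∑ T ∈ V.powerset, phi r c (I ∪ T) (I ∪ (V \ T)) := by
  have hcard : ∀ T ∈ V.powerset, (I ∪ T).card = I.card + T.card := fun T hT =>
    card_union_of_disjoint (hd.mono_right (mem_powerset.1 hT))
  rcases Nat.lt_or_ge I.card 2 with hI | hI
  · have hnD : ¬ (Dg r c I ∧ V.card = 1) := by omega
    rw [rind_neg hnD]
    rcases Nat.eq_zero_or_pos I.card with h0 | h1
    · have hIe : I = ∅ := card_eq_zero.1 h0
      subst hIe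
      simp only [empty_union, true_and]
      have hm := main0 r c hinj V (by omega)
      have a1 : ∑ T ∈ V.powerset, rind (T.Nonempty ∧ Same r T) *
          rind ((V \ T).Nonempty ∧ Same c (V \ T)) = sp r c V := by
        simp only [← rind_and]; rw [sum_rind]; rfl
      have a2 : ∑ T ∈ V.powerset, rind (T.card = 1) * rind ((V \ T).Nonempty) ≤ V.card := by
        calc _ ≤ ∑ T ∈ V.powerset, rind (T.card = 1) := sum_le_sum fun T _ =>
              mul_le_of_le_one_right (rind_nonneg _) (rind_le_one _)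
          _ = V.card := by rw [sum_rind, ← powersetCard_eq_filter, card_powersetCard]; simp
      have a3 : ∑ T ∈ V.powerset, rind (Dg r c T) * rind ((V \ T).Nonempty) = nd r c V := by
        rw [nd, ← sum_rind]
        refine sum_congr rfl fun T hT => ?_
        by_cases h : Dg r c T
        · obtain ⟨x, y, _, _, rfl⟩ := h
          have : (V \ {x, y}).Nonempty := by
            apply card_pos.1
            have := le_card_sdiff ({x, y} : Finset ι) V
            have := card_le_two (a := x) (b := y)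
            omega
          rw [rind_pos this, mul_one]
        · rw [rind_neg h, zero_mul]
      simp only [phi, sum_add_distrib, sum_sub_distrib]
      rw [a1, a3]
      have hm' : (V.card : ℝ) ≤ sp r c V + nd r c V + rind (V.card = 5 ∧ C4 r c V) := by
        unfold rind
        split_ifs with h
        · rw [if_pos h] at hm; exact_mod_cast hm
        · rw [if_neg h] at hm; exact_mod_cast hm
      linarith
    · obtain ⟨x, rfl⟩ := card_eq_one.1 (by omega : I.card = 1)
      rw [rind_neg (by simp)]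
      have hxV : x ∉ V := disjoint_singleton_left.1 hd
      simp only [card_singleton] at h5 hcard
      have a2 : ∑ T ∈ V.powerset, rind (({x} ∪ T).card = 1) * rind (({x} ∪ (V \ T)).Nonempty)
          ≤ 1 := by
        rw [sum_eq_single ∅]
        · exact mul_le_one₀ (rind_le_one _) (rind_nonneg _) (rind_le_one _)
        · intro T hT hne
          rw [rind_neg, zero_mul]
          rw [hcard T hT]
          have := card_pos.2 (nonempty_iff_ne_empty.2 hne)
          omega
        · simp
      have a1 : 1 ≤ ∑ T ∈ V.powerset, (rind (({x} ∪ T).Nonempty ∧ Same r ({x} ∪ T)) *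
          rind (({x} ∪ (V \ T)).Nonempty ∧ Same c ({x} ∪ (V \ T))) +
          rind (Dg r c ({x} ∪ T)) * rind (({x} ∪ (V \ T)).Nonempty)) := by
        have hnn : ∀ T ∈ V.powerset, 0 ≤ (rind (({x} ∪ T).Nonempty ∧ Same r ({x} ∪ T)) *
          rind (({x} ∪ (V \ T)).Nonempty ∧ Same c ({x} ∪ (V \ T))) +
          rind (Dg r c ({x} ∪ T)) * rind (({x} ∪ (V \ T)).Nonempty)) := fun T _ =>
            add_nonneg (mul_nonneg (rind_nonneg _) (rind_nonneg _))
              (mul_nonneg (rind_nonneg _) (rind_nonneg _))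
        by_cases h : ∃ q ∈ V, r x ≠ r q ∧ c x ≠ c q
        · obtain ⟨q, hq, h1, h2⟩ := h
          refine le_trans ?_ (single_le_sum hnn (a := {q}) (by simpa using hq))
          rw [rind_pos (p := Dg r c ({x} ∪ {q})) ⟨x, q, h1, h2, by simp⟩,
            rind_pos (p := ({x} ∪ (V \ {q})).Nonempty) ⟨x, by simp⟩]
          have := mul_nonneg (rind_nonneg (({x} ∪ {q} : Finset ι).Nonempty ∧ Same r ({x} ∪ {q})))
            (rind_nonneg (({x} ∪ (V \ {q})).Nonempty ∧ Same c ({x} ∪ (V \ {q}))))
          linarith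
        · push Not at h
          refine le_trans ?_ (single_le_sum hnn (a := V.filter fun y => r y = r x)
            (mem_powerset.2 (filter_subset _ _)))
          set T := V.filter fun y => r y = r x with hT
          have b1 : ∀ y ∈ {x} ∪ T, r y = r x := by
            intro y hy
            simp only [mem_union, mem_singleton, hT, mem_filter] at hy
            rcases hy with rfl | hy
            · rfl
            · exact hy.2
          have b2 : ∀ y ∈ {x} ∪ (V \ T), c y = c x := by
            intro y hy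
            simp only [mem_union, mem_singleton, hT, mem_filter, mem_sdiff] at hy
            rcases hy with rfl | hy
            · rfl
            · exact (h y hy.1 fun h' => hy.2 ⟨hy.1, h'.symm⟩).symm
          rw [rind_pos (p := ({x} ∪ T).Nonempty ∧ Same r ({x} ∪ T))
              ⟨⟨x, by simp⟩, fun y hy z hz => by rw [b1 y hy, b1 z hz]⟩,
            rind_pos (p := ({x} ∪ (V \ T)).Nonempty ∧ Same c ({x} ∪ (V \ T)))
              ⟨⟨x, by simp⟩, fun y hy z hz => by rw [b2 y hy, b2 z hz]⟩]
          have := mul_nonneg (rind_nonneg (Dg r c ({x} ∪ T)))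
            (rind_nonneg (({x} ∪ (V \ T)).Nonempty))
          linarith
      simp only [phi, sum_add_distrib, sum_sub_distrib] at a1 ⊢
      linarith
  · have hne : I.Nonempty := card_pos.1 (by omega)
    rw [rind_neg (p := I = ∅ ∧ _) (fun h => hne.ne_empty h.1), sub_zero]
    have hnn : ∀ T ∈ V.powerset, 0 ≤ phi r c (I ∪ T) (I ∪ (V \ T)) := fun T hT =>
      phi_nonneg r c _ _ (by rw [hcard T hT]; omega)
    by_cases h : Dg r c I ∧ V.card = 1
    · rw [rind_pos h]
      refine le_trans ?_ (single_le_sum hnn (a := ∅) (by simp))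
      simp only [union_empty, sdiff_empty, phi]
      rw [rind_pos h.1, rind_neg (p := I.card = 1) (by omega),
        rind_pos (p := (I ∪ V).Nonempty) (hne.mono subset_union_left)]
      have := mul_nonneg (rind_nonneg (I.Nonempty ∧ Same r I))
        (rind_nonneg ((I ∪ V).Nonempty ∧ Same c (I ∪ V)))
      linarith
    · rw [rind_neg h]; exact sum_nonneg hnn

lemma amgm_part (r : ι → A) (c : ι → B) (hinj : ∀ x y, r x = r y → c x = c y → x = y)
    (w : ι → ℝ) (hw : ∀ x, 0 ≤ w x) :
    ∑ V : Finset ι, rind (V.card = 5 ∧ C4 r c V) * ∏ x ∈ V, w x ≤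
    ∑ p : Finset ι × Finset ι, rind (Disjoint p.1 p.2 ∧ Dg r c p.1 ∧ p.2.card = 1) *
      ((∏ x ∈ p.1, w x) * (∏ x ∈ p.1, w x) * ∏ x ∈ p.2, w x) := by
  set f : Finset ι × Finset ι → ℝ := fun p =>
    rind (Disjoint p.1 p.2 ∧ Dg r c p.1 ∧ p.2.card = 1) *
      ((∏ x ∈ p.1, w x) * (∏ x ∈ p.1, w x) * ∏ x ∈ p.2, w x) with hf
  have hP : ∀ X : Finset ι, 0 ≤ ∏ x ∈ X, w x := fun X => prod_nonneg fun x _ => hw x
  have hf0 : ∀ p, 0 ≤ f p := fun p =>
    mul_nonneg (rind_nonneg _) (mul_nonneg (mul_nonneg (hP _) (hP _)) (hP _))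
  set m : Finset ι × Finset ι → Finset ι := fun p =>
    p.2 ∪ univ.filter fun y => (∃ x ∈ p.1, r y = r x) ∧ ∃ x ∈ p.1, c y = c x with hm
  rw [← sum_fiberwise (s := univ) (g := m) f]
  refine sum_le_sum fun V _ => ?_
  by_cases h : V.card = 5 ∧ C4 r c V
  · rw [rind_pos h, one_mul]
    obtain ⟨h5, p, hp, q, hq, p', hp', q', hq', h1, h2, h3, h4, h6, h7⟩ := h
    have npq : p ≠ q := fun h => h7 (by rw [h])
    have npp : p ≠ p' := fun h => h6 (by rw [h])
    have npq' : p ≠ q' := fun h => h7 (by rw [h4, h])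
    have nqp' : q ≠ p' := fun h => h6 (by rw [h1, h])
    have nqq' : q ≠ q' := fun h => h6 (by rw [h1, h2, h])
    have np'q' : p' ≠ q' := fun h => h7 (by rw [h3, h4, h])
    set S : Finset ι := {p, q, p', q'} with hS
    have hSV : S ⊆ V := by
      intro y hy
      simp only [hS, mem_insert, mem_singleton] at hy
      rcases hy with rfl | rfl | rfl | rfl <;> assumption
    have hS4 : S.card = 4 := by
      rw [hS, card_insert_of_notMem (by simp [npq, npp, npq']),
        card_insert_of_notMem (by simp [nqp', nqq']), card_pair np'q']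
    have hG : (V \ S).card = 1 := by rw [card_sdiff_of_subset hSV]; omega
    have hull : ∀ I : Finset ι, (∀ y, (∃ x ∈ I, r y = r x) ↔ r y = r p ∨ r y = r p') →
        (∀ y, (∃ x ∈ I, c y = c x) ↔ c y = c p ∨ c y = c q) → m (I, V \ S) = V := by
      intro I a1 a2
      have : (univ.filter fun y => (∃ x ∈ I, r y = r x) ∧ ∃ x ∈ I, c y = c x) = S := by
        ext y
        simp only [mem_filter, mem_univ, true_and, a1, a2, hS, mem_insert, mem_singleton]
        constructor
        · rintro ⟨b1 | b1, b2 | b2⟩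
          · exact Or.inl (hinj _ _ b1 b2)
          · exact Or.inr (Or.inl (hinj _ _ (b1.trans h1) b2))
          · exact Or.inr (Or.inr (Or.inl (hinj _ _ b1 (b2.trans h3))))
          · exact Or.inr (Or.inr (Or.inr (hinj _ _ (b1.trans h2) (b2.trans h4))))
        · rintro (rfl | rfl | rfl | rfl) <;> simp [h1, h2, h3, h4]
      simp only [hm, this]
      exact sdiff_union_of_subset hSV
    have m1 := hull {p, q'} (fun y => by simp [h2]) (fun y => by simp [h4])
    have m2 := hull {q, p'} (fun y => by simp [h1]) (fun y => by simp [h3, or_comm])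
    have hne : (({p, q'} : Finset ι), V \ S) ≠ ({q, p'}, V \ S) := by
      intro h
      have := congrArg (fun t : Finset ι × Finset ι => p ∈ t.1) h
      simp [npq, npp] at this
    have hle : f ({p, q'}, V \ S) + f ({q, p'}, V \ S) ≤ ∑ t ∈ univ.filter (fun t => m t = V), f t := by
      rw [← sum_pair hne]
      refine sum_le_sum_of_subset_of_nonneg ?_ (fun t _ _ => hf0 t)
      intro t ht
      simp only [mem_insert, mem_singleton] at ht
      rcases ht with rfl | rfl <;> simp [m1, m2]
    refine le_trans ?_ hle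
    have d1 : Disjoint ({p, q'} : Finset ι) (V \ S) :=
      Disjoint.mono_left (by simp [hS, insert_subset_iff]) disjoint_sdiff
    have d2 : Disjoint ({q, p'} : Finset ι) (V \ S) :=
      Disjoint.mono_left (by simp [hS, insert_subset_iff]) disjoint_sdiff
    simp only [hf]
    rw [rind_pos ⟨d1, ⟨p, q', by rw [← h2]; exact h6, by rw [← h4]; exact h7, rfl⟩, hG⟩,
      rind_pos ⟨d2, ⟨q, p', by rw [← h1]; exact h6, by rw [← h3]; exact h7.symm, rfl⟩, hG⟩,
      prod_pair npq', prod_pair nqp', ← prod_sdiff hSV, hS,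
      prod_insert (by simp [npq, npp, npq']), prod_insert (by simp [nqp', nqq']), prod_pair np'q',
      ← hS]
    have g0 := hP (V \ S)
    have : 0 ≤ w p * w q * w p' * w q' := by
      have := hw p; have := hw q; have := hw p'; have := hw q'; positivity
    nlinarith [mul_nonneg g0 (sq_nonneg (w p * w q' - w q * w p')), mul_nonneg g0 this]
  · rw [rind_neg h, zero_mul]
    exact sum_nonneg fun t _ => hf0 t

lemma high_nonneg (r : ι → A) (c : ι → B) (hinj : ∀ x y, r x = r y → c x = c y → x = y)
    (w : ι → ℝ) (hw : ∀ x, 0 ≤ w x) :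
    0 ≤ ∑ X : Finset ι, ∑ Y : Finset ι, (rind (5 ≤ X.card + Y.card) * phi r c X Y) *
      ((∏ x ∈ X, w x) * ∏ x ∈ Y, w x) := by
  rw [regroup]
  have hP : ∀ X : Finset ι, 0 ≤ ∏ x ∈ X, w x := fun X => prod_nonneg fun x _ => hw x
  have h1 := amgm_part r c hinj w hw
  rw [Fintype.sum_prod_type] at h1
  have h2 : ∑ V : Finset ι, rind (V.card = 5 ∧ C4 r c V) * ∏ x ∈ V, w x =
      ∑ I : Finset ι, ∑ V : Finset ι, rind (I = ∅ ∧ V.card = 5 ∧ C4 r c V) *
        ((∏ x ∈ I, w x) * (∏ x ∈ I, w x) * ∏ x ∈ V, w x) := by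
    symm
    rw [sum_eq_single (∅ : Finset ι)]
    · simp
    · intro I _ hI
      exact sum_eq_zero fun V _ => by rw [rind_neg (fun h => hI h.1), zero_mul]
    · simp
  rw [h2, ← sub_nonneg, ← sum_sub_distrib] at h1
  refine le_trans h1 (sum_le_sum fun I _ => ?_)
  rw [← sum_sub_distrib]
  refine sum_le_sum fun V _ => ?_
  rw [← sub_mul]
  refine mul_le_mul_of_nonneg_right ?_ (mul_nonneg (mul_nonneg (hP _) (hP _)) (hP _))
  by_cases hd : Disjoint I V
  · simp only [hd, true_and, if_true]
    have hc : ∀ T ∈ V.powerset, (I ∪ T).card + (I ∪ (V \ T)).card = 2 * I.card + V.card := by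
      intro T hT
      rw [mem_powerset] at hT
      rw [card_union_of_disjoint (hd.mono_right hT),
        card_union_of_disjoint (hd.mono_right sdiff_subset), card_sdiff_of_subset hT]
      have := card_le_card hT
      omega
    by_cases h5 : 5 ≤ 2 * I.card + V.card
    · refine le_trans (coef_bound r c hinj I V hd h5) (le_of_eq (sum_congr rfl fun T hT => ?_))
      rw [hc T hT, rind_pos h5, one_mul]
    · have : ∑ T ∈ V.powerset, rind (5 ≤ (I ∪ T).card + (I ∪ (V \ T)).card) *
          phi r c (I ∪ T) (I ∪ (V \ T)) = 0 :=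
        sum_eq_zero fun T hT => by rw [hc T hT, rind_neg h5, zero_mul]
      rw [this, rind_neg (p := Dg r c I ∧ V.card = 1)]
      · have := rind_nonneg (I = ∅ ∧ V.card = 5 ∧ C4 r c V); linarith
      · rintro ⟨⟨x, y, h1, _, rfl⟩, h3⟩
        rw [card_pair (fun h => h1 (by rw [h]))] at h5
        omega
  · simp only [hd, false_and, if_false]
    rw [rind_neg not_false]
    have := rind_nonneg (I = ∅ ∧ V.card = 5 ∧ C4 r c V); linarith

end

end Pool.Agent.Lib.MP_c72610_co
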