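import Mathlib

set_option autoImplicit false

namespace Pool.Agent.Lib.MP_c72610_co.Poly

open Finset

section Alt

variable {V : Type*} [DecidableEq V]

/-- alternating sum over the subsets of R -/
def dl (R : Finset V) (f : Finset V → ℝ) : ℝ :=
  ∑ T ∈ R.powerset, (-1) ^ (R.card + T.card) * f T

omit [DecidableEq V] in
lemma dl_empty (f : Finset V → ℝ) : dl ∅ f = f ∅ := by simp [dl]

omit [DecidableEq V] in
lemma dl_congr {R : Finset V} {f g : Finset V → ℝ} (h : ∀ T, T ⊆ R → f T = g T) :
    dl R f = dl R g :=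
  sum_congr rfl fun T hT => by rw [h T (mem_powerset.1 hT)]

lemma dl_insert {u : V} {R : Finset V} (hu : u ∉ R) (f : Finset V → ℝ) :
    dl (insert u R) f = dl R (fun T => f (insert u T) - f T) := by
  unfold dl
  rw [sum_powerset_insert hu, ← sum_add_distrib]
  refine sum_congr rfl fun T hT => ?_
  have hT' : u ∉ T := fun h => hu (mem_powerset.1 hT h)
  rw [card_insert_of_notMem hu, card_insert_of_notMem hT']
  ring

omit [DecidableEq V] in
lemma dl_smul (R : Finset V) (c : ℝ) (f : Finset V → ℝ) :
    dl R (fun T => c * f T) = c * dl R f := by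
  unfold dl
  rw [mul_sum]
  exact sum_congr rfl fun T _ => by ring

omit [DecidableEq V] in
lemma dl_zero (R : Finset V) {f : Finset V → ℝ} (h : ∀ T, T ⊆ R → f T = 0) : dl R f = 0 := by
  unfold dl
  exact sum_eq_zero fun T hT => by rw [h T (mem_powerset.1 hT), mul_zero]

omit [DecidableEq V] in
lemma dl_top (R : Finset V) {f : Finset V → ℝ} (h : ∀ T, T ⊆ R → T ≠ R → f T = 0) :
    dl R f = f R := by
  unfold dl
  rw [sum_eq_single R]
  · rw [← two_mul, pow_mul]; simp
  · intro T hT hne
    rw [h T (mem_powerset.1 hT) hne, mul_zero]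
  · simp

lemma sum_dl (U : Finset V) : ∀ f : Finset V → ℝ, ∑ R ∈ U.powerset, dl R f = f U := by
  induction U using Finset.induction_on with
  | empty => intro f; simp [dl_empty]
  | insert u U hu ih =>
    intro f
    rw [sum_powerset_insert hu, ih]
    rw [sum_congr rfl fun R hR => dl_insert (fun h => hu (mem_powerset.1 hR h)) f, ih]
    ring

lemma dl_mul (S R : Finset V) (hd : Disjoint S R) (g : Finset V → ℝ) :
    ∀ f f1 : Finset V → ℝ, (∀ T1, T1 ⊆ S → ∀ T2, T2 ⊆ R → f (T1 ∪ T2) = f1 T1 * g T2) →
      dl (S ∪ R) f = dl S f1 * dl R g := by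
  induction S using Finset.induction_on with
  | empty =>
    intro f f1 h
    rw [empty_union, dl_empty, ← dl_smul]
    exact dl_congr fun T hT => by simpa using h ∅ (Subset.refl _) T hT
  | insert u S hu ih =>
    intro f f1 h
    rw [disjoint_insert_left] at hd
    have hu' : u ∉ S ∪ R := by simp [hu, hd.1]
    rw [insert_union, dl_insert hu', dl_insert hu]
    refine ih hd.2 _ _ fun T1 h1 T2 h2 => ?_
    rw [← insert_union, h _ (insert_subset_insert _ h1) _ h2,
      h _ (h1.trans (subset_insert _ _)) _ h2]
    ring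

end Alt

section Weights

variable {E : Type*} [DecidableEq E]

/-- product weight -/
def W (v : E → ℝ) (A : Finset E) : ℝ := ∏ g ∈ A, v g

omit [DecidableEq E] in
lemma W_nonneg {v : E → ℝ} (hv : ∀ g, 0 ≤ v g) (A : Finset E) : 0 ≤ W v A :=
  prod_nonneg fun g _ => hv g

lemma W_insert (v : E → ℝ) {g : E} {A : Finset E} (h : g ∉ A) : W v (insert g A) = v g * W v A :=
  prod_insert h

/-- take A on K and B off K -/
def mix (K A B : Finset E) : Finset E := (A ∩ K) ∪ (B \ K)

lemma mem_mix {K A B : Finset E} {g : E} :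
    g ∈ mix K A B ↔ (g ∈ K ∧ g ∈ A) ∨ (g ∉ K ∧ g ∈ B) := by
  simp only [mix, mem_union, mem_inter, mem_sdiff]; tauto

lemma mix_mix (K A B : Finset E) : mix K (mix K A B) (mix K B A) = A := by
  ext g; simp only [mem_mix]; tauto

lemma W_mix (v : E → ℝ) (K A B : Finset E) : W v (mix K A B) * W v (mix K B A) = W v A * W v B := by
  have h : ∀ A B : Finset E, W v (mix K A B) = W v (A ∩ K) * W v (B \ K) := fun A B => by
    unfold W mix
    rw [prod_union]
    rw [disjoint_left]
    intro g h1 h2
    exact (mem_sdiff.1 h2).2 (mem_inter.1 h1).2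
  have h2 : ∀ A : Finset E, W v A = W v (A ∩ K) * W v (A \ K) := fun A => by
    unfold W
    rw [prod_inter_mul_prod_sdiff]
  rw [h, h, h2 A, h2 B]
  ring

lemma swap2 [Fintype E] (v : E → ℝ) (K : Finset E) (h : Finset E → Finset E → ℝ) :
    ∑ A, ∑ B, W v A * W v B * h A B = ∑ A, ∑ B, W v A * W v B * h (mix K A B) (mix K B A) := by
  rw [← Fintype.sum_prod_type', ← Fintype.sum_prod_type']
  symm
  refine Fintype.sum_equiv
    (⟨fun p => (mix K p.1 p.2, mix K p.2 p.1), fun p => (mix K p.1 p.2, mix K p.2 p.1),
      fun p => by simp [mix_mix], fun p => by simp [mix_mix]⟩ :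
      Finset E × Finset E ≃ Finset E × Finset E) _ _ fun p => ?_
  simp only [Equiv.coe_fn_mk, W_mix]

lemma regroup (v : E → ℝ) (K : Finset E) : ∀ h : Finset E → Finset E → ℝ,
    ∑ A ∈ K.powerset, ∑ B ∈ K.powerset, W v A * W v B * h A (A ∪ B) =
      ∑ D ∈ K.powerset, W v D * ∑ A ∈ D.powerset, W (fun g => 1 + v g) A * h A D := by
  induction K using Finset.induction_on with
  | empty => intro h; simp [W]
  | insert g K hg ih =>
    intro h
    have hn : ∀ A ∈ K.powerset, g ∉ A := fun A hA h => hg (mem_powerset.1 hA h)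
    have e1 : ∑ D ∈ K.powerset, W v (insert g D) *
        ∑ A ∈ (insert g D).powerset, W (fun g => 1 + v g) A * h A (insert g D) =
        ∑ D ∈ K.powerset, W v D * ∑ A ∈ D.powerset, W (fun g => 1 + v g) A *
          (v g * h A (insert g D) + v g * (1 + v g) * h (insert g A) (insert g D)) := by
      refine sum_congr rfl fun D hD => ?_
      rw [sum_powerset_insert (hn D hD), W_insert v (hn D hD), ← sum_add_distrib, mul_sum, mul_sum]
      refine sum_congr rfl fun A hA => ?_
      rw [W_insert _ (fun h => hn D hD (mem_powerset.1 hA h))]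
      ring
    rw [sum_powerset_insert hg, sum_powerset_insert hg, e1, ← ih h,
      ← ih fun A D => v g * h A (insert g D) + v g * (1 + v g) * h (insert g A) (insert g D),
      ← sum_add_distrib, ← sum_add_distrib]
    refine sum_congr rfl fun A hA => ?_
    rw [sum_powerset_insert hg, sum_powerset_insert hg, ← sum_add_distrib, ← sum_add_distrib,
      ← sum_add_distrib, ← sum_add_distrib]
    refine sum_congr rfl fun B hB => ?_
    rw [W_insert v (hn A hA), W_insert v (hn B hB), union_insert, insert_union, union_insert,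
      insert_union, insert_idem]
    ring

lemma half [Fintype E] (v : E → ℝ) (e : E) (h : Finset E → ℝ) (hh : ∀ A, h (insert e A) = h A) :
    (1 + v e) * ∑ A, (if e ∈ A then W v A * h A else 0) = v e * ∑ A, W v A * h A := by
  have hu : (univ : Finset (Finset E)) = (insert e (univ.erase e)).powerset := by
    rw [insert_erase (mem_univ e), powerset_univ]
  have he : e ∉ univ.erase e := notMem_erase e _
  rw [hu, sum_powerset_insert he, sum_powerset_insert he, ← sum_add_distrib, ← sum_add_distrib,
    mul_sum, mul_sum]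
  refine sum_congr rfl fun A hA => ?_
  have : e ∉ A := fun h => he (mem_powerset.1 hA h)
  rw [if_neg this, if_pos (mem_insert_self _ _), W_insert v this, hh]
  ring

end Weights

section Shearer

variable {V : Type*} [DecidableEq V]

lemma shearer (F z : Finset V → ℝ) (c : ℝ) (hc : 0 < c) (hF : ∀ U, 0 < F U) (hz : ∀ S, z S ≤ 0)
    (hrec : ∀ U u, u ∈ U →
      c * F U = c * F (U.erase u) + ∑ S ∈ U.powerset with u ∈ S, z S * F (U \ S)) :
    ∀ U' U S : Finset V, U ⊆ U' → S ⊆ U → F (U \ S) / F U ≤ F (U' \ S) / F U' := by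
  intro U'
  induction U' using Finset.strongInduction with
  | H U' ih =>
    intro U S hU hS
    rcases S.eq_empty_or_nonempty with rfl | ⟨u, hu⟩
    · rw [sdiff_empty, sdiff_empty, div_self (hF _).ne', div_self (hF _).ne']
    have huU : u ∈ U := hS hu
    have huU' : u ∈ U' := hU huU
    have key : ∀ X T : Finset V, u ∈ T → X \ T = X.erase u \ T.erase u := fun X T hT => by
      ext x
      simp only [mem_sdiff, mem_erase]
      by_cases hx : x = u <;> simp [hx, hT]
    have ih' : ∀ T : Finset V, T ⊆ U → u ∈ T →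
        F (U \ T) / F (U.erase u) ≤ F (U' \ T) / F (U'.erase u) := fun T hT huT => by
      rw [key U T huT, key U' T huT]
      exact ih _ (erase_ssubset huU') _ _ (erase_subset_erase _ hU) (erase_subset_erase _ hT)
    have ratio : ∀ X : Finset V, u ∈ X → c * (F X / F (X.erase u)) =
        c + ∑ T ∈ X.powerset with u ∈ T, z T * (F (X \ T) / F (X.erase u)) := fun X hX => by
      have := (hF (X.erase u)).ne'
      rw [← mul_div_assoc, hrec X u hX, add_div, sum_div, mul_div_assoc, div_self this, mul_one]
      simp only [mul_div_assoc]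
    have step : F U' / F (U'.erase u) ≤ F U / F (U.erase u) := by
      refine le_of_mul_le_mul_left ?_ hc
      rw [ratio U huU, ratio U' huU']
      have h1 : ∑ T ∈ U'.powerset with u ∈ T, z T * (F (U' \ T) / F (U'.erase u)) ≤
          ∑ T ∈ U.powerset with u ∈ T, z T * (F (U' \ T) / F (U'.erase u)) := by
        refine sum_le_sum_of_subset_of_nonpos' ?_ fun T _ _ => ?_
        · exact filter_subset_filter _ (powerset_mono.2 hU)
        · exact mul_nonpos_of_nonpos_of_nonneg (hz T) (div_pos (hF _) (hF _)).le
      have h2 : ∑ T ∈ U.powerset with u ∈ T, z T * (F (U' \ T) / F (U'.erase u)) ≤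
          ∑ T ∈ U.powerset with u ∈ T, z T * (F (U \ T) / F (U.erase u)) := by
        refine sum_le_sum fun T hT => ?_
        rw [mem_filter, mem_powerset] at hT
        exact mul_le_mul_of_nonpos_left (ih' T hT.1 hT.2) (hz T)
      linarith
    have e : ∀ X : Finset V, F (X \ S) / F X = (F (X \ S) / F (X.erase u)) / (F X / F (X.erase u)) :=
      fun X => by
        have := (hF (X.erase u)).ne'
        have := (hF X).ne'
        field_simp
    rw [e U, e U']
    exact div_le_div₀ (div_pos (hF _) (hF _)).le (ih' S hS hu) (div_pos (hF _) (hF _)) step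

end Shearer

end Pool.Agent.Lib.MP_c72610_co.Poly
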