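import Pool.Agent.Lib.MP_c72610_co.Core

set_option autoImplicit false

namespace Pool.Agent.Lib.MP_c72610_co

open Finset Classical

section
variable {α : Type*} [DecidableEq α]

/-- generating sum over the subsets of s -/
noncomputable def gs (z : α → ℝ) (s : Finset α) (g : Finset α → ℝ) : ℝ :=
  ∑ X ∈ s.powerset, g X * ∏ x ∈ X, z x

lemma gs_insert (z : α → ℝ) {s : Finset α} {a : α} (ha : a ∉ s) (g : Finset α → ℝ) :
    gs z (insert a s) g = gs z s g + z a * gs z s (fun X => g (insert a X)) := by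
  unfold gs
  rw [sum_powerset_insert ha, mul_sum]
  congr 1
  refine sum_congr rfl fun X hX => ?_
  rw [prod_insert (fun h => ha (mem_powerset.1 hX h))]; ring

omit [DecidableEq α] in
lemma gs_congr (z : α → ℝ) (s : Finset α) {g h : Finset α → ℝ} (hgh : ∀ X ⊆ s, g X = h X) :
    gs z s g = gs z s h :=
  sum_congr rfl fun X hX => by rw [hgh X (mem_powerset.1 hX)]

omit [DecidableEq α] in
lemma gs_mono (z : α → ℝ) (hz : ∀ x, 0 ≤ z x) (s : Finset α) {g h : Finset α → ℝ}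
    (hgh : ∀ X ⊆ s, g X ≤ h X) : gs z s g ≤ gs z s h :=
  sum_le_sum fun X hX =>
    mul_le_mul_of_nonneg_right (hgh X (mem_powerset.1 hX)) (prod_nonneg fun x _ => hz x)

omit [DecidableEq α] in
lemma gs_nonneg (z : α → ℝ) (hz : ∀ x, 0 ≤ z x) (s : Finset α) {g : Finset α → ℝ}
    (hg : ∀ X, 0 ≤ g X) : 0 ≤ gs z s g :=
  sum_nonneg fun X _ => mul_nonneg (hg X) (prod_nonneg fun x _ => hz x)

omit [DecidableEq α] in
lemma gs_add (z : α → ℝ) (s : Finset α) (g h : Finset α → ℝ) :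
    gs z s (fun X => g X + h X) = gs z s g + gs z s h := by
  simp only [gs, add_mul, sum_add_distrib]

omit [DecidableEq α] in
lemma gs_sub (z : α → ℝ) (s : Finset α) (g h : Finset α → ℝ) :
    gs z s (fun X => g X - h X) = gs z s g - gs z s h := by
  simp only [gs, sub_mul, sum_sub_distrib]

omit [DecidableEq α] in
lemma gs_const_mul (z : α → ℝ) (s : Finset α) (t : ℝ) (g : Finset α → ℝ) :
    gs z s (fun X => t * g X) = t * gs z s g := by
  simp only [gs, mul_sum, mul_assoc]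

omit [DecidableEq α] in
lemma gs_mul_const (z : α → ℝ) (s : Finset α) (t : ℝ) (g : Finset α → ℝ) :
    gs z s (fun X => g X * t) = gs z s g * t := by
  rw [mul_comm, ← gs_const_mul]; exact gs_congr z s fun X _ => mul_comm _ _

lemma gs_union (z : α → ℝ) (s t : Finset α) (h : Disjoint s t) (F : Finset α → ℝ) :
    gs z (s ∪ t) F = gs z s (fun X => gs z t (fun Y => F (X ∪ Y))) := by
  induction s using Finset.induction_on generalizing F with
  | empty => simp [gs]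
  | insert a s ha ih =>
    rw [disjoint_insert_left] at h
    rw [insert_union, gs_insert z (by simp [ha, h.1]), gs_insert z ha, ih h.2, ih h.2]
    simp only [insert_union]

omit [DecidableEq α] in
lemma gs_one (z : α → ℝ) (s : Finset α) : gs z s (fun _ => 1) = ∏ x ∈ s, (1 + z x) := by
  rw [prod_one_add]; simp [gs]

omit [DecidableEq α] in
lemma gs_restrict (z : α → ℝ) {s t : Finset α} (hts : t ⊆ s) (F : Finset α → ℝ)
    (h : ∀ X ⊆ s, ¬ X ⊆ t → F X = 0) : gs z s F = gs z t F := by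
  symm
  refine sum_subset (powerset_mono.2 hts) fun X hX hX' => ?_
  rw [h X (mem_powerset.1 hX) (fun h => hX' (mem_powerset.2 h)), zero_mul]

omit [DecidableEq α] in
lemma gs_subset (z : α → ℝ) {s t : Finset α} (hts : t ⊆ s) :
    gs z s (fun X => rind (X ⊆ t)) = ∏ x ∈ t, (1 + z x) := by
  rw [gs_restrict z hts _ (fun X _ h => rind_neg h), ← gs_one]
  exact gs_congr z t fun X hX => rind_pos hX

omit [DecidableEq α] in
lemma gs_card_one (z : α → ℝ) (t : Finset α) :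
    gs z t (fun X => rind (X.card = 1)) = ∑ x ∈ t, z x := by
  simp only [gs, rind, ite_mul, one_mul, zero_mul]
  rw [← sum_filter, ← powersetCard_eq_filter, powersetCard_one, sum_map]
  simp

lemma gf_split {ι : Type*} [Fintype ι] [DecidableEq ι] (w : ι → ℝ) (p : ι) (g : Finset ι → ℝ) :
    gf w g = ∑ Y : Finset ι, rind (p ∉ Y) * ((g Y + w p * g (insert p Y)) * ∏ x ∈ Y, w x) := by
  have e : gf w g = ∑ Y : Finset ι, rind (p ∉ Y) * (g Y * ∏ x ∈ Y, w x) +
      ∑ Y : Finset ι, rind (p ∈ Y) * (g Y * ∏ x ∈ Y, w x) := by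
    rw [← sum_add_distrib]
    refine sum_congr rfl fun Y _ => ?_
    by_cases h : p ∈ Y <;> simp [rind, h]
  rw [e, sum_mem_insert, ← sum_add_distrib]
  refine sum_congr rfl fun Y _ => ?_
  by_cases h : p ∈ Y
  · simp [rind, h]
  · rw [prod_insert h]; ring

lemma gs_push {ι : Type*} [Fintype ι] [DecidableEq ι] (z : α → ℝ) (π : α → ι) (s : Finset α)
    (g : Finset ι → ℝ) :
    gs z s (fun X => g (X.image π)) =
      gf (fun p => (∏ y ∈ s.filter (fun y => π y = p), (1 + z y)) - 1) g := by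
  induction s using Finset.induction_on generalizing g with
  | empty =>
    unfold gs gf
    rw [sum_eq_single (∅ : Finset ι)]
    · simp
    · intro Y _ hY
      obtain ⟨y, hy⟩ := nonempty_iff_ne_empty.2 hY
      rw [prod_eq_zero hy (by simp), mul_zero]
    · simp
  | insert a s ha ih =>
    rw [gs_insert z ha]
    simp only [image_insert]
    rw [ih g, ih (fun Y => g (insert (π a) Y)), gf_split _ (π a), gf_split _ (π a),
      gf_split _ (π a), mul_sum, ← sum_add_distrib]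
    refine sum_congr rfl fun Y _ => ?_
    by_cases h : π a ∈ Y
    · simp [rind, h]
    · have e1 : ∏ x ∈ Y, ((∏ y ∈ (insert a s).filter (fun y => π y = x), (1 + z y)) - 1) =
          ∏ x ∈ Y, ((∏ y ∈ s.filter (fun y => π y = x), (1 + z y)) - 1) := by
        refine prod_congr rfl fun x hx => ?_
        rw [filter_insert, if_neg (fun h' : π a = x => h (h' ▸ hx))]
      rw [e1, filter_insert, if_pos rfl, prod_insert (by simp [ha]), insert_idem]
      ring

lemma prod_mul_one_sub_le (z : α → ℝ) (hz : ∀ x, 0 ≤ z x) (s : Finset α) :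
    (∏ x ∈ s, (1 + z x)) * (1 - ∑ x ∈ s, z x) ≤ 1 := by
  induction s using Finset.induction_on with
  | empty => simp
  | insert a s ha ih =>
    rw [prod_insert ha, sum_insert ha]
    have h1 : 0 ≤ ∏ x ∈ s, (1 + z x) := prod_nonneg fun x _ => by linarith [hz x]
    have h2 : 0 ≤ ∑ x ∈ s, z x := sum_nonneg fun x _ => hz x
    have h3 := hz a
    nlinarith [mul_nonneg h1 (mul_nonneg h3 h3), mul_nonneg h1 (mul_nonneg h3 h2)]

omit [DecidableEq α] in
lemma one_le_prod_one_add (z : α → ℝ) (hz : ∀ x, 0 ≤ z x) (s : Finset α) :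
    1 ≤ ∏ x ∈ s, (1 + z x) :=
  by
  calc (1 : ℝ) = ∏ x ∈ s, (1 : ℝ) := by simp
    _ ≤ _ := prod_le_prod (fun _ _ => zero_le_one) fun x _ => by linarith [hz x]

/-- the abstract reduction. L is the part of the line through e and f, O the rest; Le, Lf are the
parts parallel to e, f (with the loops), F the four indicator functions. -/
lemma abstract_reduction (z : α → ℝ) (hz : ∀ x, 0 ≤ z x) (L O Le Lf : Finset α)
    (hLO : Disjoint L O) (hLe : Le ⊆ L) (hLf : Lf ⊆ L)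
    (Fef Fe Ff F0 pc pR pC px pd : Finset α → ℝ)
    (npc : ∀ X, 0 ≤ pc X) (npR : ∀ X, 0 ≤ pR X) (npC : ∀ X, 0 ≤ pC X) (npx : ∀ X, 0 ≤ px X)
    (npd : ∀ X, 0 ≤ pd X)
    (hgrid : gs z O pc * (gs z O px - gs z O pd) ≤ gs z O pR * gs z O pC)
    (h1 : ∀ X ⊆ L, ∀ Y ⊆ O, Fef (X ∪ Y) = pc Y)
    (h2 : ∀ X ⊆ L, ∀ Y ⊆ O, rind (X ⊆ Lf) * pC Y ≤ Fef (X ∪ Y) - Ff (X ∪ Y))
    (h3 : ∀ X ⊆ L, ∀ Y ⊆ O, rind (X ⊆ Le) * pR Y ≤ Fef (X ∪ Y) - Fe (X ∪ Y))
    (h4 : ∀ X ⊆ L, ∀ Y ⊆ O, Fef (X ∪ Y) - Fe (X ∪ Y) - Ff (X ∪ Y) + F0 (X ∪ Y) ≤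
      rind (X ⊆ Le ∩ Lf) * (px Y - pd Y) -
        rind ((X \ (Le ∩ Lf)).card = 1 ∧ X \ (Le ∩ Lf) ⊆ L \ (Le ∪ Lf)) * px Y) :
    gs z (L ∪ O) Fef * gs z (L ∪ O) F0 ≤ gs z (L ∪ O) Fe * gs z (L ∪ O) Ff := by
  have a1 : gs z (L ∪ O) Fef = (∏ x ∈ L, (1 + z x)) * gs z O pc := by
    rw [gs_union z L O hLO, ← gs_one, ← gs_mul_const]
    exact gs_congr z L fun X hX => by rw [one_mul]; exact gs_congr z O fun Y hY => h1 X hX Y hY
  have a2 : (∏ x ∈ Lf, (1 + z x)) * gs z O pC ≤ gs z (L ∪ O) Fef - gs z (L ∪ O) Ff := by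
    rw [← gs_sub, gs_union z L O hLO, ← gs_subset z hLf, ← gs_mul_const]
    refine gs_mono z hz L fun X hX => ?_
    rw [← gs_const_mul]
    exact gs_mono z hz O fun Y hY => h2 X hX Y hY
  have a3 : (∏ x ∈ Le, (1 + z x)) * gs z O pR ≤ gs z (L ∪ O) Fef - gs z (L ∪ O) Fe := by
    rw [← gs_sub, gs_union z L O hLO, ← gs_subset z hLe, ← gs_mul_const]
    refine gs_mono z hz L fun X hX => ?_
    rw [← gs_const_mul]
    exact gs_mono z hz O fun Y hY => h3 X hX Y hY
  have hI : Le ∩ Lf ⊆ L := inter_subset_left.trans hLe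
  have b1 : gs z L (fun X => rind ((X \ (Le ∩ Lf)).card = 1 ∧ X \ (Le ∩ Lf) ⊆ L \ (Le ∪ Lf))) =
      (∏ x ∈ Le ∩ Lf, (1 + z x)) * ∑ x ∈ L \ (Le ∪ Lf), z x := by
    have e : L = (Le ∩ Lf) ∪ (L \ (Le ∩ Lf)) := (union_sdiff_of_subset hI).symm
    have e2 : L \ (Le ∪ Lf) ⊆ L \ (Le ∩ Lf) := sdiff_subset_sdiff Subset.rfl inter_subset_union
    generalize hK : L \ (Le ∪ Lf) = K at *
    rw [e, gs_union z _ _ disjoint_sdiff, ← gs_one, ← gs_mul_const]
    refine gs_congr z _ fun X hX => ?_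
    rw [one_mul, ← gs_card_one]
    have : ∀ Y ⊆ L \ (Le ∩ Lf), (X ∪ Y) \ (Le ∩ Lf) = Y := by
      intro Y hY
      ext y
      have := @hX y
      have := @hY y
      simp only [mem_sdiff, mem_union] at *
      tauto
    rw [gs_congr z _ (h := fun Y => rind (Y.card = 1 ∧ Y ⊆ K)) (fun Y hY => by rw [this Y hY]),
      gs_restrict z e2 _ (fun Y _ h => rind_neg fun h' => h h'.2)]
    exact gs_congr z _ fun Y hY => rind_congr ⟨fun h => h.1, fun h => ⟨h, hY⟩⟩
  have a4 : gs z (L ∪ O) Fef - gs z (L ∪ O) Fe - gs z (L ∪ O) Ff + gs z (L ∪ O) F0 ≤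
      (∏ x ∈ Le ∩ Lf, (1 + z x)) * (gs z O px - gs z O pd) -
        ((∏ x ∈ Le ∩ Lf, (1 + z x)) * ∑ x ∈ L \ (Le ∪ Lf), z x) * gs z O px := by
    rw [← gs_sub, ← gs_sub, ← gs_add, gs_union z L O hLO, ← b1, ← gs_subset z hI, ← gs_mul_const,
      ← gs_mul_const, ← gs_sub]
    refine gs_mono z hz L fun X hX => ?_
    rw [← gs_sub, ← gs_const_mul, ← gs_const_mul, ← gs_sub]
    exact gs_mono z hz O fun Y hY => h4 X hX Y hY
  have c1 : (∏ x ∈ L, (1 + z x)) * (∏ x ∈ Le ∩ Lf, (1 + z x)) =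
      (∏ x ∈ Le, (1 + z x)) * (∏ x ∈ Lf, (1 + z x)) * ∏ x ∈ L \ (Le ∪ Lf), (1 + z x) := by
    rw [← prod_union_inter (s₁ := Le) (s₂ := Lf), ← prod_sdiff (union_subset hLe hLf)]; ring
  have c2 := prod_mul_one_sub_le z hz (L \ (Le ∪ Lf))
  have c3 := one_le_prod_one_add z hz (L \ (Le ∪ Lf))
  have c4 := one_le_prod_one_add z hz Le
  have c5 := one_le_prod_one_add z hz Lf
  have c6 := one_le_prod_one_add z hz L
  have d1 := gs_nonneg z hz O npc
  have d2 := gs_nonneg z hz O npR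
  have d3 := gs_nonneg z hz O npC
  have d4 := gs_nonneg z hz O npx
  have d5 := gs_nonneg z hz O npd
  generalize gs z (L ∪ O) Fef = c at *
  generalize gs z (L ∪ O) Fe = a at *
  generalize gs z (L ∪ O) Ff = b at *
  generalize gs z (L ∪ O) F0 = d at *
  generalize gs z O pc = Q at *
  generalize gs z O pR = R at *
  generalize gs z O pC = C at *
  generalize gs z O px = x at *
  generalize gs z O pd = D at *
  generalize ∏ x ∈ L, (1 + z x) = P at *
  generalize ∏ x ∈ Le, (1 + z x) = Pe at *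
  generalize ∏ x ∈ Lf, (1 + z x) = Pf at *
  generalize ∏ x ∈ Le ∩ Lf, (1 + z x) = l at *
  generalize ∏ x ∈ L \ (Le ∪ Lf), (1 + z x) = K at *
  generalize ∑ x ∈ L \ (Le ∪ Lf), z x = y at *
  have hc : 0 ≤ c := by rw [a1]; positivity
  have e1 : (Pe * R) * (Pf * C) ≤ (c - a) * (c - b) :=
    mul_le_mul a3 a2 (by positivity) (le_trans (by positivity) a3)
  have e2 : c * (c - a - b + d) ≤ c * (l * (x - D) - l * y * x) :=
    mul_le_mul_of_nonneg_left a4 hc
  have e3 : K * (x * (1 - y) - D) ≤ x - D := by nlinarith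
  have e4 : c * (l * (x - D) - l * y * x) = Pe * Pf * (Q * (K * (x * (1 - y) - D))) := by
    rw [a1]; linear_combination (Q * (x * (1 - y) - D)) * c1
  have e5 : Pe * Pf * (Q * (K * (x * (1 - y) - D))) ≤ Pe * Pf * (R * C) :=
    mul_le_mul_of_nonneg_left ((mul_le_mul_of_nonneg_left e3 d1).trans hgrid) (by positivity)
  nlinarith

end

end Pool.Agent.Lib.MP_c72610_co
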