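import Pool.Agent.Lib.MP_c72610_co.Sums
import Pool.Agent.Lib.MP_c72610_co.Hazard

set_option autoImplicit false

namespace Pool.Agent.Lib.MP_c72610_co

open Finset Classical

/-- constraint trees -/
inductive Tr (α : Type) : Type
  | nil : Tr α
  | leaf : α → Tr α
  | add : Tr α → Tr α → Tr α
  | cap : ℕ → Tr α → Tr α
  | flr : ℕ → Tr α → Tr α

namespace Tr

variable {α : Type} [DecidableEq α]

/-- leaves -/
def lv : Tr α → Finset α
  | nil => ∅
  | leaf x => {x}
  | add s t => lv s ∪ lv t
  | cap _ t => lv t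
  | flr _ t => lv t

/-- distinct leaves -/
def wf : Tr α → Prop
  | nil => True
  | leaf _ => True
  | add s t => wf s ∧ wf t ∧ Disjoint (lv s) (lv t)
  | cap _ t => wf t
  | flr _ t => wf t

/-- the functional of the tree, elements of P being forced -/
def ex (z : α → ℝ) (P : Finset α) : Tr α → (ℕ → ℝ) → ℝ
  | nil => fun h => h 0
  | leaf x => fun h => (if x ∈ P then 0 else h 0) + z x * h 1
  | add s t => cnv (ex z P s) (ex z P t)
  | cap c t => capF c (ex z P t)
  | flr a t => flrF a (ex z P t)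

lemma ex_rep (z : α → ℝ) (hz : ∀ x, 0 ≤ z x) (P : Finset α) (T : Tr α) : Rep (ex z P T) := by
  induction T with
  | nil => exact rep_of_sum {0} (fun _ : ℕ => 1) id (fun _ => zero_le_one) fun h => by simp [ex]
  | leaf x =>
    refine rep_of_sum (range 2) (fun k => if k = 0 then (if x ∈ P then 0 else 1) else z x) id
      (fun k => ?_) fun h => ?_
    · split_ifs; exacts [le_rfl, zero_le_one, hz x]
    · by_cases hx : x ∈ P <;> simp [ex, sum_range_succ, hx]
  | add s t ihs iht => exact ihs.cnv iht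
  | cap c t ih => exact ih.capF c
  | flr a t ih => exact ih.flrF a

lemma ex_insert (z : α → ℝ) (P : Finset α) {e : α} (T : Tr α) (he : e ∉ lv T) :
    ex z (insert e P) T = ex z P T := by
  induction T with
  | nil => rfl
  | leaf x =>
    have : x ≠ e := fun h => he (by simp [lv, h])
    simp [ex, this]
  | add s t ihs iht =>
    simp only [lv, mem_union, not_or] at he
    simp only [ex, ihs he.1, iht he.2]
  | cap c t ih => simp only [ex, ih he]
  | flr a t ih => simp only [ex, ih he]

lemma ex_lc (z : α → ℝ) (hz : ∀ x, 0 ≤ z x) (P : Finset α) (T : Tr α) : LC (ex z P T) := by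
  induction T with
  | nil =>
    intro i p q hpq
    simp only [cum, ex]
    split_ifs <;> first | omega | norm_num
  | leaf x =>
    intro i p q hpq
    rcases Nat.eq_zero_or_pos i with rfl | hi
    · simp only [Nat.sub_zero, mul_comm, le_refl]
    have r := ex_rep z hz P (leaf x)
    rcases Nat.eq_zero_or_pos (p - i) with h | h
    · rw [h, show cum (ex z P (leaf x)) 0 = 0 by simp [cum, ex], zero_mul]
      exact mul_nonneg (r.cum_nonneg _) (r.cum_nonneg _)
    · have : cum (ex z P (leaf x)) q = cum (ex z P (leaf x)) p := by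
        simp [cum, ex, show 0 < p by omega, show 1 < p by omega, show 0 < q by omega,
          show 1 < q by omega]
      rw [this]
      exact mul_le_mul_of_nonneg_right (r.cum_mono (by omega)) (r.cum_nonneg _)
  | add s t ihs iht => exact LC.cnv (ex_rep z hz P s) (ex_rep z hz P t) ihs iht
  | cap c t ih => exact LC.capF (ex_rep z hz P t) ih c
  | flr a t ih => exact LC.flrF (ex_rep z hz P t) ih a

lemma ex_rh (z : α → ℝ) (hz : ∀ x, 0 ≤ z x) (P : Finset α) (e : α) (T : Tr α) (hT : wf T) :
    RH (ex z (insert e P) T) (ex z P T) := by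
  have r := ex_rep z hz
  induction T with
  | nil => exact RH.refl _
  | leaf x =>
    by_cases hx : e ∈ lv (leaf x)
    swap
    · rw [ex_insert z P _ hx]; exact RH.refl _
    obtain rfl : e = x := by simpa [lv] using hx
    intro p q hpq
    by_cases hp : 1 < p
    · simp [cum, ex, show 0 < p by omega, hp, show 0 < q by omega, show 1 < q by omega]
    · rw [show cum (ex z (insert e P) (leaf e)) p = 0 by simp [cum, ex, hp], zero_mul]
      exact mul_nonneg ((r _ _).cum_nonneg _) ((r _ _).cum_nonneg _)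
  | add s t ihs iht =>
    obtain ⟨hs, ht, hd⟩ := hT
    simp only [ex]
    by_cases he : e ∈ lv t
    · rw [ex_insert z P s (fun h => disjoint_left.1 hd h he), cnv_comm (r _ s), cnv_comm (r _ s)]
      · exact RH.cnv (r _ _) (r _ _) (r _ _) (iht ht) (ex_lc z hz P s)
      all_goals exact r _ _
    · rw [ex_insert z P t he]
      exact RH.cnv (r _ _) (r _ _) (r _ _) (ihs hs) (ex_lc z hz P t)
  | cap c t ih => exact (ih hT).capF c
  | flr a t ih => exact RH.flrF (r _ _) (r _ _) (ih hT) a

lemma ex_corr (z : α → ℝ) (hz : ∀ x, 0 ≤ z x) (P : Finset α) {e f : α} (hef : e ≠ f) (T : Tr α)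
    (hT : wf T) {h : ℕ → ℝ} (H : HH h) :
    ex z (insert e (insert f P)) T h * ex z P T h ≤
      ex z (insert e P) T h * ex z (insert f P) T h := by
  have r := ex_rep z hz
  induction T generalizing h with
  | nil => exact le_rfl
  | leaf x =>
    by_cases hx : e ∈ lv (leaf x)
    · have hf : f ∉ lv (leaf x) := fun h => hef (by simp only [lv, mem_singleton] at *; rw [hx, h])
      rw [insert_comm, ex_insert z _ _ hf, ex_insert z _ _ hf]
    · rw [ex_insert z _ _ hx, ex_insert z _ _ hx, mul_comm]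
  | add s t ihs iht =>
    obtain ⟨hs, ht, hd⟩ := hT
    simp only [ex]
    by_cases he : e ∈ lv t <;> by_cases hf : f ∈ lv t
    · have he' : e ∉ lv s := fun h => disjoint_left.1 hd h he
      have hf' : f ∉ lv s := fun h => disjoint_left.1 hd h hf
      simp only [ex_insert z _ s he', ex_insert z _ s hf', cnv_comm (r P s) (r _ t)]
      exact iht ht (H.avg (r P s) (ex_lc z hz P s))
    · have he' : e ∉ lv s := fun h => disjoint_left.1 hd h he
      rw [ex_insert z _ s he', ex_insert z _ s he', insert_comm, ex_insert z _ t hf,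
        ex_insert z _ t hf, mul_comm (cnv (ex z P s) _ h)]
      exact H.split (r _ _) (r _ _) (r _ _) (r _ _) (ex_rh z hz P f s hs) (ex_rh z hz P e t ht)
    · have hf' : f ∉ lv s := fun h => disjoint_left.1 hd h hf
      rw [ex_insert z _ t he, ex_insert z _ t he, insert_comm, ex_insert z _ s hf',
        ex_insert z _ s hf']
      exact H.split (r _ _) (r _ _) (r _ _) (r _ _) (ex_rh z hz P e s hs) (ex_rh z hz P f t ht)
    · simp only [ex_insert z _ t he, ex_insert z _ t hf]
      exact ihs hs (H.avg (r P t) (ex_lc z hz P t))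
  | cap c t ih => exact ih hT (H.cap c)
  | flr a t ih => exact ih hT (H.flr a)

/-- least size of an admissible extension -/
def st : Tr α → Finset α → ℕ
  | nil, _ => 0
  | leaf x, X => if x ∈ X then 1 else 0
  | add s t, X => st s X + st t X
  | cap _ t, X => st t X
  | flr a t, X => max a (st t X)

/-- no upper bound is violated -/
def ok : Tr α → Finset α → Prop
  | nil, _ => True
  | leaf _, _ => True
  | add s t, X => ok s X ∧ ok t X
  | cap c t, X => ok t X ∧ st t X ≤ c
  | flr _ t, X => ok t X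

lemma st_local (T : Tr α) {X Y : Finset α} (h : ∀ x ∈ lv T, x ∈ X ↔ x ∈ Y) :
    st T X = st T Y ∧ (ok T X ↔ ok T Y) := by
  induction T with
  | nil => simp [st, ok]
  | leaf x => simp [st, ok, h x (by simp [lv])]
  | add s t ihs iht =>
    have h1 := ihs fun x hx => h x (mem_union_left _ hx)
    have h2 := iht fun x hx => h x (mem_union_right _ hx)
    simp only [st, ok, h1.1, h1.2, h2.1, h2.2, and_self]
  | cap c t ih => have := ih h; simp only [st, ok, this.1, this.2, and_self]
  | flr a t ih => have := ih h; simp only [st, ok, this.1, this.2, and_self]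

lemma ex_eq (z : α → ℝ) (P : Finset α) (T : Tr α) (hT : wf T) (h : ℕ → ℝ) :
    ex z P T h = gs z (lv T) fun X => rind (ok T X ∧ ∀ x ∈ P, x ∈ lv T → x ∈ X) * h (st T X) := by
  induction T generalizing h with
  | nil => simp [ex, gs, lv, st, ok, rind]
  | leaf x =>
    rw [lv, show ({x} : Finset α) = insert x ∅ from rfl, gs_insert z (by simp)]
    by_cases hx : x ∈ P <;> simp [ex, gs, st, ok, rind, hx]
  | add s t ihs iht =>
    obtain ⟨hs, ht, hd⟩ := hT
    simp only [ex, cnv, lv]
    rw [ihs hs, gs_union z _ _ hd]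
    refine gs_congr z _ fun X hX => ?_
    rw [iht ht, ← gs_const_mul]
    refine gs_congr z _ fun Y hY => ?_
    have h1 : ∀ x ∈ lv s, x ∈ X ∪ Y ↔ x ∈ X := fun x hx => by
      simp only [mem_union, or_iff_left_iff_imp]
      exact fun h => absurd (hY h) (disjoint_left.1 hd hx)
    have h2 : ∀ x ∈ lv t, x ∈ X ∪ Y ↔ x ∈ Y := fun x hx => by
      simp only [mem_union, or_iff_right_iff_imp]
      exact fun h => absurd hx (disjoint_left.1 hd (hX h))
    have h3 := st_local s h1
    have h4 := st_local t h2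
    rw [← mul_assoc, ← rind_and, st, ok, h3.1, h3.2, h4.1, h4.2]
    refine congrArg (· * _) (rind_congr ⟨fun h => ⟨⟨h.1.1, h.2.1⟩, fun x hx hx' => ?_⟩, fun h =>
      ⟨⟨h.1.1, fun x hx hx' => (h1 x hx').1 (h.2 x hx (mem_union_left _ hx'))⟩, h.1.2,
        fun x hx hx' => (h2 x hx').1 (h.2 x hx (mem_union_right _ hx'))⟩⟩)
    rcases mem_union.1 hx' with h' | h'
    · exact mem_union_left _ (h.1.2 x hx h')
    · exact mem_union_right _ (h.2.2 x hx h')
  | cap c t ih =>
    simp only [ex, capF, lv]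
    rw [ih hT]
    refine gs_congr z _ fun X _ => ?_
    by_cases hc : st t X ≤ c <;> simp [st, ok, hc, rind]
  | flr a t ih =>
    simp only [ex, flrF, lv]
    rw [ih hT]
    rfl

/-- the constraints of the tree -/
def sat : Tr α → Finset α → Prop
  | nil, _ => True
  | leaf _, _ => True
  | add s t, B => sat s B ∧ sat t B
  | cap c t, B => sat t B ∧ (B ∩ lv t).card ≤ c
  | flr a t, B => sat t B ∧ a ≤ (B ∩ lv t).card

/-- largest admissible size -/
def top : Tr α → ℕ
  | nil => 0
  | leaf _ => 1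
  | add s t => top s + top t
  | cap c t => min c (top t)
  | flr _ t => top t

lemma sat_local (T : Tr α) {X Y : Finset α} (h : ∀ x ∈ lv T, x ∈ X ↔ x ∈ Y) :
    sat T X ↔ sat T Y := by
  have e : X ∩ lv T = Y ∩ lv T := by
    ext x; simp only [mem_inter]; exact and_congr_left (h x)
  induction T with
  | nil => simp [sat]
  | leaf x => simp [sat]
  | add s t ihs iht =>
    have k : ∀ u : Tr α, lv u ⊆ lv (add s t) → X ∩ lv u = Y ∩ lv u := fun u hu => by
      ext x; simp only [mem_inter]; exact and_congr_left fun hx => h x (hu hx)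
    simp only [sat, ihs (fun x hx => h x (mem_union_left _ hx)) (k s subset_union_left),
      iht (fun x hx => h x (mem_union_right _ hx)) (k t subset_union_right)]
  | cap c t ih => simp only [sat, ih h e, show X ∩ lv t = Y ∩ lv t from e]
  | flr a t ih => simp only [sat, ih h e, show X ∩ lv t = Y ∩ lv t from e]

lemma ok_of_sat (T : Tr α) (hT : wf T) {X B : Finset α} (hB : sat T B) (hX : X ⊆ B) :
    ok T X ∧ st T X ≤ (B ∩ lv T).card ∧ (B ∩ lv T).card ≤ top T := by
  induction T with
  | nil => simp [ok, st, lv, top]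
  | leaf x =>
    refine ⟨trivial, ?_, (card_le_card inter_subset_right).trans (by simp [lv, top])⟩
    simp only [st, lv]
    split_ifs with hx
    · exact card_pos.2 ⟨x, by simp [hX hx]⟩
    · exact Nat.zero_le _
  | add s t ihs iht =>
    obtain ⟨hs, ht, hd⟩ := hT
    have h1 := ihs hs hB.1
    have h2 := iht ht hB.2
    have : (B ∩ lv (add s t)).card = (B ∩ lv s).card + (B ∩ lv t).card := by
      rw [lv, inter_union_distrib_left, card_union_of_disjoint
        (hd.mono inter_subset_right inter_subset_right)]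
    rw [this, st, top]
    exact ⟨⟨h1.1, h2.1⟩, by omega, by omega⟩
  | cap c t ih =>
    have h1 := ih hT hB.1
    have h2 := hB.2
    simp only [ok, st, top, lv]
    exact ⟨⟨h1.1, by omega⟩, by omega, by omega⟩
  | flr a t ih =>
    have h1 := ih hT hB.1
    have h2 := hB.2
    simp only [ok, st, top, lv]
    exact ⟨h1.1, by omega, by omega⟩

lemma sat_of_ok (T : Tr α) (hT : wf T) {X B0 : Finset α} (hB : sat T B0) (hX : ok T X) :
    st T X ≤ top T ∧ ∀ k, st T X ≤ k → k ≤ top T →
      ∃ B ⊆ lv T, (∀ x ∈ lv T, x ∈ X → x ∈ B) ∧ sat T B ∧ B.card = k := by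
  induction T with
  | nil =>
    refine ⟨le_rfl, fun k _ hk => ⟨∅, Subset.rfl, by simp [lv], trivial, ?_⟩⟩
    simp only [top] at hk; simp; omega
  | leaf x =>
    simp only [st, top, lv]
    refine ⟨by split_ifs <;> omega, fun k h1 h2 => ?_⟩
    rcases Nat.eq_zero_or_pos k with rfl | hk
    · refine ⟨∅, by simp, fun y hy hy' => ?_, trivial, rfl⟩
      rw [mem_singleton.1 hy] at hy'
      simp [hy'] at h1
    · exact ⟨{x}, Subset.rfl, fun y hy _ => hy, trivial, by simp; omega⟩
  | add s t ihs iht =>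
    obtain ⟨hs, ht, hd⟩ := hT
    obtain ⟨a1, a2⟩ := ihs hs hB.1 hX.1
    obtain ⟨b1, b2⟩ := iht ht hB.2 hX.2
    simp only [st, top]
    refine ⟨by omega, fun k h1 h2 => ?_⟩
    obtain ⟨B1, c1, c2, c3, c4⟩ := a2 (min (top s) (k - st t X)) (by omega) (by omega)
    obtain ⟨B2, d1, d2, d3, d4⟩ := b2 (k - min (top s) (k - st t X)) (by omega) (by omega)
    refine ⟨B1 ∪ B2, union_subset_union c1 d1, fun x hx hx' => ?_, ⟨?_, ?_⟩, ?_⟩
    · rcases mem_union.1 hx with h | h
      · exact mem_union_left _ (c2 x h hx')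
      · exact mem_union_right _ (d2 x h hx')
    · refine (sat_local s fun x hx => ?_).1 c3
      simp only [mem_union, iff_self_or]
      exact fun h => absurd (d1 h) (disjoint_left.1 hd hx)
    · refine (sat_local t fun x hx => ?_).1 d3
      simp only [mem_union, iff_or_self]
      exact fun h => absurd hx (disjoint_left.1 hd (c1 h))
    · rw [card_union_of_disjoint (hd.mono c1 d1), c4, d4]; omega
  | cap c t ih =>
    obtain ⟨a1, a2⟩ := ih hT hB.1 hX.1
    have := hX.2
    simp only [st, top]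
    refine ⟨by omega, fun k h1 h2 => ?_⟩
    obtain ⟨B, c1, c2, c3, c4⟩ := a2 k h1 (by omega)
    refine ⟨B, c1, c2, ⟨c3, ?_⟩, c4⟩
    rw [inter_eq_left.2 c1]; omega
  | flr a t ih =>
    obtain ⟨a1, a2⟩ := ih hT hB.1 hX
    have := hB.2
    have := (ok_of_sat t hT hB.1 Subset.rfl).2.2
    simp only [st, top]
    refine ⟨by omega, fun k h1 h2 => ?_⟩
    obtain ⟨B, c1, c2, c3, c4⟩ := a2 k (by omega) h2
    refine ⟨B, c1, c2, ⟨c3, ?_⟩, c4⟩
    rw [inter_eq_left.2 c1]; omega

lemma exists_leaves (S : Finset α) : ∃ T : Tr α, wf T ∧ lv T = S ∧ ∀ B, sat T B := by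
  induction S using Finset.induction_on with
  | empty => exact ⟨nil, trivial, rfl, fun _ => trivial⟩
  | insert a S ha ih =>
    obtain ⟨T, h1, h2, h3⟩ := ih
    exact ⟨add (leaf a) T, ⟨trivial, h1, by simp [lv, h2, ha]⟩, by simp [lv, h2],
      fun B => ⟨trivial, h3 B⟩⟩

lemma exists_tree (lo hi : Finset α → ℕ) (L : Finset (Finset α)) (S : Finset α)
    (hS : ∀ A ∈ L, A ⊆ S) (hL : ∀ A ∈ L, ∀ A' ∈ L, A ⊆ A' ∨ A' ⊆ A ∨ Disjoint A A') :
    ∃ T : Tr α, wf T ∧ lv T = S ∧
      ∀ B, sat T B ↔ ∀ A ∈ L, lo A ≤ (B ∩ A).card ∧ (B ∩ A).card ≤ hi A := by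
  induction L using Finset.strongInduction generalizing S with
  | H L ih =>
    rcases L.eq_empty_or_nonempty with rfl | hne
    · obtain ⟨T, h1, h2, h3⟩ := exists_leaves S
      exact ⟨T, h1, h2, fun B => by simp [h3 B]⟩
    obtain ⟨A, hA, hmax⟩ := exists_max_image L card hne
    have sub : ∀ (p : Finset α → Prop) [DecidablePred p], ¬ p A → L.filter p ⊂ L := fun p _ hp =>
      ⟨filter_subset _ _, fun h => hp (mem_filter.1 (h hA)).2⟩
    obtain ⟨T1, a1, a2, a3⟩ := ih _ (sub (fun A' => A' ⊆ A ∧ A' ≠ A) (by simp)) A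
      (fun A' h => (mem_filter.1 h).2.1)
      (fun A1 h1 A2 h2 => hL A1 (mem_filter.1 h1).1 A2 (mem_filter.1 h2).1)
    obtain ⟨T2, b1, b2, b3⟩ := ih _ (sub (fun A' => ¬ A' ⊆ A) (by simp)) (S \ A)
      (fun A' h => by
        obtain ⟨h1, h2⟩ := mem_filter.1 h
        rcases hL A' h1 A hA with h3 | h3 | h3
        · exact absurd h3 h2
        · exact absurd (eq_of_subset_of_card_le h3 (hmax A' h1)).ge h2
        · exact subset_sdiff.2 ⟨hS A' h1, h3⟩)
      (fun A1 h1 A2 h2 => hL A1 (mem_filter.1 h1).1 A2 (mem_filter.1 h2).1)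
    refine ⟨add (cap (hi A) (flr (lo A) T1)) T2, ⟨a1, b1, ?_⟩, ?_, fun B => ?_⟩
    · simp only [lv, a2, b2]; exact disjoint_sdiff
    · simp only [lv, a2, b2]; exact union_sdiff_of_subset (hS A hA)
    · simp only [sat, lv, a2, a3, b3, mem_filter]
      refine ⟨fun h A' hA' => ?_, fun h => ⟨⟨⟨fun A' h' => h A' h'.1, (h A hA).1⟩, (h A hA).2⟩,
        fun A' h' => h A' h'.1⟩⟩
      by_cases h1 : A' ⊆ A
      · by_cases h2 : A' = A
        · rw [h2]; exact ⟨h.1.1.2, h.1.2⟩
        · exact h.1.1.1 A' ⟨hA', h1, h2⟩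
      · exact h.2 A' ⟨hA', h1⟩

end Tr

end Pool.Agent.Lib.MP_c72610_co
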